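import Mathlib

set_option autoImplicit false
open Finset

namespace H769.Ac

/-- The convolution square of the central binomial coefficients is `4^n`. -/
lemma sum_centralBinom (n : ℕ) :
    ∑ p ∈ antidiagonal n, Nat.centralBinom p.1 * Nat.centralBinom p.2 = 4 ^ n := by
  induction n with
  | zero => simp
  | succ n ih =>
    have hsym : ∑ p ∈ antidiagonal (n+1), p.1 * (Nat.centralBinom p.1 * Nat.centralBinom p.2)
        = ∑ p ∈ antidiagonal (n+1), p.2 * (Nat.centralBinom p.1 * Nat.centralBinom p.2) := by
      rw [← Finset.Nat.sum_antidiagonal_swap]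
      apply Finset.sum_congr rfl
      intro p hp
      simp only [Prod.fst_swap, Prod.snd_swap]
      ring
    have h1 : (n+1) * ∑ p ∈ antidiagonal (n+1), Nat.centralBinom p.1 * Nat.centralBinom p.2
        = 2 * ∑ p ∈ antidiagonal (n+1), p.1 * (Nat.centralBinom p.1 * Nat.centralBinom p.2) := by
      rw [Finset.mul_sum, two_mul]
      conv_rhs => rw [hsym, ← hsym]
      nth_rewrite 2 [hsym]
      rw [← Finset.sum_add_distrib]
      apply Finset.sum_congr rfl
      intro p hp
      rw [HasAntidiagonal.mem_antidiagonal] at hp
      rw [← hp]; ring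
    have h2 : ∑ p ∈ antidiagonal (n+1), p.1 * (Nat.centralBinom p.1 * Nat.centralBinom p.2)
        = ∑ p ∈ antidiagonal n, (2 * (2 * p.1 + 1)) * (Nat.centralBinom p.1 * Nat.centralBinom p.2) := by
      rw [Finset.Nat.sum_antidiagonal_succ]
      simp only [zero_mul, zero_add]
      apply Finset.sum_congr rfl
      intro p hp
      rw [← mul_assoc, Nat.succ_mul_centralBinom_succ]
      ring
    have hsym' : ∑ p ∈ antidiagonal n, p.1 * (Nat.centralBinom p.1 * Nat.centralBinom p.2)
        = ∑ p ∈ antidiagonal n, p.2 * (Nat.centralBinom p.1 * Nat.centralBinom p.2) := by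
      rw [← Finset.Nat.sum_antidiagonal_swap]
      apply Finset.sum_congr rfl
      intro p hp
      simp only [Prod.fst_swap, Prod.snd_swap]
      ring
    have h3 : ∑ p ∈ antidiagonal n, (2 * (2 * p.1 + 1)) * (Nat.centralBinom p.1 * Nat.centralBinom p.2)
        = 2 * ((n + 1) * 4 ^ n) := by
      have : ∑ p ∈ antidiagonal n, (2 * (2 * p.1 + 1)) * (Nat.centralBinom p.1 * Nat.centralBinom p.2)
          = 2 * (∑ p ∈ antidiagonal n, p.1 * (Nat.centralBinom p.1 * Nat.centralBinom p.2)
            + ∑ p ∈ antidiagonal n, p.1 * (Nat.centralBinom p.1 * Nat.centralBinom p.2)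
            + ∑ p ∈ antidiagonal n, Nat.centralBinom p.1 * Nat.centralBinom p.2) := by
        rw [← Finset.sum_add_distrib, ← Finset.sum_add_distrib, Finset.mul_sum]
        apply Finset.sum_congr rfl
        intro p hp
        ring
      rw [this]
      congr 1
      nth_rewrite 2 [hsym']
      rw [← Finset.sum_add_distrib, ih]
      have : ∑ p ∈ antidiagonal n, (p.1 * (Nat.centralBinom p.1 * Nat.centralBinom p.2) +
          p.2 * (Nat.centralBinom p.1 * Nat.centralBinom p.2)) = n * 4 ^ n := by
        rw [← ih, Finset.mul_sum]
        apply Finset.sum_congr rfl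
        intro p hp
        rw [HasAntidiagonal.mem_antidiagonal] at hp
        rw [← hp]; ring
      rw [this]; ring
    rw [h2, h3] at h1
    have : (n+1) * ∑ p ∈ antidiagonal (n+1), Nat.centralBinom p.1 * Nat.centralBinom p.2
        = (n+1) * 4 ^ (n+1) := by
      rw [h1]; ring
    exact Nat.eq_of_mul_eq_mul_left (Nat.succ_pos n) this

/-- normalised central binomials -/
noncomputable def aa (n : ℕ) : ℝ := (Nat.centralBinom n : ℝ) / 4 ^ n

lemma aa_nonneg (n : ℕ) : 0 ≤ aa n := by unfold aa; positivity

lemma sum_aa (n : ℕ) : ∑ p ∈ antidiagonal n, aa p.1 * aa p.2 = 1 := by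
  have h : ∑ p ∈ antidiagonal n, aa p.1 * aa p.2
      = (∑ p ∈ antidiagonal n, ((Nat.centralBinom p.1 * Nat.centralBinom p.2 : ℕ) : ℝ)) / 4 ^ n := by
    rw [Finset.sum_div]
    apply Finset.sum_congr rfl
    intro p hp
    rw [HasAntidiagonal.mem_antidiagonal] at hp
    unfold aa
    rw [← hp, pow_add]
    push_cast
    field_simp
  rw [h, ← Nat.cast_sum, sum_centralBinom]
  push_cast
  exact div_self (by positivity)

/-- pairs of subsets with prescribed multiset sum and prescribed sizes: upper bound -/
lemma card_pairs_le {U : Type*} [Fintype U] [DecidableEq U] (g : U → ℕ) (a b : ℕ) :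
    (Finset.univ.filter (fun p : Finset U × Finset U =>
      p.1.card = a ∧ p.2.card = b ∧ ∀ i, (if i ∈ p.1 then 1 else 0) + (if i ∈ p.2 then 1 else 0) = g i)).card
      ≤ (a + b).choose a := by
  classical
  set S := Finset.univ.filter (fun p : Finset U × Finset U =>
      p.1.card = a ∧ p.2.card = b ∧ ∀ i, (if i ∈ p.1 then 1 else 0) + (if i ∈ p.2 then 1 else 0) = g i)
  rcases S.eq_empty_or_nonempty with h | ⟨⟨A0, B0⟩, h0⟩
  · rw [h]; simp
  · -- support of g
    set G := Finset.univ.filter (fun i => 0 < g i)
    have hG : G.card ≤ a + b := by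
      have : G ⊆ A0 ∪ B0 := by
        intro i hi
        simp only [G, Finset.mem_filter, Finset.mem_univ, true_and] at hi
        simp only [S, Finset.mem_filter, Finset.mem_univ, true_and] at h0
        rw [← h0.2.2 i] at hi
        rw [Finset.mem_union]
        by_contra hc
        push Not at hc
        simp [hc.1, hc.2] at hi
      calc G.card ≤ (A0 ∪ B0).card := Finset.card_le_card this
        _ ≤ A0.card + B0.card := Finset.card_union_le _ _
        _ = a + b := by
          simp only [S, Finset.mem_filter, Finset.mem_univ, true_and] at h0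
          rw [h0.1, h0.2.1]
    calc S.card ≤ (G.powersetCard a).card := by
          apply Finset.card_le_card_of_injOn (fun p => p.1)
          · intro p hp
            simp only [S, Finset.coe_filter, Finset.mem_univ, true_and, Set.mem_ofPred_eq] at hp
            simp only [Finset.mem_coe, Finset.mem_powersetCard]
            refine ⟨?_, hp.1⟩
            intro i hi
            simp only [G, Finset.mem_filter, Finset.mem_univ, true_and]
            rw [← hp.2.2 i]
            simp [hi]
          · intro p hp q hq hpq
            simp only [S, Finset.coe_filter, Finset.mem_univ, true_and, Set.mem_ofPred_eq] at hp hq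
            simp only at hpq
            apply Prod.ext hpq
            ext i
            have h1 := hp.2.2 i
            have h2 := hq.2.2 i
            rw [hpq] at h1
            by_cases hi1 : i ∈ p.2 <;> by_cases hi2 : i ∈ q.2 <;> simp_all
      _ = G.card.choose a := Finset.card_powersetCard _ _
      _ ≤ (a + b).choose a := Nat.choose_le_choose a hG

/-- pairs of complementary subsets of a set `C` with prescribed sizes: exact count (lower bound) -/
lemma card_pairs_ge {U : Type*} [Fintype U] [DecidableEq U] (C : Finset U) (a b : ℕ)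
    (hC : C.card = a + b) :
    (a + b).choose a ≤ (Finset.univ.filter (fun p : Finset U × Finset U =>
      p.1.card = a ∧ p.2.card = b ∧
        ∀ i, (if i ∈ p.1 then 1 else 0) + (if i ∈ p.2 then 1 else 0) = (if i ∈ C then 1 else 0))).card := by
  classical
  rw [← hC, ← Finset.card_powersetCard]
  apply Finset.card_le_card_of_injOn (fun A => (A, C \ A))
  · intro A hA
    simp only [Finset.mem_coe, Finset.mem_powersetCard] at hA
    simp only [Finset.coe_filter, Finset.mem_univ, true_and, Set.mem_ofPred_eq]
    refine ⟨hA.2, ?_, ?_⟩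
    · rw [Finset.card_sdiff_of_subset hA.1, hC, hA.2]; omega
    · intro i
      by_cases h1 : i ∈ A
      · have := hA.1 h1
        simp [h1, this]
      · by_cases h2 : i ∈ C
        · simp [h1, h2]
        · simp [h1, h2]
  · intro A hA B hB h
    simp only [Prod.mk.injEq] at h
    exact h.1

end H769.Ac
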