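import Mathlib
import Pool.Agent.H769R3.AcBinom

set_option autoImplicit false
open Finset

namespace H769.Ac

/-- base three code of a function -/
def cd {u : ℕ} (g : Fin u → ℕ) : ℕ := ∑ i : Fin u, g i * 3 ^ (i : ℕ)

lemma cd_lt {u : ℕ} (g : Fin u → ℕ) (hg : ∀ i, g i < 3) : cd g < 3 ^ u := by
  have h := (finFunctionFinEquiv (m := 3) (n := u) (fun i => (⟨g i, hg i⟩ : Fin 3))).2
  rw [finFunctionFinEquiv_apply] at h
  exact h

lemma cd_inj {u : ℕ} (g g' : Fin u → ℕ) (hg : ∀ i, g i < 3) (hg' : ∀ i, g' i < 3)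
    (h : cd g = cd g') : g = g' := by
  have h1 : finFunctionFinEquiv (m := 3) (n := u) (fun i => (⟨g i, hg i⟩ : Fin 3))
      = finFunctionFinEquiv (m := 3) (n := u) (fun i => (⟨g' i, hg' i⟩ : Fin 3)) := by
    apply Fin.ext
    rw [finFunctionFinEquiv_apply, finFunctionFinEquiv_apply]
    exact h
  have h2 := finFunctionFinEquiv.injective h1
  funext i
  have := congrFun h2 i
  simpa using this

/-- indicator with values in `ℕ` -/
def ind {u : ℕ} (A : Finset (Fin u)) (i : Fin u) : ℕ := if i ∈ A then 1 else 0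

lemma ind_le {u : ℕ} (A : Finset (Fin u)) (i : Fin u) : ind A i ≤ 1 := by
  unfold ind; split_ifs <;> simp

lemma sum_ind {u : ℕ} (A : Finset (Fin u)) : ∑ i, ind A i = A.card := by
  unfold ind; simp

lemma cd_add {u : ℕ} (A B : Finset (Fin u)) :
    cd (ind A) + cd (ind B) = cd (fun i => ind A i + ind B i) := by
  unfold cd
  rw [← Finset.sum_add_distrib]
  apply Finset.sum_congr rfl
  intro i hi; ring

section
variable (u0 u1 k s0 : ℕ)

/-- index type -/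
abbrev Idx := ℕ × ℕ × Finset (Fin u0) × Finset (Fin u1)

/-- the index set -/
def T : Finset (Idx u0 u1) :=
  ((range (s0+1)) ×ˢ ((range (s0+1)) ×ˢ
    ((univ : Finset (Finset (Fin u0))) ×ˢ (univ : Finset (Finset (Fin u1)))))).filter
    (fun p => p.1 + p.2.1 ≤ s0 ∧ p.2.2.1.card = k + (p.1+p.2.1) ∧ p.2.2.2.card = k - (p.1 + p.2.1))

lemma mem_T (p : Idx u0 u1) : p ∈ T u0 u1 k s0 ↔
    (p.1 + p.2.1 ≤ s0 ∧ p.2.2.1.card = k + (p.1+p.2.1) ∧ p.2.2.2.card = k - (p.1 + p.2.1)) := by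
  unfold T
  simp only [mem_filter, mem_product, mem_range, mem_univ, and_true]
  constructor
  · intro h; exact h.2
  · intro h; exact ⟨⟨by omega, by omega⟩, h⟩

/-- the integer values -/
def vv (p : Idx u0 u1) : ℕ :=
  p.1 + (2*s0+1) * (cd (ind p.2.2.1) + 3 ^ u0 * cd (ind p.2.2.2))

/-- weights -/
noncomputable def ww (p : Idx u0 u1) : ℝ := aa p.1 * aa p.2.1

lemma ww_nonneg (p : Idx u0 u1) : 0 ≤ ww u0 u1 p := mul_nonneg (aa_nonneg _) (aa_nonneg _)

/-- the pairs with given data -/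
def Fp (n n2 : ℕ) (g : Fin u0 → ℕ) (h : Fin u1 → ℕ) : Finset (Idx u0 u1 × Idx u0 u1) :=
  ((T u0 u1 k s0) ×ˢ (T u0 u1 k s0)).filter (fun pq =>
    pq.1.1 + pq.2.1 = n ∧ pq.1.2.1 + pq.2.2.1 = n2 ∧
    (∀ i, ind pq.1.2.2.1 i + ind pq.2.2.2.1 i = g i) ∧
    (∀ i, ind pq.1.2.2.2 i + ind pq.2.2.2.2 i = h i))

/-- decoding -/
lemma decode {W a a' M b b' c c' : ℕ} (ha : a < W) (ha' : a' < W) (hb : b < M) (hb' : b' < M)
    (h : a + W * (b + M * c) = a' + W * (b' + M * c')) : a = a' ∧ b = b' ∧ c = c' := by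
  have h1 : a = a' := by
    have := congrArg (· % W) h
    simpa [Nat.add_mul_mod_self_left, Nat.mod_eq_of_lt ha, Nat.mod_eq_of_lt ha'] using this
  subst h1
  have hW : 0 < W := by omega
  have h2 : b + M * c = b' + M * c' := by
    have : W * (b + M * c) = W * (b' + M * c') := by omega
    exact Nat.eq_of_mul_eq_mul_left hW this
  have h3 : b = b' := by
    have := congrArg (· % M) h2
    simpa [Nat.add_mul_mod_self_left, Nat.mod_eq_of_lt hb, Nat.mod_eq_of_lt hb'] using this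
  subst h3
  have hM : 0 < M := by omega
  refine ⟨rfl, rfl, ?_⟩
  have : M * c = M * c' := by omega
  exact Nat.eq_of_mul_eq_mul_left hM this

/-- the autocorrelation numbers -/
noncomputable def rr (m : ℕ) : ℝ :=
  ∑ pq ∈ ((T u0 u1 k s0) ×ˢ (T u0 u1 k s0)).filter
    (fun pq => vv u0 u1 s0 pq.1 + vv u0 u1 s0 pq.2 = m), ww u0 u1 pq.1 * ww u0 u1 pq.2

lemma vv_add (p q : Idx u0 u1) : vv u0 u1 s0 p + vv u0 u1 s0 q =
    (p.1 + q.1) + (2*s0+1) * (cd (fun i => ind p.2.2.1 i + ind q.2.2.1 i)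
      + 3 ^ u0 * cd (fun i => ind p.2.2.2 i + ind q.2.2.2 i)) := by
  unfold vv
  rw [← cd_add, ← cd_add]; ring

/-- the pairs summing to a given value are contained in a set `Fp` -/
lemma pairs_subset (m : ℕ) (p0 q0 : Idx u0 u1) (hp0 : p0 ∈ T u0 u1 k s0) (hq0 : q0 ∈ T u0 u1 k s0)
    (hm : vv u0 u1 s0 p0 + vv u0 u1 s0 q0 = m) :
    ((T u0 u1 k s0) ×ˢ (T u0 u1 k s0)).filter
    (fun pq => vv u0 u1 s0 pq.1 + vv u0 u1 s0 pq.2 = m) ⊆
    Fp u0 u1 k s0 (p0.1 + q0.1) (p0.2.1 + q0.2.1)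
      (fun i => ind p0.2.2.1 i + ind q0.2.2.1 i) (fun i => ind p0.2.2.2 i + ind q0.2.2.2 i) := by
  intro pq hpq
  rw [mem_filter, mem_product] at hpq
  obtain ⟨⟨hp, hq⟩, hv⟩ := hpq
  have hp' := (mem_T _ _ _ _ _).1 hp
  have hq' := (mem_T _ _ _ _ _).1 hq
  have hp0' := (mem_T _ _ _ _ _).1 hp0
  have hq0' := (mem_T _ _ _ _ _).1 hq0
  rw [← hm, vv_add, vv_add] at hv
  have h3 : ∀ (A B : Finset (Fin u0)), ∀ i, ind A i + ind B i < 3 := fun A B i => by
    have := ind_le A i; have := ind_le B i; omega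
  have h3' : ∀ (A B : Finset (Fin u1)), ∀ i, ind A i + ind B i < 3 := fun A B i => by
    have := ind_le A i; have := ind_le B i; omega
  obtain ⟨e1, e2, e3⟩ := decode (by omega) (by omega) (cd_lt _ (h3 _ _)) (cd_lt _ (h3 _ _)) hv
  have e2' := cd_inj _ _ (h3 _ _) (h3 _ _) e2
  have e3' := cd_inj _ _ (h3' _ _) (h3' _ _) e3
  have hsum : pq.1.2.2.1.card + pq.2.2.2.1.card = p0.2.2.1.card + q0.2.2.1.card := by
    rw [← sum_ind, ← sum_ind, ← sum_ind, ← sum_ind, ← Finset.sum_add_distrib,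
      ← Finset.sum_add_distrib]
    exact Finset.sum_congr rfl (fun i _ => congrFun e2' i)
  unfold Fp
  rw [mem_filter, mem_product]
  refine ⟨⟨hp, hq⟩, e1, by omega, fun i => congrFun e2' i, fun i => congrFun e3' i⟩

/-- the set of pairs of subsets -/
def PA {U : Type} [Fintype U] [DecidableEq U] (g : U → ℕ) (a b : ℕ) : Finset (Finset U × Finset U) :=
  Finset.univ.filter (fun p : Finset U × Finset U =>
      p.1.card = a ∧ p.2.card = b ∧ ∀ i, (if i ∈ p.1 then 1 else 0) + (if i ∈ p.2 then 1 else 0) = g i)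

/-- fibrewise decomposition -/
lemma sum_Fp (n n2 : ℕ) (g : Fin u0 → ℕ) (h : Fin u1 → ℕ) :
    ∑ pq ∈ Fp u0 u1 k s0 n n2 g h, ww u0 u1 pq.1 * ww u0 u1 pq.2 =
    ∑ z ∈ (antidiagonal n) ×ˢ (antidiagonal n2),
      (aa z.1.1 * aa z.1.2 * (aa z.2.1 * aa z.2.2)) *
      (((Fp u0 u1 k s0 n n2 g h).filter (fun pq => ((pq.1.1, pq.2.1), (pq.1.2.1, pq.2.2.1)) = z)).card : ℝ) := by
  rw [← Finset.sum_fiberwise_of_maps_to
    (g := fun pq : Idx u0 u1 × Idx u0 u1 => ((pq.1.1, pq.2.1), (pq.1.2.1, pq.2.2.1)))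
    (t := (antidiagonal n) ×ˢ (antidiagonal n2))]
  · apply Finset.sum_congr rfl
    intro z hz
    rw [Finset.card_eq_sum_ones, Nat.cast_sum, Finset.mul_sum]
    apply Finset.sum_congr rfl
    intro pq hpq
    rw [mem_filter] at hpq
    rw [← hpq.2]
    unfold ww
    push_cast
    ring
  · intro pq hpq
    unfold Fp at hpq
    rw [mem_filter] at hpq
    rw [mem_product, HasAntidiagonal.mem_antidiagonal, HasAntidiagonal.mem_antidiagonal]
    exact ⟨hpq.2.1, hpq.2.2.1⟩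

lemma fiber_le (n n2 : ℕ) (g : Fin u0 → ℕ) (h : Fin u1 → ℕ) (z : (ℕ × ℕ) × (ℕ × ℕ)) :
    ((Fp u0 u1 k s0 n n2 g h).filter (fun pq => ((pq.1.1, pq.2.1), (pq.1.2.1, pq.2.2.1)) = z)).card ≤
    (PA g (k + (z.1.1 + z.2.1)) (k + (z.1.2 + z.2.2))).card *
    (PA h (k - (z.1.1 + z.2.1)) (k - (z.1.2 + z.2.2))).card := by
  rw [← Finset.card_product]
  apply Finset.card_le_card_of_injOn
    (fun pq => ((pq.1.2.2.1, pq.2.2.2.1), (pq.1.2.2.2, pq.2.2.2.2)))
  · intro pq hpq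
    rw [Finset.mem_coe, mem_filter] at hpq
    obtain ⟨h1, h2⟩ := hpq
    unfold Fp at h1
    rw [mem_filter, mem_product, mem_T, mem_T] at h1
    obtain ⟨⟨hp, hq⟩, _, _, hg, hh⟩ := h1
    rw [← h2]
    simp only [Finset.coe_product, Set.mem_prod, Finset.mem_coe]
    unfold PA
    simp only [mem_filter, mem_univ, true_and]
    exact ⟨⟨hp.2.1, hq.2.1, hg⟩, ⟨hp.2.2, hq.2.2, hh⟩⟩
  · intro pq hpq pq' hpq' he
    rw [Finset.mem_coe, mem_filter] at hpq hpq'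
    have h1 := hpq.2.trans hpq'.2.symm
    simp only [Prod.mk.injEq] at h1 he
    obtain ⟨⟨x1, y1, A1, B1⟩, ⟨x2, y2, A2, B2⟩⟩ := pq
    obtain ⟨⟨x1', y1', A1', B1'⟩, ⟨x2', y2', A2', B2'⟩⟩ := pq'
    simp only at h1 he
    obtain ⟨⟨a1, a2⟩, a3, a4⟩ := h1
    obtain ⟨⟨b1, b2⟩, b3, b4⟩ := he
    subst a1 a2 a3 a4 b1 b2 b3 b4
    rfl

lemma fiber_ge (n n2 : ℕ) (g : Fin u0 → ℕ) (h : Fin u1 → ℕ) (z : (ℕ × ℕ) × (ℕ × ℕ))
    (hz : z ∈ (antidiagonal n) ×ˢ (antidiagonal n2)) (hs : n + n2 ≤ s0) :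
    (PA g (k + (z.1.1 + z.2.1)) (k + (z.1.2 + z.2.2))).card *
    (PA h (k - (z.1.1 + z.2.1)) (k - (z.1.2 + z.2.2))).card ≤
    ((Fp u0 u1 k s0 n n2 g h).filter (fun pq => ((pq.1.1, pq.2.1), (pq.1.2.1, pq.2.2.1)) = z)).card := by
  rw [mem_product, HasAntidiagonal.mem_antidiagonal, HasAntidiagonal.mem_antidiagonal] at hz
  rw [← Finset.card_product]
  apply Finset.card_le_card_of_injOn
    (fun AB => ((z.1.1, z.2.1, AB.1.1, AB.2.1), (z.1.2, z.2.2, AB.1.2, AB.2.2)))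
  · intro AB hAB
    simp only [Finset.coe_product, Set.mem_prod, Finset.mem_coe] at hAB
    unfold PA at hAB
    simp only [mem_filter, mem_univ, true_and] at hAB
    obtain ⟨⟨a1, a2, a3⟩, ⟨b1, b2, b3⟩⟩ := hAB
    rw [Finset.mem_coe, mem_filter]
    refine ⟨?_, rfl⟩
    unfold Fp
    rw [mem_filter, mem_product, mem_T, mem_T]
    refine ⟨⟨⟨by simp only; omega, a1, b1⟩, ⟨by simp only; omega, a2, b2⟩⟩, hz.1, hz.2, a3, b3⟩
  · intro AB _ AB' _ he
    obtain ⟨⟨A1, A2⟩, ⟨B1, B2⟩⟩ := AB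
    obtain ⟨⟨A1', A2'⟩, ⟨B1', B2'⟩⟩ := AB'
    simp only [Prod.mk.injEq, true_and] at he
    obtain ⟨⟨a1, b1⟩, a2, b2⟩ := he
    subst a1 a2 b1 b2
    rfl

lemma sum_aa4 (n n2 : ℕ) : ∑ z ∈ (antidiagonal n) ×ˢ (antidiagonal n2),
      (aa z.1.1 * aa z.1.2 * (aa z.2.1 * aa z.2.2)) = 1 := by
  rw [Finset.sum_product]
  simp only
  simp_rw [← Finset.mul_sum]
  rw [sum_aa]
  simp only [mul_one]
  exact sum_aa n

/-- upper bound -/
lemma rr_le (P : ℝ) (hP0 : 0 ≤ P) (hs0 : s0 ≤ k)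
    (hP : ∀ i ≤ s0, ∀ j ≤ s0, (((2*k + (i + j)).choose (k + i) : ℕ) : ℝ) *
      (((2*k - (i + j)).choose (k - i) : ℕ) : ℝ) ≤ P) (m : ℕ) :
    rr u0 u1 k s0 m ≤ P := by
  unfold rr
  rcases (((T u0 u1 k s0) ×ˢ (T u0 u1 k s0)).filter
    (fun pq => vv u0 u1 s0 pq.1 + vv u0 u1 s0 pq.2 = m)).eq_empty_or_nonempty with h | ⟨⟨p0, q0⟩, h0⟩
  · rw [h]; simpa using hP0
  · rw [mem_filter, mem_product] at h0
    have hsub := pairs_subset u0 u1 k s0 m p0 q0 h0.1.1 h0.1.2 h0.2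
    refine le_trans (Finset.sum_le_sum_of_subset_of_nonneg hsub
      (fun pq _ _ => mul_nonneg (ww_nonneg _ _ _) (ww_nonneg _ _ _))) ?_
    rw [sum_Fp]
    calc _ ≤ ∑ z ∈ (antidiagonal (p0.1 + q0.1)) ×ˢ (antidiagonal (p0.2.1 + q0.2.1)),
      (aa z.1.1 * aa z.1.2 * (aa z.2.1 * aa z.2.2)) * P := by
          apply Finset.sum_le_sum
          intro z hz
          apply mul_le_mul_of_nonneg_left _ (by have := aa_nonneg z.1.1; have := aa_nonneg z.1.2; have := aa_nonneg z.2.1; have := aa_nonneg z.2.2; positivity)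
          set F := ((Fp u0 u1 k s0 (p0.1 + q0.1) (p0.2.1 + q0.2.1)
            (fun i => ind p0.2.2.1 i + ind q0.2.2.1 i) (fun i => ind p0.2.2.2 i + ind q0.2.2.2 i)).filter
            (fun pq => ((pq.1.1, pq.2.1), (pq.1.2.1, pq.2.2.1)) = z)) with hF
          rcases F.eq_empty_or_nonempty with hFe | ⟨⟨p, q⟩, hpq⟩
          · rw [hFe]; simpa using hP0
          · -- sizes are fine
            have hpq' := hpq
            rw [hF, mem_filter] at hpq'
            obtain ⟨h1, h2⟩ := hpq'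
            unfold Fp at h1
            rw [mem_filter, mem_product, mem_T, mem_T] at h1
            obtain ⟨⟨hp, hq⟩, _, _, _, _⟩ := h1
            have hz1 : z.1.1 + z.2.1 ≤ s0 := by rw [← h2]; exact hp.1
            have hz2 : z.1.2 + z.2.2 ≤ s0 := by rw [← h2]; exact hq.1
            have h3 := fiber_le u0 u1 k s0 (p0.1 + q0.1) (p0.2.1 + q0.2.1)
              (fun i => ind p0.2.2.1 i + ind q0.2.2.1 i) (fun i => ind p0.2.2.2 i + ind q0.2.2.2 i) z
            rw [← hF] at h3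
            have h4 : (PA (fun i => ind p0.2.2.1 i + ind q0.2.2.1 i) (k + (z.1.1 + z.2.1)) (k + (z.1.2 + z.2.2))).card
                ≤ ((k + (z.1.1 + z.2.1)) + (k + (z.1.2 + z.2.2))).choose (k + (z.1.1 + z.2.1)) :=
              card_pairs_le _ _ _
            have h5 : (PA (fun i => ind p0.2.2.2 i + ind q0.2.2.2 i) (k - (z.1.1 + z.2.1)) (k - (z.1.2 + z.2.2))).card
                ≤ ((k - (z.1.1 + z.2.1)) + (k - (z.1.2 + z.2.2))).choose (k - (z.1.1 + z.2.1)) :=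
              card_pairs_le _ _ _
            have h6 := hP _ hz1 _ hz2
            have e1 : (k + (z.1.1 + z.2.1)) + (k + (z.1.2 + z.2.2)) = 2*k + ((z.1.1 + z.2.1) + (z.1.2 + z.2.2)) := by ring
            have e2 : (k - (z.1.1 + z.2.1)) + (k - (z.1.2 + z.2.2)) = 2*k - ((z.1.1 + z.2.1) + (z.1.2 + z.2.2)) := by omega
            rw [e1] at h4
            rw [e2] at h5
            calc (F.card : ℝ) ≤ (((PA (fun i => ind p0.2.2.1 i + ind q0.2.2.1 i) (k + (z.1.1 + z.2.1)) (k + (z.1.2 + z.2.2))).card *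
                (PA (fun i => ind p0.2.2.2 i + ind q0.2.2.2 i) (k - (z.1.1 + z.2.1)) (k - (z.1.2 + z.2.2))).card : ℕ) : ℝ) := by
                  exact_mod_cast h3
              _ ≤ (((2*k + ((z.1.1 + z.2.1) + (z.1.2 + z.2.2))).choose (k + (z.1.1 + z.2.1)) *
                  (2*k - ((z.1.1 + z.2.1) + (z.1.2 + z.2.2))).choose (k - (z.1.1 + z.2.1)) : ℕ) : ℝ) := by
                  exact_mod_cast Nat.mul_le_mul h4 h5
              _ ≤ P := by push_cast; exact h6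
      _ = P := by rw [← Finset.sum_mul, sum_aa4, one_mul]

/-- lower bound at generic points -/
lemma rr_ge (P : ℝ) (hs0 : s0 ≤ k) (n S : ℕ) (hn : n ≤ S) (hS : S ≤ s0)
    (C : Finset (Fin u0)) (E : Finset (Fin u1)) (hC : C.card = 2*k + S) (hE : E.card = 2*k - S)
    (hP : ∀ i ≤ S, P ≤ (((2*k + S).choose (k + i) : ℕ) : ℝ) *
      (((2*k - S).choose (k - i) : ℕ) : ℝ)) :
    P ≤ rr u0 u1 k s0 (n + (2*s0+1) * (cd (ind C) + 3 ^ u0 * cd (ind E))) := by
  have hsub : Fp u0 u1 k s0 n (S - n) (ind C) (ind E) ⊆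
      ((T u0 u1 k s0) ×ˢ (T u0 u1 k s0)).filter
      (fun pq => vv u0 u1 s0 pq.1 + vv u0 u1 s0 pq.2 =
        n + (2*s0+1) * (cd (ind C) + 3 ^ u0 * cd (ind E))) := by
    intro pq hpq
    unfold Fp at hpq
    rw [mem_filter] at hpq
    rw [mem_filter]
    refine ⟨hpq.1, ?_⟩
    rw [vv_add]
    obtain ⟨_, h1, h2, h3, h4⟩ := hpq
    rw [h1, funext h3, funext h4]
  have h1 : ∑ pq ∈ Fp u0 u1 k s0 n (S - n) (ind C) (ind E), ww u0 u1 pq.1 * ww u0 u1 pq.2 ≤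
      rr u0 u1 k s0 (n + (2*s0+1) * (cd (ind C) + 3 ^ u0 * cd (ind E))) :=
    Finset.sum_le_sum_of_subset_of_nonneg hsub
      (fun pq _ _ => mul_nonneg (ww_nonneg _ _ _) (ww_nonneg _ _ _))
  refine le_trans ?_ h1
  rw [sum_Fp]
  calc P = ∑ z ∈ (antidiagonal n) ×ˢ (antidiagonal (S - n)),
      (aa z.1.1 * aa z.1.2 * (aa z.2.1 * aa z.2.2)) * P := by
        rw [← Finset.sum_mul, sum_aa4, one_mul]
    _ ≤ _ := by
        apply Finset.sum_le_sum
        intro z hz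
        apply mul_le_mul_of_nonneg_left _ (by have := aa_nonneg z.1.1; have := aa_nonneg z.1.2; have := aa_nonneg z.2.1; have := aa_nonneg z.2.2; positivity)
        have h3 := fiber_ge u0 u1 k s0 n (S - n) (ind C) (ind E) z hz (by omega)
        rw [mem_product, HasAntidiagonal.mem_antidiagonal, HasAntidiagonal.mem_antidiagonal] at hz
        have h4 : ((k + (z.1.1 + z.2.1)) + (k + (z.1.2 + z.2.2))).choose (k + (z.1.1 + z.2.1)) ≤
            (PA (ind C) (k + (z.1.1 + z.2.1)) (k + (z.1.2 + z.2.2))).card :=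
          card_pairs_ge C _ _ (by rw [hC]; omega)
        have h5 : ((k - (z.1.1 + z.2.1)) + (k - (z.1.2 + z.2.2))).choose (k - (z.1.1 + z.2.1)) ≤
            (PA (ind E) (k - (z.1.1 + z.2.1)) (k - (z.1.2 + z.2.2))).card :=
          card_pairs_ge E _ _ (by rw [hE]; omega)
        have h6 := hP (z.1.1 + z.2.1) (by omega)
        have e1 : (k + (z.1.1 + z.2.1)) + (k + (z.1.2 + z.2.2)) = 2*k + S := by omega
        have e2 : (k - (z.1.1 + z.2.1)) + (k - (z.1.2 + z.2.2)) = 2*k - S := by omega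
        rw [e1] at h4
        rw [e2] at h5
        calc P ≤ _ := h6
          _ = (((2*k + S).choose (k + (z.1.1 + z.2.1)) * (2*k - S).choose (k - (z.1.1 + z.2.1)) : ℕ) : ℝ) := by push_cast; rfl
          _ ≤ _ := by exact_mod_cast (Nat.mul_le_mul h4 h5).trans h3

end

end H769.Ac
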