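import Mathlib

set_option autoImplicit false
open Finset Filter Asymptotics
open scoped Topology Nat

namespace H769.Ac

/-- the ratio `(k+i)!(k-i)!/(k!)^2` -/
noncomputable def rho (k i : ℕ) : ℝ := ((k+i).factorial : ℝ) * ((k-i).factorial : ℝ) / ((k.factorial : ℝ))^2

lemma rho_zero (k : ℕ) : rho k 0 = 1 := by
  unfold rho
  have : (k.factorial : ℝ) ≠ 0 := by exact_mod_cast (Nat.factorial_pos k).ne'
  simp only [add_zero, Nat.sub_zero]
  field_simp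

lemma rho_pos (k i : ℕ) : 0 < rho k i := by
  unfold rho
  have h1 : (0:ℝ) < (k.factorial : ℝ) := by exact_mod_cast (Nat.factorial_pos k)
  have h2 : (0:ℝ) < ((k+i).factorial : ℝ) := by exact_mod_cast (Nat.factorial_pos _)
  have h3 : (0:ℝ) < ((k-i).factorial : ℝ) := by exact_mod_cast (Nat.factorial_pos _)
  positivity

lemma rho_succ (k i : ℕ) (h : i + 1 ≤ k) : rho k (i+1) = rho k i * (((k:ℝ)+i+1)/((k:ℝ)-i)) := by
  unfold rho
  have h1 : (k.factorial : ℝ) ≠ 0 := by exact_mod_cast (Nat.factorial_pos k).ne'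
  have e1 : (k + (i+1)).factorial = (k+i+1) * (k+i).factorial := by
    rw [← add_assoc, Nat.factorial_succ]
  have e2 : (k - i).factorial = (k - i) * (k - (i+1)).factorial := by
    have : k - i = (k - (i+1)) + 1 := by omega
    rw [this, Nat.factorial_succ]
  have h3 : (k:ℝ) - i ≠ 0 := by
    have : ((i + 1 : ℕ):ℝ) ≤ k := by exact_mod_cast h
    push_cast at this
    have : (0:ℝ) < (k:ℝ) - i := by linarith
    exact this.ne'
  rw [e1, e2]
  push_cast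
  rw [Nat.cast_sub (by omega)]
  field_simp

lemma rho_tendsto (i : ℕ) : Tendsto (fun k => rho k i) atTop (𝓝 1) := by
  induction i with
  | zero => simp_rw [rho_zero]; exact tendsto_const_nhds
  | succ i ih =>
    have h1 : Tendsto (fun k : ℕ => (((k:ℝ)+i+1)/((k:ℝ)-i))) atTop (𝓝 1) := by
      have h2 : Tendsto (fun k : ℕ => 1 + ((2*i+1 : ℝ)/((k:ℝ)-i))) atTop (𝓝 (1 + 0)) := by
        apply tendsto_const_nhds.add
        apply Tendsto.div_atTop tendsto_const_nhds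
        exact tendsto_atTop_add_const_right _ _ tendsto_natCast_atTop_atTop
      rw [add_zero] at h2
      apply h2.congr'
      filter_upwards [eventually_ge_atTop (i+1)] with k hk
      have : ((i + 1 : ℕ):ℝ) ≤ k := by exact_mod_cast hk
      push_cast at this
      have h3 : (0:ℝ) < (k:ℝ) - i := by linarith
      field_simp
      ring
    have h3 := ih.mul h1
    rw [mul_one] at h3
    apply h3.congr'
    filter_upwards [eventually_ge_atTop (i+1)] with k hk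
    rw [rho_succ k i hk]

/-- the product of binomials -/
noncomputable def prodc (k i j : ℕ) : ℝ := (((2*k+(i+j)).choose (k+i) : ℕ) : ℝ) * ((2*k-(i+j)).choose (k-i) : ℕ)

noncomputable def Zk (k : ℕ) : ℝ := (((2*k).factorial : ℝ) / ((k.factorial : ℝ))^2)^2

lemma Zk_pos (k : ℕ) : 0 < Zk k := by
  unfold Zk
  have h1 : (0:ℝ) < (k.factorial : ℝ) := by exact_mod_cast (Nat.factorial_pos k)
  have h2 : (0:ℝ) < ((2*k).factorial : ℝ) := by exact_mod_cast (Nat.factorial_pos _)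
  positivity

lemma prodc_eq (k i j : ℕ) (hi : i ≤ k) (hj : j ≤ k) :
    prodc k i j = Zk k * (rho (2*k) (i+j) / (rho k i * rho k j)) := by
  unfold prodc Zk rho
  rw [Nat.cast_choose ℝ (show k + i ≤ 2*k+(i+j) by omega), Nat.cast_choose ℝ (show k - i ≤ 2*k-(i+j) by omega)]
  rw [show 2*k+(i+j) - (k+i) = k + j by omega, show 2*k-(i+j) - (k-i) = k - j by omega]
  have h1 : (k.factorial : ℝ) ≠ 0 := by exact_mod_cast (Nat.factorial_pos _).ne'
  have h2 : ((k+i).factorial : ℝ) ≠ 0 := by exact_mod_cast (Nat.factorial_pos _).ne'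
  have h3 : ((k+j).factorial : ℝ) ≠ 0 := by exact_mod_cast (Nat.factorial_pos _).ne'
  have h4 : ((k-i).factorial : ℝ) ≠ 0 := by exact_mod_cast (Nat.factorial_pos _).ne'
  have h5 : ((k-j).factorial : ℝ) ≠ 0 := by exact_mod_cast (Nat.factorial_pos _).ne'
  have h6 : ((2*k).factorial : ℝ) ≠ 0 := by exact_mod_cast (Nat.factorial_pos _).ne'
  field_simp

lemma prodc_tendsto (i j : ℕ) : Tendsto (fun k => prodc k i j / Zk k) atTop (𝓝 1) := by
  have h1 : Tendsto (fun k => rho (2*k) (i+j) / (rho k i * rho k j)) atTop (𝓝 (1/(1*1))) := by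
    apply Tendsto.div
    · exact (rho_tendsto (i+j)).comp (tendsto_id.const_mul_atTop' (by norm_num))
    · exact (rho_tendsto i).mul (rho_tendsto j)
    · norm_num
  norm_num at h1
  apply h1.congr'
  filter_upwards [eventually_ge_atTop (i+j)] with k hk
  rw [prodc_eq k i j (by omega) (by omega)]
  have := (Zk_pos k).ne'
  field_simp

/-- binomials of multiples of `v` -/
lemma choose_tendsto (t a : ℕ) (ht : 1 ≤ t) :
    Tendsto (fun v : ℕ => ((t*v).choose a : ℝ) / (v:ℝ)^a) atTop (𝓝 ((t:ℝ)^a / (a.factorial : ℝ))) := by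
  have h0 : (a.factorial : ℝ) ≠ 0 := by exact_mod_cast (Nat.factorial_pos _).ne'
  have ht' : (t:ℝ) ≠ 0 := by positivity
  have h1 := isEquivalent_choose a
  have h2 : Tendsto (fun n : ℕ => (n.choose a : ℝ) / ((n:ℝ)^a / (a.factorial : ℝ))) atTop (𝓝 1) := by
    have := (isEquivalent_iff_tendsto_one (u := fun n : ℕ => (n.choose a : ℝ)) (v := fun n : ℕ => (n:ℝ)^a / (a.factorial : ℝ)) (l := atTop) (by
      filter_upwards [eventually_ge_atTop 1] with n hn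
      have : (n:ℝ) ≠ 0 := by positivity
      positivity)).1 h1
    exact this
  have h3 : Tendsto (fun v : ℕ => t * v) atTop atTop := tendsto_id.const_mul_atTop' (by omega)
  have h4 := (h2.comp h3).mul_const ((t:ℝ)^a / (a.factorial : ℝ))
  rw [one_mul] at h4
  apply h4.congr'
  filter_upwards [eventually_ge_atTop 1] with v hv
  have : (v:ℝ) ≠ 0 := by positivity
  simp only [Function.comp]
  push_cast
  field_simp
  rw [mul_pow]; ring

lemma term_tendsto (t K s : ℕ) (ht : 1 ≤ t) (hs : s ≤ K) :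
    Tendsto (fun v : ℕ => ((t*v).choose (K+s) : ℝ) * (((t+1)*v).choose (K-s) : ℝ) / (v:ℝ)^(2*K)) atTop
      (𝓝 (((t:ℝ)*(t+1))^K/((K.factorial : ℝ))^2 * (((t:ℝ)/(t+1))^s / rho K s))) := by
  have h1 := (choose_tendsto t (K+s) ht).mul (choose_tendsto (t+1) (K-s) (by omega))
  have ht' : (t:ℝ) ≠ 0 := by positivity
  have ht'' : (t:ℝ) + 1 ≠ 0 := by positivity
  have e : ((t:ℝ)^(K+s) / ((K+s).factorial : ℝ)) * (((t+1:ℕ):ℝ)^(K-s) / ((K-s).factorial : ℝ)) =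
      (((t:ℝ)*(t+1))^K/((K.factorial : ℝ))^2 * (((t:ℝ)/(t+1))^s / rho K s)) := by
    unfold rho
    have h1 : (K.factorial : ℝ) ≠ 0 := by exact_mod_cast (Nat.factorial_pos _).ne'
    have h2 : ((K+s).factorial : ℝ) ≠ 0 := by exact_mod_cast (Nat.factorial_pos _).ne'
    have h3 : ((K-s).factorial : ℝ) ≠ 0 := by exact_mod_cast (Nat.factorial_pos _).ne'
    have h4 : ((t:ℝ)+1)^K = ((t:ℝ)+1)^(K-s) * ((t:ℝ)+1)^s := by rw [← pow_add]; congr 1; omega
    rw [mul_pow, h4, div_pow, pow_add]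
    push_cast
    field_simp
  rw [e] at h1
  apply h1.congr'
  filter_upwards [eventually_ge_atTop 1] with v hv
  have hv' : (v:ℝ) ≠ 0 := by positivity
  have e2 : (v:ℝ)^(2*K) = (v:ℝ)^(K+s) * (v:ℝ)^(K-s) := by rw [← pow_add]; congr 1; omega
  rw [e2]
  field_simp

lemma mass_tendsto (t k s0 : ℕ) (ht : 1 ≤ t) (hs : s0 ≤ k) :
    Tendsto (fun v : ℕ => (∑ s ∈ range (s0+1), ((t*v).choose (k+s) : ℝ) * (((t+1)*v).choose (k-s) : ℝ)) / (v:ℝ)^(2*k)) atTop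
      (𝓝 (((t:ℝ)*(t+1))^k/((k.factorial : ℝ))^2 * ∑ s ∈ range (s0+1), (((t:ℝ)/(t+1))^s / rho k s))) := by
  simp_rw [Finset.sum_div, Finset.mul_sum]
  apply tendsto_finsetSum
  intro s hs'
  rw [mem_range] at hs'
  exact term_tendsto t k s ht (by omega)

lemma card_tendsto (t k s0 : ℕ) (ht : 1 ≤ t) (hs : s0 ≤ k) :
    Tendsto (fun v : ℕ => (∑ S ∈ range (s0+1), (S:ℝ) * (((t*v).choose (2*k+S) : ℝ) * (((t+1)*v).choose (2*k-S) : ℝ))) / (v:ℝ)^(2*(2*k))) atTop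
      (𝓝 (((t:ℝ)*(t+1))^(2*k)/(((2*k).factorial : ℝ))^2 * ∑ S ∈ range (s0+1), (S:ℝ) * (((t:ℝ)/(t+1))^S / rho (2*k) S))) := by
  simp_rw [Finset.sum_div, Finset.mul_sum]
  apply tendsto_finsetSum
  intro S hS'
  rw [mem_range] at hS'
  have h := (term_tendsto t (2*k) S ht (by omega)).const_mul (S:ℝ)
  have e : (S:ℝ) * (((t:ℝ)*(t+1))^(2*k)/(((2*k).factorial : ℝ))^2 * (((t:ℝ)/(t+1))^S / rho (2*k) S)) =
    ((t:ℝ)*(t+1))^(2*k)/(((2*k).factorial : ℝ))^2 * ((S:ℝ) * (((t:ℝ)/(t+1))^S / rho (2*k) S)) := by ring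
  rw [e] at h
  apply h.congr
  intro v
  ring

lemma exists_t (ε : ℝ) (h0 : 0 < ε) : ∃ t : ℕ, 1 ≤ t ∧ (1 - ε) < (1 + ε) * ((t:ℝ)/(t+1)) := by
  obtain ⟨t, ht⟩ := exists_nat_gt (1/ε)
  refine ⟨t + 1, by omega, ?_⟩
  have h1 : 1 < t * ε := by
    rw [div_lt_iff₀ h0] at ht; exact ht
  push_cast
  rw [← mul_div_assoc, lt_div_iff₀ (by positivity)]
  nlinarith

lemma exists_s0 (ε θ : ℝ) (hθ0 : 0 < θ) (hθ1 : θ < 1) (h : (1 - ε) < (1 + ε) * θ) :
    ∃ s0 : ℕ, (1 - ε) * (∑ s ∈ range (s0+1), θ ^ s) ^ 2 < (1 + ε) * ∑ S ∈ range (s0+1), (S:ℝ) * θ ^ S := by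
  have h1 : Tendsto (fun n : ℕ => ∑ s ∈ range (n+1), θ ^ s) atTop (𝓝 (1 - θ)⁻¹) := by
    have := (hasSum_geometric_of_lt_one hθ0.le hθ1).tendsto_sum_nat
    exact this.comp (tendsto_add_atTop_nat 1)
  have h2 : Tendsto (fun n : ℕ => ∑ S ∈ range (n+1), (S:ℝ) * θ ^ S) atTop (𝓝 (θ / (1 - θ)^2)) := by
    have := (hasSum_coe_mul_geometric_of_norm_lt_one (r := θ) (by rw [Real.norm_of_nonneg hθ0.le]; exact hθ1)).tendsto_sum_nat
    exact this.comp (tendsto_add_atTop_nat 1)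
  have h3 := (h1.pow 2).const_mul (1 - ε)
  have h4 := h2.const_mul (1 + ε)
  have h5 : (1 - ε) * ((1 - θ)⁻¹)^2 < (1 + ε) * (θ / (1 - θ)^2) := by
    have : 0 < 1 - θ := by linarith
    rw [inv_pow, ← div_eq_mul_inv, ← mul_div_assoc]
    exact div_lt_div_of_pos_right h (by positivity)
  obtain ⟨n, hn⟩ := (h3.eventually_lt h4 h5).exists
  exact ⟨n, hn⟩

lemma exists_k (ε θ : ℝ) (h0 : 0 < ε) (h1 : ε < 1) (s0 : ℕ)
    (h : (1 - ε) * (∑ s ∈ range (s0+1), θ ^ s) ^ 2 < (1 + ε) * ∑ S ∈ range (s0+1), (S:ℝ) * θ ^ S) :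
    ∃ k : ℕ, s0 ≤ k ∧ (∀ i ≤ s0, ∀ j ≤ s0, prodc k i j ≤ (1 + ε) * Zk k ∧ (1 - ε) * ((1 + ε) * Zk k) ≤ prodc k i j) ∧
      (1 - ε) * (∑ s ∈ range (s0+1), θ ^ s / rho k s) ^ 2 < (1 + ε) * ∑ S ∈ range (s0+1), (S:ℝ) * (θ ^ S / rho (2*k) S) := by
  have a1 : Tendsto (fun k : ℕ => ∑ s ∈ range (s0+1), θ ^ s / rho k s) atTop (𝓝 (∑ s ∈ range (s0+1), θ ^ s)) := by
    apply tendsto_finsetSum
    intro s hs
    have := (tendsto_const_nhds (x := θ ^ s)).div (rho_tendsto s) one_ne_zero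
    rw [div_one] at this
    exact this
  have a2 : Tendsto (fun k : ℕ => ∑ S ∈ range (s0+1), (S:ℝ) * (θ ^ S / rho (2*k) S)) atTop (𝓝 (∑ S ∈ range (s0+1), (S:ℝ) * θ ^ S)) := by
    apply tendsto_finsetSum
    intro s hs
    have h2 : Tendsto (fun k => rho (2*k) s) atTop (𝓝 1) :=
      (rho_tendsto s).comp (tendsto_id.const_mul_atTop' (by norm_num))
    have := (tendsto_const_nhds (x := θ ^ s)).div h2 one_ne_zero
    rw [div_one] at this
    exact this.const_mul _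
  have a3 := ((a1.pow 2).const_mul (1 - ε)).eventually_lt (a2.const_mul (1 + ε)) h
  have a4 : ∀ᶠ k in atTop, ∀ i ∈ range (s0+1), ∀ j ∈ range (s0+1), prodc k i j ≤ (1 + ε) * Zk k ∧ (1 - ε) * ((1 + ε) * Zk k) ≤ prodc k i j := by
    rw [Finset.eventually_all]
    intro i hi
    rw [Finset.eventually_all]
    intro j hj
    have b1 := (prodc_tendsto i j).eventually_lt_const (show (1:ℝ) < 1 + ε by linarith)
    have b2 := (prodc_tendsto i j).eventually_const_lt (show (1 - ε)*(1+ε) < 1 by nlinarith)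
    filter_upwards [b1, b2] with k hk1 hk2
    have hz := Zk_pos k
    rw [div_lt_iff₀ hz] at hk1
    rw [lt_div_iff₀ hz] at hk2
    exact ⟨hk1.le, by linarith [hk2]⟩
  obtain ⟨k, hk1, hk2, hk3⟩ := (a3.and (a4.and (eventually_ge_atTop s0))).exists
  refine ⟨k, hk3, ?_, hk1⟩
  intro i hi j hj
  exact hk2 i (mem_range.2 (by omega)) j (mem_range.2 (by omega))

theorem params (ε : ℝ) (h0 : 0 < ε) (h1 : ε < 1) : ∃ u0 u1 k s0 : ℕ, ∃ P : ℝ, 0 < P ∧ s0 ≤ k ∧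
    (∀ i ≤ s0, ∀ j ≤ s0, prodc k i j ≤ P) ∧ (∀ i ≤ s0, ∀ j ≤ s0, (1 - ε) * P ≤ prodc k i j) ∧
    0 < (∑ s ∈ range (s0+1), (u0.choose (k+s) : ℝ) * (u1.choose (k-s) : ℝ)) ∧
    (1 - ε) * (∑ s ∈ range (s0+1), (u0.choose (k+s) : ℝ) * (u1.choose (k-s) : ℝ)) ^ 2 ≤
      P * ∑ S ∈ range (s0+1), (S:ℝ) * ((u0.choose (2*k+S) : ℝ) * (u1.choose (2*k-S) : ℝ)) := by
  obtain ⟨t, ht, htε⟩ := exists_t ε h0
  set θ : ℝ := (t:ℝ)/(t+1) with hθ
  have hθ0 : 0 < θ := by positivity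
  have hθ1 : θ < 1 := by
    rw [hθ, div_lt_one (by positivity)]; linarith
  obtain ⟨s0, hs0⟩ := exists_s0 ε θ hθ0 hθ1 htε
  obtain ⟨k, hk0, hk1, hk2⟩ := exists_k ε θ h0 h1 s0 hs0
  have hz := Zk_pos k
  have c1 := ((mass_tendsto t k s0 ht hk0).pow 2).const_mul (1 - ε)
  have c2 := (card_tendsto t k s0 ht hk0).const_mul ((1 + ε) * Zk k)
  have c3 : (1 - ε) * (((t:ℝ)*(t+1))^k/((k.factorial : ℝ))^2 * ∑ s ∈ range (s0+1), (θ^s / rho k s))^2 <
      ((1 + ε) * Zk k) * (((t:ℝ)*(t+1))^(2*k)/(((2*k).factorial : ℝ))^2 * ∑ S ∈ range (s0+1), (S:ℝ) * (θ^S / rho (2*k) S)) := by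
    have f1 : (0:ℝ) < (k.factorial : ℝ) := by exact_mod_cast (Nat.factorial_pos k)
    have f2 : (0:ℝ) < ((2*k).factorial : ℝ) := by exact_mod_cast (Nat.factorial_pos _)
    have f3 : (0:ℝ) < ((t:ℝ)*(t+1))^(2*k)/((k.factorial : ℝ))^4 := by positivity
    have g1 : (1 - ε) * (((t:ℝ)*(t+1))^k/((k.factorial : ℝ))^2 * ∑ s ∈ range (s0+1), (θ^s / rho k s))^2 =
      (((t:ℝ)*(t+1))^(2*k)/((k.factorial : ℝ))^4) * ((1 - ε) * (∑ s ∈ range (s0+1), θ ^ s / rho k s) ^ 2) := by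
      rw [mul_pow, div_pow, ← pow_mul, ← pow_mul, mul_comm k 2]; ring
    have g2 : ((1 + ε) * Zk k) * (((t:ℝ)*(t+1))^(2*k)/(((2*k).factorial : ℝ))^2 * ∑ S ∈ range (s0+1), (S:ℝ) * (θ^S / rho (2*k) S)) =
      (((t:ℝ)*(t+1))^(2*k)/((k.factorial : ℝ))^4) * ((1 + ε) * ∑ S ∈ range (s0+1), (S:ℝ) * (θ ^ S / rho (2*k) S)) := by
      unfold Zk
      field_simp
    rw [g1, g2]
    exact mul_lt_mul_of_pos_left hk2 f3
  obtain ⟨v, hv1, hv2⟩ := ((c1.eventually_lt c2 c3).and (eventually_ge_atTop (k+1))).exists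
  refine ⟨t*v, (t+1)*v, k, s0, (1 + ε) * Zk k, by positivity, hk0, fun i hi j hj => (hk1 i hi j hj).1,
    fun i hi j hj => (hk1 i hi j hj).2, ?_, ?_⟩
  · have hterm : 0 < ((t*v).choose (k+0) : ℝ) * (((t+1)*v).choose (k-0) : ℝ) := by
      have e1 : 0 < (t*v).choose (k+0) := Nat.choose_pos (by nlinarith)
      have e2 : 0 < ((t+1)*v).choose (k-0) := Nat.choose_pos (by simp; nlinarith)
      have e3 : (0:ℝ) < ((t*v).choose (k+0) : ℝ) := by exact_mod_cast e1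
      have e4 : (0:ℝ) < (((t+1)*v).choose (k-0) : ℝ) := by exact_mod_cast e2
      positivity
    refine lt_of_lt_of_le hterm ?_
    exact Finset.single_le_sum (f := fun s => ((t*v).choose (k+s) : ℝ) * (((t+1)*v).choose (k-s) : ℝ))
      (fun s _ => by positivity) (mem_range.2 (by omega))
  · have hvpos : (0:ℝ) < (v:ℝ) := by
      have : 0 < v := by omega
      exact_mod_cast this
    have hvp : (0:ℝ) < (v:ℝ)^(2*(2*k)) := by positivity
    have e1 := mul_lt_mul_of_pos_right hv1 hvp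
    have e2 : (1 - ε) * ((∑ s ∈ range (s0+1), ((t*v).choose (k+s) : ℝ) * (((t+1)*v).choose (k-s) : ℝ)) / (v:ℝ)^(2*k))^2 * (v:ℝ)^(2*(2*k)) =
      (1 - ε) * (∑ s ∈ range (s0+1), ((t*v).choose (k+s) : ℝ) * (((t+1)*v).choose (k-s) : ℝ))^2 := by
      rw [div_pow, ← pow_mul, mul_comm (2*k) 2]
      field_simp
    have e3 : ((1 + ε) * Zk k) * ((∑ S ∈ range (s0+1), (S:ℝ) * (((t*v).choose (2*k+S) : ℝ) * (((t+1)*v).choose (2*k-S) : ℝ))) / (v:ℝ)^(2*(2*k))) * (v:ℝ)^(2*(2*k)) =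
      ((1 + ε) * Zk k) * (∑ S ∈ range (s0+1), (S:ℝ) * (((t*v).choose (2*k+S) : ℝ) * (((t+1)*v).choose (2*k-S) : ℝ))) := by
      field_simp
    rw [e2, e3] at e1
    exact e1.le

end H769.Ac
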