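import Mathlib
import Pool.Agent.H769R3.AcCore

set_option autoImplicit false
open Finset

namespace H769.Ac

section
variable (u0 u1 k s0 : ℕ)

/-- total mass -/
lemma sum_ww : ∑ p ∈ T u0 u1 k s0, ww u0 u1 p =
    ∑ s ∈ range (s0+1), ((u0.choose (k+s) : ℕ) : ℝ) * ((u1.choose (k-s) : ℕ) : ℝ) := by
  have h1 : ∑ p ∈ T u0 u1 k s0, ww u0 u1 p =
      ∑ σ ∈ (range (s0+1)).sigma (fun s => (antidiagonal s) ×ˢ
        ((powersetCard (k+s) (univ : Finset (Fin u0))) ×ˢ (powersetCard (k-s) (univ : Finset (Fin u1))))),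
        aa σ.2.1.1 * aa σ.2.1.2 := by
    apply Finset.sum_nbij' (i := fun p => (⟨p.1 + p.2.1, ((p.1, p.2.1), (p.2.2.1, p.2.2.2))⟩ :
        (_ : ℕ) × ((ℕ × ℕ) × (Finset (Fin u0) × Finset (Fin u1)))))
      (j := fun σ => (σ.2.1.1, σ.2.1.2, σ.2.2.1, σ.2.2.2))
    · intro p hp
      rw [mem_T] at hp
      rw [mem_sigma, mem_product, mem_product, mem_range, HasAntidiagonal.mem_antidiagonal,
        mem_powersetCard, mem_powersetCard]
      exact ⟨by simp only; omega, rfl, ⟨subset_univ _, hp.2.1⟩, ⟨subset_univ _, hp.2.2⟩⟩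
    · rintro ⟨s, ⟨⟨x, y⟩, ⟨A, B⟩⟩⟩ hσ
      rw [mem_sigma, mem_product, mem_product, mem_range, HasAntidiagonal.mem_antidiagonal,
        mem_powersetCard, mem_powersetCard] at hσ
      simp only at hσ
      rw [mem_T]
      obtain ⟨h1, h2, ⟨_, h3⟩, ⟨_, h4⟩⟩ := hσ
      subst h2
      exact ⟨by simp only; omega, h3, h4⟩
    · intro p hp; rfl
    · rintro ⟨s, ⟨⟨x, y⟩, ⟨A, B⟩⟩⟩ hσ
      rw [mem_sigma, mem_product, mem_product, mem_range, HasAntidiagonal.mem_antidiagonal,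
        mem_powersetCard, mem_powersetCard] at hσ
      simp only at hσ
      obtain ⟨h1, h2, ⟨_, h3⟩, ⟨_, h4⟩⟩ := hσ
      subst h2
      rfl
    · intro p hp; rfl
  rw [h1, Finset.sum_sigma]
  apply Finset.sum_congr rfl
  intro s hs
  rw [Finset.sum_product]
  simp only [Finset.sum_const, Finset.card_product, card_powersetCard, card_univ, Fintype.card_fin,
    nsmul_eq_mul]
  rw [← Finset.mul_sum, sum_aa, mul_one]
  push_cast; rfl

/-- the good values -/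
def MM : Finset ℕ :=
  ((range (s0+1)).sigma (fun S => (Icc 1 S) ×ˢ
        ((powersetCard (2*k+S) (univ : Finset (Fin u0))) ×ˢ
          (powersetCard (2*k-S) (univ : Finset (Fin u1)))))).image
    (fun σ => σ.2.1 + (2*s0+1) * (cd (ind σ.2.2.1) + 3 ^ u0 * cd (ind σ.2.2.2)))

lemma card_MM : ((MM u0 u1 k s0).card : ℝ) =
    ∑ S ∈ range (s0+1), (S : ℝ) * (((u0.choose (2*k+S) : ℕ) : ℝ) * ((u1.choose (2*k-S) : ℕ) : ℝ)) := by
  unfold MM
  rw [Finset.card_image_of_injOn]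
  · rw [Finset.card_sigma]
    push_cast
    apply Finset.sum_congr rfl
    intro S hS
    simp [Finset.card_product, card_powersetCard]
  · rintro ⟨S, ⟨n, ⟨C, E⟩⟩⟩ h1 ⟨S', ⟨n', ⟨C', E'⟩⟩⟩ h2 he
    rw [Finset.mem_coe, mem_sigma, mem_product, mem_product, mem_range, mem_Icc,
        mem_powersetCard, mem_powersetCard] at h1 h2
    simp only at h1 h2 he
    have h3 : ∀ {u : ℕ} (A : Finset (Fin u)), ∀ i, ind A i < 3 := fun A i => by
      have := ind_le A i; omega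
    obtain ⟨e1, e2, e3⟩ := decode (by omega) (by omega) (cd_lt _ (h3 _)) (cd_lt _ (h3 _)) he
    have e2' := cd_inj _ _ (h3 _) (h3 _) e2
    have e3' := cd_inj _ _ (h3 _) (h3 _) e3
    have hset : ∀ {u : ℕ} (A B : Finset (Fin u)), ind A = ind B → A = B := by
      intro u A B hAB
      ext i
      have := congrFun hAB i
      unfold ind at this
      by_cases hA : i ∈ A <;> by_cases hB : i ∈ B <;> simp_all
    have e4 := hset _ _ e2'
    have e5 := hset _ _ e3'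
    subst e1 e4 e5
    have e6 : S = S' := by
      have a1 := h1.2.2.1.2
      have a2 := h2.2.2.1.2
      omega
    subst e6
    rfl

lemma MM_good (P : ℝ) (hs0 : s0 ≤ k) 
    (hP : ∀ i ≤ s0, ∀ j ≤ s0, i + j ≤ s0 → P ≤ (((2*k + (i+j)).choose (k + i) : ℕ) : ℝ) *
      (((2*k - (i+j)).choose (k - i) : ℕ) : ℝ)) (m : ℕ) (hm : m ∈ MM u0 u1 k s0) :
    1 ≤ m ∧ P ≤ rr u0 u1 k s0 m ∧ P ≤ rr u0 u1 k s0 (m - 1) := by
  unfold MM at hm
  rw [mem_image] at hm
  obtain ⟨⟨S, ⟨n, ⟨C, E⟩⟩⟩, h1, rfl⟩ := hm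
  rw [mem_sigma, mem_product, mem_product, mem_range, mem_Icc,
        mem_powersetCard, mem_powersetCard] at h1
  simp only at h1 ⊢
  obtain ⟨hS, ⟨hn1, hn2⟩, ⟨_, hC⟩, ⟨_, hE⟩⟩ := h1
  have hP' : ∀ i ≤ S, P ≤ (((2*k + S).choose (k + i) : ℕ) : ℝ) *
      (((2*k - S).choose (k - i) : ℕ) : ℝ) := by
    intro i hi
    have := hP i (by omega) (S - i) (by omega) (by omega)
    rw [show i + (S - i) = S by omega] at this
    exact this
  refine ⟨by omega, ?_, ?_⟩
  · exact rr_ge u0 u1 k s0 P hs0 n S hn2 (by omega) C E hC hE hP'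
  · have := rr_ge u0 u1 k s0 P hs0 (n-1) S (by omega) (by omega) C E hC hE hP'
    rw [show n + (2*s0+1) * (cd (ind C) + 3 ^ u0 * cd (ind E)) - 1 =
      (n - 1) + (2*s0+1) * (cd (ind C) + 3 ^ u0 * cd (ind E)) by omega]
    exact this

end
end H769.Ac
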