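import Mathlib

set_option autoImplicit false
open Finset MeasureTheory
open scoped ENNReal Convolution

namespace H769.Ac

section real
variable {ι : Type} (T : Finset ι) (v : ι → ℕ) (w : ι → ℝ)

/-- the step function -/
noncomputable def ff (x : ℝ) : ℝ := ∑ i ∈ T, w i * (Set.Ico (v i : ℝ) (v i + 1)).indicator (fun _ => (1:ℝ)) x

/-- the numbers `r` -/
noncomputable def rg [DecidableEq ι] (m : ℕ) : ℝ := ∑ pq ∈ (T ×ˢ T).filter (fun pq => v pq.1 + v pq.2 = m), w pq.1 * w pq.2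

lemma ind_integral (a b x : ℝ) :
    ∫ t : ℝ, (Set.Ico a (a+1)).indicator (fun _ => (1:ℝ)) t * (Set.Ico b (b+1)).indicator (fun _ => (1:ℝ)) (x - t)
      = max (min (a+1) (x-b) - max a (x-b-1)) 0 := by
  have h1 : (fun t : ℝ => (Set.Ico a (a+1)).indicator (fun _ => (1:ℝ)) t * (Set.Ico b (b+1)).indicator (fun _ => (1:ℝ)) (x - t))
      = (Set.Ico a (a+1) ∩ Set.Ioc (x-b-1) (x-b)).indicator (fun _ => (1:ℝ)) := by
    funext t
    by_cases h1 : t ∈ Set.Ico a (a+1)
    · by_cases h2 : t ∈ Set.Ioc (x-b-1) (x-b)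
      · have h3 : x - t ∈ Set.Ico b (b+1) := by
          rw [Set.mem_Ioc] at h2; rw [Set.mem_Ico]; constructor <;> linarith [h2.1, h2.2]
        have h4 : t ∈ Set.Ico a (a+1) ∩ Set.Ioc (x-b-1) (x-b) := ⟨h1, h2⟩
        rw [Set.indicator_of_mem h1, Set.indicator_of_mem h3, Set.indicator_of_mem h4]; ring
      · have h3 : x - t ∉ Set.Ico b (b+1) := by
          intro h; apply h2; rw [Set.mem_Ico] at h; rw [Set.mem_Ioc]; constructor <;> linarith [h.1, h.2]
        have h4 : t ∉ Set.Ico a (a+1) ∩ Set.Ioc (x-b-1) (x-b) := fun h => h2 h.2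
        rw [Set.indicator_of_notMem h3, Set.indicator_of_notMem h4]; ring
    · have h4 : t ∉ Set.Ico a (a+1) ∩ Set.Ioc (x-b-1) (x-b) := fun h => h1 h.1
      rw [Set.indicator_of_notMem h1, Set.indicator_of_notMem h4]; ring
  rw [h1, integral_indicator_const _ (measurableSet_Ico.inter measurableSet_Ioc)]
  have h2 : (Set.Ico a (a+1) ∩ Set.Ioc (x-b-1) (x-b) : Set ℝ) =ᵐ[volume] (Set.Ico a (a+1) ∩ Set.Ico (x-b-1) (x-b) : Set ℝ) :=
    (Filter.EventuallyEq.refl _ _).inter Ico_ae_eq_Ioc.symm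
  rw [measureReal_congr h2, Set.Ico_inter_Ico, Real.volume_real_Ico]
  simp

lemma ind_integral_nat (a b m : ℕ) (t : ℝ) (ht0 : 0 ≤ t) (ht1 : t < 1) :
    ∫ s : ℝ, (Set.Ico (a:ℝ) (a+1)).indicator (fun _ => (1:ℝ)) s * (Set.Ico (b:ℝ) (b+1)).indicator (fun _ => (1:ℝ)) ((m + t) - s)
      = (if a + b = m then t else 0) + (if a + b + 1 = m then 1 - t else 0) := by
  rw [ind_integral]
  rcases lt_trichotomy (a + b) m with h | h | h
  · rcases Nat.lt_or_ge (a + b + 1) m with h' | h'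
    · have h2 : ((a + b + 2 : ℕ):ℝ) ≤ m := by exact_mod_cast h'
      push_cast at h2
      rw [if_neg (by omega), if_neg (by omega)]
      rw [min_eq_left (by linarith), max_eq_right (a := (a:ℝ)) (by linarith), max_eq_right (by linarith)]
      ring
    · have h1 : a + b + 1 = m := by omega
      rw [if_neg (by omega), if_pos h1]
      subst h1
      push_cast
      rw [min_eq_left (by linarith), max_eq_right (a := (a:ℝ)) (by linarith), max_eq_left (by linarith)]
      ring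
  · rw [if_pos h, if_neg (by omega)]
    subst h
    push_cast
    rw [min_eq_right (by linarith), max_eq_left (b := ((a:ℝ) + b + t - b - 1)) (by linarith), max_eq_left (by linarith)]
    ring
  · have h2 : ((m + 1 : ℕ):ℝ) ≤ ((a + b : ℕ) : ℝ) := by exact_mod_cast h
    push_cast at h2
    rw [if_neg (by omega), if_neg (by omega)]
    rw [min_eq_right (by linarith), max_eq_left (b := ((m:ℝ) + t - b - 1)) (by linarith), max_eq_right (by linarith)]
    ring

lemma ff_integrable_term (i : ι) : Integrable (fun x : ℝ => w i * (Set.Ico (v i : ℝ) (v i + 1)).indicator (fun _ => (1:ℝ)) x) volume := by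
  apply Integrable.const_mul
  rw [integrable_indicator_iff measurableSet_Ico]
  apply integrableOn_const (by simp)

lemma ff_integrable : Integrable (ff T v w) volume := by
  unfold ff
  apply integrable_finsetSum
  intro i hi
  exact ff_integrable_term v w i

lemma ff_integral : ∫ x, ff T v w x = ∑ i ∈ T, w i := by
  unfold ff
  rw [integral_finsetSum _ (fun i hi => ff_integrable_term v w i)]
  apply Finset.sum_congr rfl
  intro i hi
  rw [integral_const_mul, integral_indicator_const _ measurableSet_Ico, Real.volume_real_Ico]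
  simp

lemma ff_nonneg (hw : ∀ i ∈ T, 0 ≤ w i) (x : ℝ) : 0 ≤ ff T v w x := by
  unfold ff
  apply Finset.sum_nonneg
  intro i hi
  apply mul_nonneg (hw i hi)
  apply Set.indicator_nonneg; intros; norm_num

lemma ff_memLp (p : ℝ≥0∞) : MemLp (ff T v w) p volume := by
  unfold ff
  apply memLp_finsetSum
  intro i hi
  have := (memLp_indicator_const (μ := (volume : Measure ℝ)) p (measurableSet_Ico (a := (v i : ℝ)) (b := v i + 1)) (1:ℝ) (Or.inr (by simp))).const_mul (w i)
  exact this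

/-- the self convolution -/
noncomputable def gg (x : ℝ) : ℝ := ∫ t : ℝ, ff T v w t * ff T v w (x - t)

lemma gg_eq_conv : gg T v w = (ff T v w) ⋆[ContinuousLinearMap.mul ℝ ℝ, volume] (ff T v w) := by
  funext x
  rfl

lemma gg_integrable : Integrable (gg T v w) volume := by
  rw [gg_eq_conv]
  exact (ff_integrable T v w).integrable_convolution _ (ff_integrable T v w)

lemma gg_integral : ∫ x, gg T v w x = (∑ i ∈ T, w i) ^ 2 := by
  rw [gg_eq_conv, integral_convolution _ (ff_integrable T v w) (ff_integrable T v w)]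
  rw [ff_integral, ContinuousLinearMap.mul_apply', sq]

lemma gg_nonneg (hw : ∀ i ∈ T, 0 ≤ w i) (x : ℝ) : 0 ≤ gg T v w x := by
  unfold gg
  apply integral_nonneg
  intro t
  exact mul_nonneg (ff_nonneg T v w hw _) (ff_nonneg T v w hw _)

lemma term_integrable (a b x : ℝ) : Integrable (fun t : ℝ => (Set.Ico a (a+1)).indicator (fun _ => (1:ℝ)) t * (Set.Ico b (b+1)).indicator (fun _ => (1:ℝ)) (x - t)) volume := by
  have h1 : (fun t : ℝ => (Set.Ico a (a+1)).indicator (fun _ => (1:ℝ)) t * (Set.Ico b (b+1)).indicator (fun _ => (1:ℝ)) (x - t))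
      = (Set.Ico a (a+1)).indicator (fun t => (Set.Ico b (b+1)).indicator (fun _ => (1:ℝ)) (x - t)) := by
    funext t
    by_cases h1 : t ∈ Set.Ico a (a+1)
    · rw [Set.indicator_of_mem h1, Set.indicator_of_mem h1]; ring
    · rw [Set.indicator_of_notMem h1, Set.indicator_of_notMem h1]; ring
  rw [h1, integrable_indicator_iff measurableSet_Ico]
  apply Measure.integrableOn_of_bounded (M := 1) (by simp)
  · apply Measurable.aestronglyMeasurable
    apply Measurable.comp (measurable_const.indicator measurableSet_Ico)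
    fun_prop
  · apply Filter.Eventually.of_forall
    intro t
    by_cases h : x - t ∈ Set.Ico b (b+1)
    · rw [Set.indicator_of_mem h]; simp
    · rw [Set.indicator_of_notMem h]; simp

lemma gg_val [DecidableEq ι] (m : ℕ) (t : ℝ) (ht0 : 0 ≤ t) (ht1 : t < 1) :
    gg T v w (m + t) = t * rg T v w m + (1 - t) * (if m = 0 then 0 else rg T v w (m-1)) := by
  unfold gg ff
  have h1 : ∀ s : ℝ, (∑ i ∈ T, w i * (Set.Ico (v i : ℝ) (v i + 1)).indicator (fun _ => (1:ℝ)) s) *
      (∑ i ∈ T, w i * (Set.Ico (v i : ℝ) (v i + 1)).indicator (fun _ => (1:ℝ)) ((m + t) - s)) =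
      ∑ pq ∈ T ×ˢ T, (w pq.1 * w pq.2) * ((Set.Ico (v pq.1 : ℝ) (v pq.1 + 1)).indicator (fun _ => (1:ℝ)) s *
        (Set.Ico (v pq.2 : ℝ) (v pq.2 + 1)).indicator (fun _ => (1:ℝ)) ((m + t) - s)) := by
    intro s
    rw [Finset.sum_mul_sum, ← Finset.sum_product']
    apply Finset.sum_congr rfl
    intro pq hpq
    ring
  simp_rw [h1]
  rw [integral_finsetSum _ (fun pq hpq => (term_integrable _ _ _).const_mul _)]
  simp_rw [integral_const_mul, ind_integral_nat _ _ m t ht0 ht1, mul_add]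
  rw [Finset.sum_add_distrib]
  unfold rg
  congr 1
  · rw [Finset.sum_filter, Finset.mul_sum]
    apply Finset.sum_congr rfl
    intro pq hpq
    split_ifs <;> ring
  · by_cases hm : m = 0
    · rw [if_pos hm, mul_zero]
      apply Finset.sum_eq_zero
      intro pq hpq
      rw [if_neg (by omega), mul_zero]
    · rw [if_neg hm, Finset.sum_filter, Finset.mul_sum]
      apply Finset.sum_congr rfl
      intro pq hpq
      by_cases h : v pq.1 + v pq.2 + 1 = m
      · rw [if_pos h, if_pos (by omega)]; ring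
      · rw [if_neg h, if_neg (by omega)]; ring

lemma gg_neg [DecidableEq ι] (x : ℝ) (hx : x < 0) : gg T v w x = 0 := by
  unfold gg
  have : ∀ t : ℝ, ff T v w t * ff T v w (x - t) = 0 := by
    intro t
    rcases lt_or_ge t 0 with h | h
    · have : ff T v w t = 0 := by
        unfold ff
        apply Finset.sum_eq_zero
        intro i hi
        rw [Set.indicator_of_notMem, mul_zero]
        intro h'
        have := h'.1
        have h2 : (0:ℝ) ≤ v i := Nat.cast_nonneg _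
        linarith
      rw [this, zero_mul]
    · have : ff T v w (x - t) = 0 := by
        unfold ff
        apply Finset.sum_eq_zero
        intro i hi
        rw [Set.indicator_of_notMem, mul_zero]
        intro h'
        have := h'.1
        have h2 : (0:ℝ) ≤ v i := Nat.cast_nonneg _
        linarith
      rw [this, mul_zero]
  simp_rw [this]
  simp

lemma gg_le [DecidableEq ι] (P : ℝ) (hP0 : 0 ≤ P) (hr : ∀ m, rg T v w m ≤ P) (x : ℝ) : gg T v w x ≤ P := by
  rcases lt_or_ge x 0 with h | h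
  · rw [gg_neg T v w x h]; exact hP0
  · have h1 : (⌊x⌋₊ : ℝ) ≤ x := Nat.floor_le h
    have h2 : x < ⌊x⌋₊ + 1 := Nat.lt_floor_add_one x
    have h3 : x = (⌊x⌋₊ : ℝ) + (x - ⌊x⌋₊) := by ring
    rw [h3, gg_val T v w ⌊x⌋₊ (x - ⌊x⌋₊) (by linarith) (by linarith)]
    have h4 : (if ⌊x⌋₊ = 0 then (0:ℝ) else rg T v w (⌊x⌋₊-1)) ≤ P := by
      split_ifs
      · exact hP0
      · exact hr _
    have h5 := hr ⌊x⌋₊
    nlinarith [mul_le_mul_of_nonneg_left h5 (show 0 ≤ x - ⌊x⌋₊ by linarith),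
      mul_le_mul_of_nonneg_left h4 (show 0 ≤ 1 - (x - ⌊x⌋₊) by linarith)]

lemma gg_ge [DecidableEq ι] (Q : ℝ) (m : ℕ) (hm : 1 ≤ m) (h1 : Q ≤ rg T v w m) (h2 : Q ≤ rg T v w (m-1))
    (x : ℝ) (hx : x ∈ Set.Ico (m:ℝ) (m+1)) : Q ≤ gg T v w x := by
  have h3 : x = (m : ℝ) + (x - m) := by ring
  rw [h3, gg_val T v w m (x - m) (by linarith [hx.1]) (by linarith [hx.2]), if_neg (by omega)]
  nlinarith [mul_le_mul_of_nonneg_left h1 (show 0 ≤ x - m by linarith [hx.1]),
      mul_le_mul_of_nonneg_left h2 (show 0 ≤ 1 - (x - m) by linarith [hx.2])]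

lemma gg_top [DecidableEq ι] (hw : ∀ i ∈ T, 0 ≤ w i) (P : ℝ) (hP0 : 0 ≤ P) (hr : ∀ m, rg T v w m ≤ P) :
    eLpNorm (gg T v w) ⊤ volume ≤ ENNReal.ofReal P := by
  rw [eLpNorm_exponent_top]
  apply eLpNormEssSup_le_of_ae_bound
  apply Filter.Eventually.of_forall
  intro x
  rw [Real.norm_of_nonneg (gg_nonneg T v w hw x)]
  exact gg_le T v w P hP0 hr x

lemma gg_one [DecidableEq ι] (hw : ∀ i ∈ T, 0 ≤ w i) :
    eLpNorm (gg T v w) 1 volume = ENNReal.ofReal ((∑ i ∈ T, w i) ^ 2) := by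
  rw [eLpNorm_one_eq_lintegral_enorm, ← ofReal_integral_norm_eq_lintegral_enorm (gg_integrable T v w)]
  congr 1
  rw [← gg_integral T v w]
  apply integral_congr_ae
  apply Filter.Eventually.of_forall
  intro x
  exact Real.norm_of_nonneg (gg_nonneg T v w hw x)

lemma gg_two [DecidableEq ι] (hw : ∀ i ∈ T, 0 ≤ w i) (Q : ℝ) (hQ : 0 ≤ Q) (M : Finset ℕ)
    (hM : ∀ m ∈ M, 1 ≤ m ∧ Q ≤ rg T v w m ∧ Q ≤ rg T v w (m-1)) :
    (M.card : ℝ≥0∞) * ENNReal.ofReal (Q ^ 2) ≤ eLpNorm (gg T v w) 2 volume ^ 2 := by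
  have h1 : eLpNorm (gg T v w) 2 volume ^ 2 = ∫⁻ x, ‖gg T v w x‖ₑ ^ (2:ℝ) := by
    have := eLpNorm_nnreal_pow_eq_lintegral (μ := (volume : Measure ℝ)) (f := gg T v w) (p := 2) (by norm_num)
    simpa using this
  rw [h1]
  calc (M.card : ℝ≥0∞) * ENNReal.ofReal (Q ^ 2)
      = ∑ m ∈ M, ENNReal.ofReal (Q^2) * volume (Set.Ico (m:ℝ) (m+1)) := by
        simp
    _ ≤ ∑ m ∈ M, ∫⁻ x in Set.Ico (m:ℝ) (m+1), ‖gg T v w x‖ₑ ^ (2:ℝ) := by
        apply Finset.sum_le_sum
        intro m hm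
        rw [← setLIntegral_const]
        apply setLIntegral_mono' measurableSet_Ico
        intro x hx
        obtain ⟨hm1, hm2, hm3⟩ := hM m hm
        have hge := gg_ge T v w Q m hm1 hm2 hm3 x hx
        rw [Real.enorm_eq_ofReal (le_trans hQ hge), ENNReal.ofReal_rpow_of_nonneg (le_trans hQ hge) (by norm_num)]
        apply ENNReal.ofReal_le_ofReal
        rw [Real.rpow_two]
        exact pow_le_pow_left₀ hQ hge 2
    _ = ∫⁻ x in ⋃ m ∈ M, Set.Ico (m:ℝ) (m+1), ‖gg T v w x‖ₑ ^ (2:ℝ) := by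
        rw [lintegral_biUnion_finset]
        · intro a ha b hb hab
          rw [Function.onFun, Set.disjoint_left]
          intro x hx hx'
          apply hab
          have e1 : ⌊x⌋₊ = a := by
            rw [Nat.floor_eq_iff (le_trans (Nat.cast_nonneg a) hx.1)]; exact hx
          have e2 : ⌊x⌋₊ = b := by
            rw [Nat.floor_eq_iff (le_trans (Nat.cast_nonneg a) hx.1)]; exact hx'
          rw [← e1, e2]
        · intro m hm; exact measurableSet_Ico
    _ ≤ ∫⁻ x, ‖gg T v w x‖ₑ ^ (2:ℝ) := setLIntegral_le_lintegral _ _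

/-- final comparison -/
theorem ratio_bound [DecidableEq ι] (hw : ∀ i ∈ T, 0 ≤ w i) (P ε c : ℝ) (hP0 : 0 < P) (hε1 : ε < 1)
    (hr : ∀ m, rg T v w m ≤ P) (M : Finset ℕ)
    (hM : ∀ m ∈ M, 1 ≤ m ∧ (1 - ε) * P ≤ rg T v w m ∧ (1-ε) * P ≤ rg T v w (m-1))
    (hS : 0 < ∑ i ∈ T, w i)
    (hcard : (1 - ε) * (∑ i ∈ T, w i) ^ 2 ≤ P * M.card)
    (h : eLpNorm (fun x : ℝ => ∫ t : ℝ, ff T v w t * ff T v w (x - t)) 2 volume ^ 2 ≤
        ENNReal.ofReal (1 - c) *
          eLpNorm (fun x : ℝ => ∫ t : ℝ, ff T v w t * ff T v w (x - t)) 1 volume *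
          eLpNorm (fun x : ℝ => ∫ t : ℝ, ff T v w t * ff T v w (x - t)) ⊤ volume) :
    (1 - ε) ^ 3 ≤ max (1 - c) 0 := by
  have e : (fun x : ℝ => ∫ t : ℝ, ff T v w t * ff T v w (x - t)) = gg T v w := rfl
  rw [e] at h
  set S := ∑ i ∈ T, w i with hSdef
  have h1 := gg_two T v w hw ((1-ε)*P) (by nlinarith) M hM
  have h2 := gg_one T v w hw
  have h3 := gg_top T v w hw P hP0.le hr
  rw [h2] at h
  have h4 : (M.card : ℝ≥0∞) * ENNReal.ofReal (((1-ε)*P) ^ 2) ≤ ENNReal.ofReal (max (1 - c) 0 * S ^ 2 * P) := by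
    refine h1.trans (h.trans ?_)
    rw [ENNReal.ofReal_mul (by positivity), ENNReal.ofReal_mul (by positivity)]
    have h5 : ENNReal.ofReal (1 - c) ≤ ENNReal.ofReal (max (1-c) 0) := ENNReal.ofReal_le_ofReal (le_max_left _ _)
    gcongr
  have h5 : (M.card : ℝ) * ((1-ε)*P) ^ 2 ≤ max (1 - c) 0 * S ^ 2 * P := by
    have : (M.card : ℝ≥0∞) = ENNReal.ofReal (M.card : ℝ) := by simp
    rw [this, ← ENNReal.ofReal_mul (by positivity)] at h4
    exact (ENNReal.ofReal_le_ofReal_iff (by positivity)).1 h4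
  -- combine
  have h6 : 0 < 1 - ε := by linarith
  have h7 : (1 - ε) ^ 3 * (S ^ 2 * P) ≤ max (1 - c) 0 * (S ^ 2 * P) := by
    calc (1 - ε) ^ 3 * (S ^ 2 * P) = ((1 - ε) * S ^ 2) * ((1-ε)^2 * P) := by ring
      _ ≤ (P * M.card) * ((1-ε)^2 * P) := by
          apply mul_le_mul_of_nonneg_right hcard; positivity
      _ = (M.card : ℝ) * ((1-ε)*P) ^ 2 := by ring
      _ ≤ max (1 - c) 0 * S ^ 2 * P := h5
      _ = _ := by ring
  exact le_of_mul_le_mul_right h7 (by positivity)

end real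

end H769.Ac
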