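import Pool.Agent.H769R3.Weyl

set_option autoImplicit false

open Finset MeasureTheory Filter Topology

namespace Pool.Agent.H769R3

/-! Approximation of invariant measures by measures carried by the sets `FF n m`. -/

/-- The coding map. -/
noncomputable def YY (n m : ℕ) (x : X) : X := yv n m (D n x)

lemma measurable_YY (n m : ℕ) : Measurable (YY n m) := by
  have h1 : Measurable (fun x : X => D n x) := by
    unfold D
    exact (measurable_rep.const_mul _).nat_floor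
  exact (measurable_from_nat (f := fun v => yv n m v)).comp h1

lemma measurable_pow_smul_YY (n m s : ℕ) : Measurable (fun x => (2 ^ s : ℕ) • YY n m x) :=
  (measurable_const_smul (2 ^ s : ℕ)).comp (measurable_YY n m)

/-- The approximating measure. -/
noncomputable def nu1 (n m : ℕ) (μ : Measure X) : Measure X :=
  ((m : ENNReal)⁻¹) • ∑ s ∈ range m, μ.map (fun x => (2 ^ s : ℕ) • YY n m x)

variable {n m : ℕ}

lemma nu1_prob (hm : 1 ≤ m) (μ : Measure X) [IsProbabilityMeasure μ] :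
    IsProbabilityMeasure (nu1 n m μ) := by
  constructor
  unfold nu1
  rw [Measure.smul_apply, Measure.finsetSum_apply]
  have h1 : ∀ s ∈ range m, (μ.map (fun x => (2 ^ s : ℕ) • YY n m x)) Set.univ = 1 := by
    intro s _
    rw [Measure.map_apply (measurable_pow_smul_YY n m s) MeasurableSet.univ, Set.preimage_univ,
      measure_univ]
  rw [sum_congr rfl h1, sum_const, card_range, nsmul_eq_mul, mul_one, smul_eq_mul,
    ENNReal.inv_mul_cancel]
  · simp; omega
  · simp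

lemma map_sum_measure (s : Finset ℕ) (F : ℕ → Measure X) {g : X → X} (hg : Measurable g) :
    (∑ i ∈ s, F i).map g = ∑ i ∈ s, (F i).map g := by
  classical
  induction s using Finset.induction_on with
  | empty => simp
  | insert a s ha ih => rw [sum_insert ha, sum_insert ha, Measure.map_add _ _ hg, ih]

lemma nu1_inv (hn : 1 ≤ n) (hm : 1 ≤ m) (hnm : n ∣ m) (μ : Measure X) :
    (nu1 n m μ).map (fun x : X => (2 : ℕ) • x) = nu1 n m μ := by
  unfold nu1
  rw [Measure.map_smul, map_sum_measure _ _ (by fun_prop)]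
  congr 1
  have h1 : ∀ s : ℕ, (μ.map (fun x => (2 ^ s : ℕ) • YY n m x)).map (fun x : X => (2 : ℕ) • x) =
      μ.map (fun x => (2 ^ (s + 1) : ℕ) • YY n m x) := by
    intro s
    rw [Measure.map_map (by fun_prop) (measurable_pow_smul_YY n m s)]
    congr 1
    funext x
    simp only [Function.comp]
    rw [← mul_smul, pow_succ, mul_comm]
  rw [sum_congr rfl (fun s _ => h1 s)]
  obtain ⟨m', rfl⟩ : ∃ m', m = m' + 1 := ⟨m - 1, by omega⟩
  rw [sum_range_succ, sum_range_succ' _ m']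
  congr 1
  congr 1
  funext x
  unfold YY
  rw [yv_period hn hm hnm, pow_zero, one_smul]

lemma integral_nu1 {E : Type*} [NormedAddCommGroup E] [NormedSpace ℝ E] (μ : Measure X)
    [IsProbabilityMeasure μ] (f : C(X, E)) :
    ∫ x, f x ∂(nu1 n m μ) = (m : ℝ)⁻¹ • ∑ s ∈ range m, ∫ x, f ((2 ^ s : ℕ) • YY n m x) ∂μ := by
  unfold nu1
  rw [integral_smul_measure, integral_finsetSum_measure]
  · rw [ENNReal.toReal_inv, ENNReal.toReal_natCast]
    congr 1
    apply sum_congr rfl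
    intro s _
    rw [integral_map (measurable_pow_smul_YY n m s).aemeasurable f.continuous.aestronglyMeasurable]
  · intro s _
    exact integrable_cont _ f

lemma YY_mem (x : X) (s : ℕ) (hs : s < m) : (2 ^ s : ℕ) • YY n m x ∈ FF n m :=
  ⟨s, hs, D n x, D_lt n x, rfl⟩

lemma xv_period (hn : 1 ≤ n) (v : ℕ) : (2 ^ n : ℕ) • xv n v = xv n v := by
  have h1 := two_pow_sub_pos hn
  have h : (2 ^ n - 1) • xv n v = 0 := by
    unfold xv
    rw [← AddCircle.coe_nsmul, nsmul_eq_mul, Nat.cast_sub Nat.one_le_two_pow]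
    push_cast
    rw [mul_div_cancel₀ _ h1.ne']
    exact_mod_cast coe_int_zero (v : ℤ)
  have e : 2 ^ n = (2 ^ n - 1) + 1 := (Nat.sub_add_cancel Nat.one_le_two_pow).symm
  rw [e, add_smul, h, zero_add, one_smul]

lemma xv_pow_mod (hn : 1 ≤ n) (v s : ℕ) : (2 ^ s : ℕ) • xv n v = (2 ^ (s % n) : ℕ) • xv n v := by
  have hp : ∀ i : ℕ, (2 ^ (n * i) : ℕ) • xv n v = xv n v := by
    intro i
    induction i with
    | zero => simp
    | succ i ih =>
      rw [mul_add, mul_one, pow_add, mul_smul, xv_period hn, ih]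
  conv_lhs => rw [← Nat.mod_add_div s n, pow_add, mul_smul, hp]

lemma xv_close (hn : 1 ≤ n) (x : X) : ‖xv n (D n x) - x‖ ≤ 1 / 2 ^ n := by
  have h1 := two_pow_sub_pos hn
  have e : xv n (D n x) - x = (((D n x : ℝ) / (2 ^ n - 1) - rep x : ℝ) : X) := by
    rw [AddCircle.coe_sub, coe_rep]
    rfl
  rw [e]
  refine (norm_coe_le _).trans ?_
  have h2 : (D n x : ℝ) ≤ 2 ^ n * rep x := Nat.floor_le (mul_nonneg (by positivity) (rep_nonneg x))
  have h3 : 2 ^ n * rep x < D n x + 1 := Nat.lt_floor_add_one _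
  have h4 : (D n x : ℝ) ≤ 2 ^ n - 1 := by
    have := D_lt n x
    have h5 : D n x + 1 ≤ 2 ^ n := this
    have h6 : ((D n x : ℝ) + 1) ≤ 2 ^ n := by exact_mod_cast h5
    linarith
  have h0 : (0 : ℝ) ≤ D n x := by positivity
  have hp : (0 : ℝ) < 2 ^ n := by positivity
  rw [abs_le]
  have e1 : (D n x : ℝ) / (2 ^ n - 1) = D n x / 2 ^ n + D n x / (2 ^ n * (2 ^ n - 1)) := by
    field_simp
    ring
  have e2 : (0 : ℝ) ≤ D n x / (2 ^ n * (2 ^ n - 1)) := by positivity
  have e3 : (D n x : ℝ) / (2 ^ n * (2 ^ n - 1)) ≤ 1 / 2 ^ n := by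
    rw [div_le_div_iff₀ (by positivity) hp]
    nlinarith
  have e4 : (D n x : ℝ) / 2 ^ n ≤ rep x := by rw [div_le_iff₀ hp]; linarith
  have e5 : rep x ≤ (D n x : ℝ) / 2 ^ n + 1 / 2 ^ n := by
    rw [← add_div, le_div_iff₀ hp]; linarith
  constructor <;> rw [e1] <;> linarith

lemma YY_close (hn : 1 ≤ n) (hm : 1 ≤ m) (x : X) (s : ℕ) :
    ‖(2 ^ s : ℕ) • YY n m x - (2 ^ (s % n) : ℕ) • x‖ ≤ 2 ^ (s % n) / 2 ^ n + 2 ^ s / (2 ^ m - 1) := by
  have p2 := two_pow_sub_pos hm
  have e : (2 ^ s : ℕ) • YY n m x - (2 ^ (s % n) : ℕ) • x =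
      (2 ^ (s % n) : ℕ) • (xv n (D n x) - x) + (((2 : ℝ) ^ s / (2 ^ m - 1) : ℝ) : X) := by
    have e1 : YY n m x = xv n (D n x) + ((1 / (2 ^ m - 1) : ℝ) : X) := by
      unfold YY yv xv
      rw [AddCircle.coe_add]
    rw [e1, smul_add, xv_pow_mod hn, smul_sub, ← AddCircle.coe_nsmul, nsmul_eq_mul]
    push_cast
    rw [mul_one_div]
    abel
  rw [e]
  refine (norm_add_le _ _).trans (add_le_add ?_ ?_)
  · refine (norm_nsmul_le).trans ?_
    push_cast
    calc (2 : ℝ) ^ (s % n) * ‖xv n (D n x) - x‖ ≤ 2 ^ (s % n) * (1 / 2 ^ n) :=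
          mul_le_mul_of_nonneg_left (xv_close hn x) (by positivity)
      _ = _ := by ring
  · refine (norm_coe_le _).trans ?_
    rw [abs_of_nonneg (by positivity)]

lemma sum_mod (hn : 1 ≤ n) (K : ℕ) : ∑ s ∈ range (n * K), (2 : ℝ) ^ (s % n) ≤ K * 2 ^ n := by
  induction K with
  | zero => simp
  | succ K ih =>
    rw [mul_add, mul_one, sum_range_add]
    have h1 : ∑ t ∈ range n, (2 : ℝ) ^ ((n * K + t) % n) ≤ 2 ^ n := by
      have h2 : ∑ t ∈ range n, (2 : ℝ) ^ ((n * K + t) % n) = ∑ t ∈ range n, (2 : ℝ) ^ t := by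
        apply sum_congr rfl
        intro t ht
        rw [Nat.mul_add_mod, Nat.mod_eq_of_lt (mem_range.1 ht)]
      rw [h2, geom_sum_eq (by norm_num)]
      norm_num
    push_cast
    linarith

lemma nu1_fourier_close (hn : 1 ≤ n) {K : ℕ} (hK : 1 ≤ K) (μ : Measure X) [IsProbabilityMeasure μ]
    (hμ : ∀ j : ℕ, μ.map (fun x : X => (2 ^ j : ℕ) • x) = μ) (k : ℤ) :
    ‖∫ x, (fourier k x : ℂ) ∂(nu1 n (n * K) μ) - ∫ x, (fourier k x : ℂ) ∂μ‖ ≤
      4 * Real.pi * |(k : ℝ)| / n := by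
  have hm : 1 ≤ n * K := Nat.mul_pos hn hK
  set m := n * K with hmdef
  have hm0 : (0 : ℝ) < m := by exact_mod_cast hm
  have hn0 : (0 : ℝ) < n := by exact_mod_cast hn
  rw [integral_nu1]
  have hc : ∀ t : ℕ, ∫ x, (fourier k ((2 ^ t : ℕ) • x) : ℂ) ∂μ = ∫ x, (fourier k x : ℂ) ∂μ := by
    intro t
    conv_rhs => rw [← hμ t]
    rw [integral_map (by fun_prop) (fourier k).continuous.aestronglyMeasurable]
  have e : (m : ℝ)⁻¹ • ∑ s ∈ range m, ∫ x, (fourier k ((2 ^ s : ℕ) • YY n m x) : ℂ) ∂μ -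
      ∫ x, (fourier k x : ℂ) ∂μ = (m : ℝ)⁻¹ • ∑ s ∈ range m,
        (∫ x, (fourier k ((2 ^ s : ℕ) • YY n m x) : ℂ) ∂μ -
          ∫ x, (fourier k ((2 ^ (s % n) : ℕ) • x) : ℂ) ∂μ) := by
    rw [sum_sub_distrib, smul_sub]
    congr 1
    rw [sum_congr rfl (fun s _ => hc (s % n)), sum_const, card_range]
    rw [← Nat.cast_smul_eq_nsmul ℝ, smul_smul, inv_mul_cancel₀ hm0.ne', one_smul]
  rw [e, norm_smul, norm_inv, Real.norm_of_nonneg hm0.le]
  have hterm : ∀ s ∈ range m, ‖∫ x, (fourier k ((2 ^ s : ℕ) • YY n m x) : ℂ) ∂μ -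
          ∫ x, (fourier k ((2 ^ (s % n) : ℕ) • x) : ℂ) ∂μ‖ ≤
          2 * Real.pi * |(k : ℝ)| * (2 ^ (s % n) / 2 ^ n + 2 ^ s / (2 ^ m - 1)) := by
    intro s _
    have i1 : Integrable (fun x => (fourier k ((2 ^ s : ℕ) • YY n m x) : ℂ)) μ := by
      apply Integrable.of_bound (C := 1)
      · exact ((fourier k).continuous.measurable.comp
          (measurable_pow_smul_YY n m s)).aestronglyMeasurable
      · exact Eventually.of_forall fun x => (fourier_norm k _).le
    have i2 : Integrable (fun x => (fourier k ((2 ^ (s % n) : ℕ) • x) : ℂ)) μ := by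
      apply Integrable.of_bound (C := 1)
      · exact ((fourier k).continuous.comp (by fun_prop)).aestronglyMeasurable
      · exact Eventually.of_forall fun x => (fourier_norm k _).le
    rw [← integral_sub i1 i2]
    have hb := norm_integral_le_of_norm_le_const (μ := μ)
      (f := fun x => (fourier k ((2 ^ s : ℕ) • YY n m x) : ℂ) - fourier k ((2 ^ (s % n) : ℕ) • x))
      (C := 2 * Real.pi * |(k : ℝ)| * (2 ^ (s % n) / 2 ^ n + 2 ^ s / (2 ^ m - 1)))
      (Eventually.of_forall fun x => (fourier_lip k _ _).trans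
        (mul_le_mul_of_nonneg_left (YY_close hn hm x s) (by positivity)))
    simpa using hb
  have hsum := (norm_sum_le (range m) _).trans (sum_le_sum hterm)
  have h1 : ∑ s ∈ range m, (2 * Real.pi * |(k : ℝ)| * (2 ^ (s % n) / 2 ^ n + 2 ^ s / (2 ^ m - 1))) ≤
      2 * Real.pi * |(k : ℝ)| * (2 * K) := by
    rw [← mul_sum]
    apply mul_le_mul_of_nonneg_left _ (by positivity)
    rw [sum_add_distrib, ← sum_div, ← sum_div]
    have p2 := two_pow_sub_pos hm
    have h2 : (∑ s ∈ range m, (2 : ℝ) ^ (s % n)) / 2 ^ n ≤ K := by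
      rw [div_le_iff₀ (by positivity)]
      exact sum_mod hn K
    have h3 : (∑ s ∈ range m, (2 : ℝ) ^ s) / (2 ^ m - 1) = 1 := by
      rw [geom_sum_eq (by norm_num)]
      have : (2 : ℝ) - 1 = 1 := by norm_num
      rw [this, div_one, div_self p2.ne']
    have h4 : (1 : ℝ) ≤ K := by exact_mod_cast hK
    rw [h3]
    linarith
  calc (m : ℝ)⁻¹ * ‖∑ s ∈ range m, (∫ x, (fourier k ((2 ^ s : ℕ) • YY n m x) : ℂ) ∂μ -
          ∫ x, (fourier k ((2 ^ (s % n) : ℕ) • x) : ℂ) ∂μ)‖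
      ≤ (m : ℝ)⁻¹ * (2 * Real.pi * |(k : ℝ)| * (2 * K)) :=
        mul_le_mul_of_nonneg_left (hsum.trans h1) (by positivity)
    _ = 4 * Real.pi * |(k : ℝ)| / n := by
      have hK0 : (K : ℝ) ≠ 0 := by
        have : (0 : ℝ) < K := by exact_mod_cast hK
        exact this.ne'
      rw [hmdef]
      push_cast
      field_simp
      ring

end Pool.Agent.H769R3
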