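import Mathlib

set_option autoImplicit false

open Finset

namespace Pool.Agent.H769R3

/-! Binary prefixes of points of the circle and their counting. -/

/-- The circle. -/
abbrev X := UnitAddCircle

/-- The representative in `[0,1)`. -/
noncomputable def rep (x : X) : ℝ := (AddCircle.equivIco (1 : ℝ) 0 x : Set.Ico (0 : ℝ) (0 + 1))

lemma rep_nonneg (x : X) : 0 ≤ rep x := (AddCircle.equivIco (1 : ℝ) 0 x).2.1

lemma rep_lt_one (x : X) : rep x < 1 := by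
  have := (AddCircle.equivIco (1 : ℝ) 0 x).2.2
  simpa [rep] using this

lemma coe_rep (x : X) : ((rep x : ℝ) : X) = x := by
  unfold rep
  exact AddCircle.coe_equivIco

lemma rep_coe (ξ : ℝ) : rep (ξ : X) = Int.fract ξ := by
  unfold rep
  have := AddCircle.coe_equivIco_mk_apply (p := (1 : ℝ)) ξ
  simpa using this

lemma measurable_rep : Measurable rep :=
  measurable_subtype_coe.comp (AddCircle.measurableEquivIco (1 : ℝ) 0).measurable

lemma rep_pow_smul (ℓ : ℕ) (x : X) : rep ((2 ^ ℓ : ℕ) • x) = Int.fract (2 ^ ℓ * rep x) := by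
  conv_lhs => rw [← coe_rep x]
  rw [← AddCircle.coe_nsmul, rep_coe, nsmul_eq_mul]
  push_cast
  rfl

/-- The integer formed by the first `R` binary digits. -/
noncomputable def D (R : ℕ) (x : X) : ℕ := ⌊(2 : ℝ) ^ R * rep x⌋₊

lemma D_lt (R : ℕ) (x : X) : D R x < 2 ^ R := by
  unfold D
  rw [Nat.floor_lt (mul_nonneg (by positivity) (rep_nonneg x))]
  push_cast
  have := rep_lt_one x
  have h : (0 : ℝ) < 2 ^ R := by positivity
  nlinarith

lemma D_add (ℓ R : ℕ) (x : X) : D (ℓ + R) x = D ℓ x * 2 ^ R + D R ((2 ^ ℓ : ℕ) • x) := by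
  unfold D
  rw [rep_pow_smul]
  have h0 : 0 ≤ (2 : ℝ) ^ ℓ * rep x := mul_nonneg (by positivity) (rep_nonneg x)
  have h1 : (2 : ℝ) ^ (ℓ + R) * rep x =
      ((⌊(2 : ℝ) ^ ℓ * rep x⌋₊ * 2 ^ R : ℕ) : ℝ) + 2 ^ R * Int.fract (2 ^ ℓ * rep x) := by
    have h2 : (2 : ℝ) ^ ℓ * rep x = ⌊(2 : ℝ) ^ ℓ * rep x⌋₊ + Int.fract (2 ^ ℓ * rep x) := by
      have h3 := Int.floor_add_fract ((2 : ℝ) ^ ℓ * rep x)
      have h4 : ((⌊(2 : ℝ) ^ ℓ * rep x⌋₊ : ℕ) : ℝ) = ((⌊(2 : ℝ) ^ ℓ * rep x⌋ : ℤ) : ℝ) := by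
        rw [natCast_floor_eq_intCast_floor h0]
      rw [h4]
      exact h3.symm
    calc (2 : ℝ) ^ (ℓ + R) * rep x = (2 ^ ℓ * rep x) * 2 ^ R := by ring
      _ = (⌊(2 : ℝ) ^ ℓ * rep x⌋₊ + Int.fract (2 ^ ℓ * rep x)) * 2 ^ R := by rw [← h2]
      _ = _ := by push_cast; ring
  rw [h1, add_comm, Nat.floor_add_natCast (mul_nonneg (by positivity) (Int.fract_nonneg _)), add_comm]

open Classical in
/-- Number of binary prefixes of length `R` of points of `A`. -/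
noncomputable def cnt (R : ℕ) (A : Set X) : ℕ :=
  ((range (2 ^ R)).filter (fun s => ∃ x ∈ A, D R x = s)).card

lemma cnt_mono (R : ℕ) {A B : Set X} (h : A ⊆ B) : cnt R A ≤ cnt R B := by
  classical
  unfold cnt
  apply card_le_card
  intro s hs
  rw [mem_filter] at hs ⊢
  obtain ⟨h1, x, hx, h2⟩ := hs
  exact ⟨h1, x, h hx, h2⟩

lemma cnt_union (R : ℕ) (A B : Set X) : cnt R (A ∪ B) ≤ cnt R A + cnt R B := by
  classical
  unfold cnt
  refine le_trans (card_le_card ?_) (card_union_le _ _)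
  intro s hs
  rw [mem_filter] at hs
  rw [mem_union, mem_filter, mem_filter]
  obtain ⟨h1, x, hx, h2⟩ := hs
  rcases hx with hx | hx
  · exact Or.inl ⟨h1, x, hx, h2⟩
  · exact Or.inr ⟨h1, x, hx, h2⟩

lemma cnt_biUnion (R : ℕ) {ι : Type*} (s : Finset ι) (B : ι → Set X) :
    cnt R (⋃ i ∈ s, B i) ≤ ∑ i ∈ s, cnt R (B i) := by
  classical
  unfold cnt
  refine le_trans (card_le_card ?_) card_biUnion_le
  intro t ht
  rw [mem_filter] at ht
  rw [mem_biUnion]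
  obtain ⟨h1, x, hx, h2⟩ := ht
  simp only [Set.mem_iUnion] at hx
  obtain ⟨i, hi, hx⟩ := hx
  exact ⟨i, hi, mem_filter.2 ⟨h1, x, hx, h2⟩⟩

lemma cnt_mul (ℓ R : ℕ) {A A' : Set X} (h : ∀ x ∈ A, (2 ^ ℓ : ℕ) • x ∈ A') :
    cnt (ℓ + R) A ≤ cnt ℓ A * cnt R A' := by
  classical
  unfold cnt
  rw [← card_product]
  apply card_le_card_of_surjOn (fun p : ℕ × ℕ => p.1 * 2 ^ R + p.2)
  intro s hs
  rw [mem_coe, mem_filter] at hs
  obtain ⟨h1, x, hx, h2⟩ := hs
  refine ⟨(D ℓ x, D R ((2 ^ ℓ : ℕ) • x)), ?_, ?_⟩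
  · rw [mem_coe, mem_product, mem_filter, mem_filter, mem_range, mem_range]
    exact ⟨⟨D_lt _ _, x, hx, rfl⟩, D_lt _ _, _, h x hx, rfl⟩
  · simp only
    rw [← D_add, h2]

lemma cnt_le_pow (R : ℕ) (A : Set X) : cnt R A ≤ 2 ^ R := by
  classical
  unfold cnt
  refine (card_filter_le _ _).trans ?_
  rw [card_range]

open Classical in
/-- Number of times before `R` at which the orbit is outside `U`. -/
noncomputable def bad (U : Set X) (R : ℕ) (x : X) : ℕ :=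
  ((range R).filter (fun j => (2 ^ j : ℕ) • x ∉ U)).card

/-- Points whose orbit stays in `U` until time `ℓ`. -/
def Run (U : Set X) (ℓ : ℕ) : Set X := {x | ∀ i < ℓ, (2 ^ i : ℕ) • x ∈ U}

lemma bad_zero_subset (U : Set X) (R : ℕ) : {x | bad U R x ≤ 0} ⊆ Run U R := by
  classical
  intro x hx i hi
  by_contra h
  have h1 : 0 < bad U R x := by
    unfold bad
    rw [card_pos]
    exact ⟨i, mem_filter.2 ⟨mem_range.2 hi, h⟩⟩
  have h2 : bad U R x ≤ 0 := hx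
  omega

lemma bad_succ_subset (U : Set X) (R B : ℕ) : {x | bad U R x ≤ B + 1} ⊆ Run U R ∪
    ⋃ ℓ ∈ range R, {x | x ∈ Run U ℓ ∧ bad U (R - 1 - ℓ) ((2 ^ (ℓ + 1) : ℕ) • x) ≤ B} := by
  classical
  intro x hx
  by_cases h : x ∈ Run U R
  · exact Or.inl h
  · right
    have h1 : ∃ i, i < R ∧ (2 ^ i : ℕ) • x ∉ U := by
      by_contra hcon
      push Not at hcon
      exact h hcon
    have hl := Nat.find_spec h1
    set ℓ := Nat.find h1 with hℓ
    simp only [Set.mem_iUnion]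
    refine ⟨ℓ, mem_range.2 hl.1, ?_, ?_⟩
    · intro i hi
      by_contra hcon
      exact Nat.find_min h1 hi ⟨hi.trans hl.1, hcon⟩
    · have hx' : bad U R x ≤ B + 1 := hx
      have key : bad U (R - 1 - ℓ) ((2 ^ (ℓ + 1) : ℕ) • x) + 1 ≤ bad U R x := by
        unfold bad
        have e : (((range (R - 1 - ℓ)).filter
            (fun j => (2 ^ j : ℕ) • ((2 ^ (ℓ + 1) : ℕ) • x) ∉ U)).image (fun j => ℓ + 1 + j)).card =
            ((range (R - 1 - ℓ)).filter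
            (fun j => (2 ^ j : ℕ) • ((2 ^ (ℓ + 1) : ℕ) • x) ∉ U)).card := by
          apply card_image_of_injective
          intro a b hab
          simpa using hab
        rw [← e]
        have hnot : ℓ ∉ (((range (R - 1 - ℓ)).filter
            (fun j => (2 ^ j : ℕ) • ((2 ^ (ℓ + 1) : ℕ) • x) ∉ U)).image (fun j => ℓ + 1 + j)) := by
          intro hmem
          rw [mem_image] at hmem
          obtain ⟨a, _, ha⟩ := hmem
          omega
        rw [← card_insert_of_notMem hnot]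
        apply card_le_card
        intro j hj
        rw [mem_insert] at hj
        rw [mem_filter, mem_range]
        rcases hj with hj | hj
        · rw [hj]; exact hl
        · rw [mem_image] at hj
          obtain ⟨a, ha, hja⟩ := hj
          rw [mem_filter, mem_range] at ha
          refine ⟨by omega, ?_⟩
          rw [← hja]
          have : (2 ^ (ℓ + 1 + a) : ℕ) • x = (2 ^ a : ℕ) • ((2 ^ (ℓ + 1) : ℕ) • x) := by
            rw [← mul_smul]
            congr 1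
            ring
          rw [this]
          exact ha.2
      change bad U (R - 1 - ℓ) ((2 ^ (ℓ + 1) : ℕ) • x) ≤ B
      omega

lemma cnt_recurrence (U : Set X) (R B : ℕ) :
    cnt R {x | bad U R x ≤ B + 1} ≤ cnt R (Run U R) +
      ∑ ℓ ∈ range R, cnt ℓ (Run U ℓ) * (2 * cnt (R - 1 - ℓ) {x | bad U (R - 1 - ℓ) x ≤ B}) := by
  refine (cnt_mono R (bad_succ_subset U R B)).trans ((cnt_union _ _ _).trans ?_)
  refine add_le_add le_rfl ((cnt_biUnion _ _ _).trans (sum_le_sum ?_))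
  intro ℓ hℓ
  rw [mem_range] at hℓ
  have hR : R = ℓ + (1 + (R - 1 - ℓ)) := by omega
  set A : Set X := {x | x ∈ Run U ℓ ∧ bad U (R - 1 - ℓ) ((2 ^ (ℓ + 1) : ℕ) • x) ≤ B} with hA
  set A' : Set X := {x | bad U (R - 1 - ℓ) ((2 ^ 1 : ℕ) • x) ≤ B} with hA'
  have h1 : cnt (ℓ + (1 + (R - 1 - ℓ))) A ≤ cnt ℓ A * cnt (1 + (R - 1 - ℓ)) A' := by
    apply cnt_mul
    intro x hx
    have hx2 := hx.2
    change bad U (R - 1 - ℓ) ((2 ^ 1 : ℕ) • ((2 ^ ℓ : ℕ) • x)) ≤ B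
    have : (2 ^ 1 : ℕ) • ((2 ^ ℓ : ℕ) • x) = (2 ^ (ℓ + 1) : ℕ) • x := by
      rw [← mul_smul]
      congr 1
      ring
    rw [this]
    exact hx2
  have h2 : cnt (1 + (R - 1 - ℓ)) A' ≤ cnt 1 A' * cnt (R - 1 - ℓ) {x | bad U (R - 1 - ℓ) x ≤ B} := by
    apply cnt_mul
    intro x hx
    exact hx
  have h3 : cnt 1 A' ≤ 2 := by simpa using cnt_le_pow 1 A'
  have h4 : cnt ℓ A ≤ cnt ℓ (Run U ℓ) := cnt_mono _ (fun x hx => hx.1)
  conv_lhs => rw [hR]
  refine h1.trans (Nat.mul_le_mul h4 (h2.trans ?_))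
  exact Nat.mul_le_mul_right _ h3

lemma numeric (A lam : ℝ) (hA : 0 ≤ A) (hlam : 1 < lam) : ∃ C T : ℝ, 1 ≤ C ∧ 1 ≤ T ∧
    ∀ (p : ℕ → ℝ) (N : ℕ → ℕ → ℝ), (∀ ℓ, p ℓ ≤ A * (ℓ + 1)) → (∀ ℓ, 0 ≤ p ℓ) →
      (∀ R, N R 0 ≤ p R) →
      (∀ R B, N R (B + 1) ≤ p R + ∑ ℓ ∈ range R, p ℓ * (2 * N (R - 1 - ℓ) B)) →
      ∀ R B, N R B ≤ C * lam ^ R * T ^ B := by
  have hl0 : 0 < lam := by linarith
  have hinv : ‖(lam⁻¹ : ℝ)‖ < 1 := by
    rw [Real.norm_of_nonneg (by positivity)]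
    exact inv_lt_one_of_one_lt₀ hlam
  -- summability
  have hs1 : Summable (fun n : ℕ => (n : ℝ) ^ 1 * lam⁻¹ ^ n) :=
    summable_pow_mul_geometric_of_norm_lt_one 1 hinv
  have hs : Summable (fun n : ℕ => ((n + 1 : ℕ) : ℝ) ^ 1 * lam⁻¹ ^ (n + 1)) :=
    (summable_nat_add_iff 1).2 hs1
  set S := ∑' n : ℕ, ((n + 1 : ℕ) : ℝ) ^ 1 * lam⁻¹ ^ (n + 1) with hS
  have hSle : ∀ R : ℕ, ∑ ℓ ∈ range R, ((ℓ : ℝ) + 1) * lam⁻¹ ^ (ℓ + 1) ≤ S := by
    intro R
    have := hs.sum_le_tsum (range R) (fun i _ => by positivity)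
    refine le_trans (le_of_eq ?_) this
    apply sum_congr rfl
    intro i _
    push_cast
    ring
  have hS0 : 0 ≤ S := by
    have := hSle 0
    simpa using this
  have hterm : ∀ R : ℕ, ((R : ℝ) + 1) ≤ (S * lam) * lam ^ R := by
    intro R
    have h1 := hs.le_tsum R (fun j _ => by positivity)
    have h2 : ((R : ℝ) + 1) * lam⁻¹ ^ (R + 1) ≤ S := by
      refine le_trans (le_of_eq ?_) h1
      push_cast
      ring
    have h3 : ((R : ℝ) + 1) = ((R : ℝ) + 1) * lam⁻¹ ^ (R + 1) * lam ^ (R + 1) := by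
      rw [mul_assoc, ← mul_pow, inv_mul_cancel₀ hl0.ne', one_pow, mul_one]
    rw [h3]
    calc ((R : ℝ) + 1) * lam⁻¹ ^ (R + 1) * lam ^ (R + 1) ≤ S * lam ^ (R + 1) :=
          mul_le_mul_of_nonneg_right h2 (by positivity)
      _ = _ := by ring
  refine ⟨2 * A * (S * lam) + 1, 4 * A * S + 1, by nlinarith [mul_nonneg hA (mul_nonneg hS0 hl0.le)],
    by nlinarith [mul_nonneg hA hS0], ?_⟩
  intro p N hp hp0 hN0 hN
  set C := 2 * A * (S * lam) + 1 with hC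
  set T := 4 * A * S + 1 with hT
  have hC1 : 1 ≤ C := by nlinarith [mul_nonneg hA (mul_nonneg hS0 hl0.le)]
  have hT1 : 1 ≤ T := by nlinarith [mul_nonneg hA hS0]
  have hpR : ∀ R : ℕ, p R ≤ C / 2 * lam ^ R := by
    intro R
    refine (hp R).trans ?_
    have h1 := mul_le_mul_of_nonneg_left (hterm R) hA
    have h2 : (0 : ℝ) ≤ lam ^ R := by positivity
    calc A * ((R : ℝ) + 1) ≤ A * (S * lam * lam ^ R) := h1
      _ = (2 * A * (S * lam)) / 2 * lam ^ R := by ring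
      _ ≤ C / 2 * lam ^ R := by
        apply mul_le_mul_of_nonneg_right _ h2
        linarith
  intro R B
  induction B generalizing R with
  | zero =>
    refine (hN0 R).trans ((hpR R).trans ?_)
    rw [pow_zero, mul_one]
    apply mul_le_mul_of_nonneg_right _ (by positivity)
    linarith
  | succ B ih =>
    refine (hN R B).trans ?_
    have h1 : ∑ ℓ ∈ range R, p ℓ * (2 * N (R - 1 - ℓ) B) ≤
        ∑ ℓ ∈ range R, (2 * A * C * T ^ B * lam ^ R) * (((ℓ : ℝ) + 1) * lam⁻¹ ^ (ℓ + 1)) := by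
      apply sum_le_sum
      intro ℓ hℓ
      rw [mem_range] at hℓ
      have h2 := ih (R - 1 - ℓ)
      have h3 : lam ^ R * lam⁻¹ ^ (ℓ + 1) = lam ^ (R - 1 - ℓ) := by
        have hR : R = (R - 1 - ℓ) + (ℓ + 1) := by omega
        conv_lhs => rw [hR, pow_add]
        rw [mul_assoc, ← mul_pow, mul_inv_cancel₀ hl0.ne', one_pow, mul_one]
      have h4 : (0 : ℝ) ≤ C * lam ^ (R - 1 - ℓ) * T ^ B := by positivity
      calc p ℓ * (2 * N (R - 1 - ℓ) B) ≤ p ℓ * (2 * (C * lam ^ (R - 1 - ℓ) * T ^ B)) :=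
            mul_le_mul_of_nonneg_left (by linarith) (hp0 ℓ)
        _ ≤ (A * (ℓ + 1)) * (2 * (C * lam ^ (R - 1 - ℓ) * T ^ B)) :=
            mul_le_mul_of_nonneg_right (hp ℓ) (by positivity)
        _ = _ := by rw [← h3]; ring
    rw [← mul_sum] at h1
    have h5 : (2 * A * C * T ^ B * lam ^ R) * ∑ ℓ ∈ range R, (((ℓ : ℝ) + 1) * lam⁻¹ ^ (ℓ + 1)) ≤
        (2 * A * C * T ^ B * lam ^ R) * S :=
      mul_le_mul_of_nonneg_left (hSle R) (by positivity)
    have h6 := hpR R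
    have h7 : (1 : ℝ) ≤ T ^ (B + 1) := one_le_pow₀ hT1
    have h8 : (0 : ℝ) ≤ C / 2 * lam ^ R := by positivity
    calc p R + ∑ ℓ ∈ range R, p ℓ * (2 * N (R - 1 - ℓ) B)
        ≤ C / 2 * lam ^ R + (2 * A * C * T ^ B * lam ^ R) * S := add_le_add h6 (h1.trans h5)
      _ = C / 2 * lam ^ R + (C / 2 * lam ^ R) * T ^ B * (4 * A * S) := by ring
      _ ≤ (C / 2 * lam ^ R) * T ^ (B + 1) + (C / 2 * lam ^ R) * T ^ B * T := by
        apply add_le_add
        · exact le_mul_of_one_le_right h8 h7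
        · apply mul_le_mul_of_nonneg_left _ (by positivity)
          linarith
      _ = C * lam ^ R * T ^ (B + 1) := by ring

end Pool.Agent.H769R3
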