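import Pool.Agent.H769R3.Key

set_option autoImplicit false

open Finset MeasureTheory Filter Topology

namespace Pool.Agent.H769R3

instance compact_P2 : CompactSpace P2 := by
  have hcont : Continuous (fun x : UnitAddCircle => (2 : ℕ) • x) := by fun_prop
  have hclosed : IsClosed {ν : ProbabilityMeasure UnitAddCircle |
      (ν : Measure UnitAddCircle).map (fun x : UnitAddCircle => (2 : ℕ) • x)
        = (ν : Measure UnitAddCircle)} := by
    have e : {ν : ProbabilityMeasure UnitAddCircle |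
      (ν : Measure UnitAddCircle).map (fun x : UnitAddCircle => (2 : ℕ) • x)
        = (ν : Measure UnitAddCircle)} =
        {ν : ProbabilityMeasure UnitAddCircle |
          ProbabilityMeasure.map ν hcont.measurable.aemeasurable = ν} := by
      ext ν
      constructor
      · intro h
        exact Subtype.ext h
      · intro h
        have h' : ProbabilityMeasure.map ν hcont.measurable.aemeasurable = ν := h
        exact congrArg (fun ρ : ProbabilityMeasure UnitAddCircle => (ρ : Measure UnitAddCircle)) h'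
    rw [e]
    exact isClosed_eq (ProbabilityMeasure.continuous_map hcont) continuous_id
  exact isCompact_iff_compactSpace.1 hclosed.isCompact

instance secondCountable_P2 : SecondCountableTopology P2 := by
  have h : TopologicalSpace.MetrizableSpace P2 :=
    Topology.IsEmbedding.subtypeVal.metrizableSpace
  let m : MetricSpace P2 := TopologicalSpace.metrizableSpaceMetric P2
  infer_instance

instance baire_P2 : BaireSpace P2 := inferInstance

instance nonempty_P2 : Nonempty P2 := by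
  refine ⟨⟨⟨Measure.dirac 0, inferInstance⟩, ?_⟩⟩
  change (Measure.dirac (0 : UnitAddCircle)).map (fun x : UnitAddCircle => (2 : ℕ) • x) =
    Measure.dirac 0
  rw [Measure.map_dirac' (by fun_prop), smul_zero]

lemma integral_fourier_volume {k : ℤ} (hk : k ≠ 0) :
    ∫ x : UnitAddCircle, (fourier k x : ℂ) = 0 :=
  integral_eq_zero_of_add_right_eq_neg (μ := (volume : Measure UnitAddCircle))
    (fourier_add_half_inv_index hk one_pos)

/-- Frequencies and tolerances attached to an index. -/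
def ix (j : ℕ) : ℕ × ℕ × ℕ := (j.unpair.1, j.unpair.2.unpair.1, j.unpair.2.unpair.2)

lemma ix_pair (l k m : ℕ) : ix (Nat.pair l (Nat.pair k m)) = (l, k, m) := by
  simp [ix]

open Classical in
/-- The construction of the sequence. -/
lemma exists_sequence : ∃ (φ : ℕ → ℕ) (R : Set P2), StrictMono φ ∧ R ∈ residual P2 ∧
    ∀ μ ∈ R, ∀ k m : ℕ, ∀ᶠ n in atTop,
      ‖∫ x, (fourier (((k + 1) * φ n : ℕ) : ℤ) x : ℂ) ∂(toM μ)‖ ≤ 1 / (m + 1) := by
  obtain ⟨b, hbc, hbe, hb⟩ := TopologicalSpace.exists_countable_basis P2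
  have hbne : b.Nonempty := by
    rw [Set.nonempty_iff_ne_empty]
    intro h
    have h1 := hb.sUnion_eq
    rw [h, Set.sUnion_empty] at h1
    exact absurd h1.symm Set.univ_nonempty.ne_empty
  obtain ⟨v, hv⟩ := hbc.exists_eq_range hbne
  have hvo : ∀ l, IsOpen (v l) := fun l => hb.isOpen (by rw [hv]; exact ⟨l, rfl⟩)
  have hvn : ∀ l, (v l).Nonempty := by
    intro l
    rw [Set.nonempty_iff_ne_empty]
    intro h
    apply hbe
    rw [← h, hv]
    exact ⟨l, rfl⟩
  -- apply the key lemma for each index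
  have hkey : ∀ j : ℕ, ∃ W : Set P2, IsOpen W ∧ W.Nonempty ∧ W ⊆ v (ix j).1 ∧ ∃ N₀ : ℕ, ∀ N ≥ N₀,
      (((range N).filter (fun h : ℕ => ∃ μ ∈ W,
        1 / (((ix j).2.2 : ℝ) + 1) < ‖∫ x, (fourier (h : ℤ) x : ℂ) ∂(toM μ)‖)).card : ℝ) ≤
        ((1 / 2) ^ (j + 2) / ((ix j).2.1 + 1)) * N := by
    intro j
    exact key _ (hvo _) (hvn _) (by positivity) (by positivity)
  choose W hWo hWn hWv N₀ hN₀ using hkey
  -- the exceptional sets
  set P : ℕ → ℕ → Prop := fun n c => ∀ j ≤ n, ∀ μ ∈ W j,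
    ‖∫ x, (fourier ((((ix j).2.1 + 1) * c : ℕ) : ℤ) x : ℂ) ∂(toM μ)‖ ≤ 1 / (((ix j).2.2 : ℝ) + 1) with hP
  have hE : ∀ j N : ℕ, N₀ j ≤ N → (((range N).filter (fun c : ℕ => ∃ μ ∈ W j,
      1 / (((ix j).2.2 : ℝ) + 1) <
        ‖∫ x, (fourier ((((ix j).2.1 + 1) * c : ℕ) : ℤ) x : ℂ) ∂(toM μ)‖)).card : ℝ) ≤
      (1 / 2) ^ (j + 2) * N := by
    intro j N hN
    have h1 := hN₀ j (((ix j).2.1 + 1) * N) (by nlinarith)
    have h2 : ((range N).filter (fun c : ℕ => ∃ μ ∈ W j,
      1 / (((ix j).2.2 : ℝ) + 1) <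
        ‖∫ x, (fourier ((((ix j).2.1 + 1) * c : ℕ) : ℤ) x : ℂ) ∂(toM μ)‖)).card ≤
        ((range (((ix j).2.1 + 1) * N)).filter (fun h : ℕ => ∃ μ ∈ W j,
        1 / (((ix j).2.2 : ℝ) + 1) < ‖∫ x, (fourier (h : ℤ) x : ℂ) ∂(toM μ)‖)).card := by
      apply card_le_card_of_injOn (fun c => ((ix j).2.1 + 1) * c)
      · intro c hc
        rw [mem_coe, mem_filter, mem_range] at hc ⊢
        exact ⟨Nat.mul_lt_mul_of_pos_left hc.1 (Nat.succ_pos _), hc.2⟩
      · intro c _ c' _ h
        exact Nat.eq_of_mul_eq_mul_left (Nat.succ_pos _) h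
    have h3 : (((range N).filter (fun c : ℕ => ∃ μ ∈ W j,
      1 / (((ix j).2.2 : ℝ) + 1) <
        ‖∫ x, (fourier ((((ix j).2.1 + 1) * c : ℕ) : ℤ) x : ℂ) ∂(toM μ)‖)).card : ℝ) ≤
        (((range (((ix j).2.1 + 1) * N)).filter (fun h : ℕ => ∃ μ ∈ W j,
        1 / (((ix j).2.2 : ℝ) + 1) < ‖∫ x, (fourier (h : ℤ) x : ℂ) ∂(toM μ)‖)).card : ℝ) := by
      exact_mod_cast h2
    refine h3.trans (h1.trans (le_of_eq ?_))
    push_cast
    field_simp
  have hfreq : ∀ n, ∃ᶠ c in atTop, P n c := by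
    intro n
    rw [frequently_atTop]
    intro a
    by_contra hcon
    push Not at hcon
    set N := 4 * a + 4 + ∑ j ∈ range (n + 1), N₀ j with hN
    have hNj : ∀ j ∈ range (n + 1), N₀ j ≤ N := by
      intro j hj
      have := single_le_sum (f := N₀) (fun i _ => Nat.zero_le _) hj
      omega
    have hsub : Finset.Ico a N ⊆ (range (n + 1)).biUnion (fun j => (range N).filter
        (fun c : ℕ => ∃ μ ∈ W j, 1 / (((ix j).2.2 : ℝ) + 1) <
        ‖∫ x, (fourier ((((ix j).2.1 + 1) * c : ℕ) : ℤ) x : ℂ) ∂(toM μ)‖)) := by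
      intro c hc
      rw [mem_Ico] at hc
      have h1 := hcon c hc.1
      simp only [hP] at h1
      push Not at h1
      obtain ⟨j, hj, μ, hμ, h2⟩ := h1
      rw [mem_biUnion]
      exact ⟨j, mem_range.2 (by omega), mem_filter.2 ⟨mem_range.2 hc.2, μ, hμ, h2⟩⟩
    have h1 : ((Finset.Ico a N).card : ℝ) ≤ ∑ j ∈ range (n + 1), (1 / 2 : ℝ) ^ (j + 2) * N := by
      have h2 := (card_le_card hsub).trans card_biUnion_le
      have h3 : ((Finset.Ico a N).card : ℝ) ≤ ∑ j ∈ range (n + 1), (((range N).filter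
        (fun c : ℕ => ∃ μ ∈ W j, 1 / (((ix j).2.2 : ℝ) + 1) <
        ‖∫ x, (fourier ((((ix j).2.1 + 1) * c : ℕ) : ℤ) x : ℂ) ∂(toM μ)‖)).card : ℝ) := by
        exact_mod_cast h2
      exact h3.trans (sum_le_sum fun j hj => hE j N (hNj j hj))
    rw [← sum_mul] at h1
    have h4 : ∑ j ∈ range (n + 1), (1 / 2 : ℝ) ^ (j + 2) ≤ 1 / 2 := by
      have h5 : ∑ j ∈ range (n + 1), (1 / 2 : ℝ) ^ (j + 2) =
          (∑ j ∈ range (n + 1), (1 / 2 : ℝ) ^ j) * (1 / 4) := by
        rw [sum_mul]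
        apply sum_congr rfl
        intro j _
        rw [pow_add]
        norm_num
      rw [h5, geom_sum_eq (by norm_num)]
      have h6 : (0 : ℝ) ≤ (1 / 2) ^ (n + 1) := by positivity
      have h7 : ((1 / 2 : ℝ) ^ (n + 1) - 1) / (1 / 2 - 1) = 2 * (1 - (1 / 2) ^ (n + 1)) := by
        field_simp
        ring
      rw [h7]
      linarith
    have hNpos : (0 : ℝ) ≤ N := by positivity
    have h8 := h1.trans (mul_le_mul_of_nonneg_right h4 hNpos)
    rw [Nat.card_Ico, Nat.cast_sub (by omega)] at h8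
    have h9 : (4 : ℝ) * a + 4 ≤ N := by
      have : 4 * a + 4 ≤ N := by omega
      exact_mod_cast this
    have h10 : (0 : ℝ) ≤ a := by positivity
    linarith
  obtain ⟨φ, hφ, hPφ⟩ := extraction_forall_of_frequently hfreq
  refine ⟨φ, ⋂ p : ℕ × ℕ, ⋃ l : ℕ, W (Nat.pair l (Nat.pair p.1 p.2)), hφ, ?_, ?_⟩
  · rw [countable_iInter_mem]
    intro p
    apply residual_of_dense_open
    · exact isOpen_iUnion fun l => hWo _
    · rw [hb.dense_iff]
      intro o ho _
      rw [hv] at ho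
      obtain ⟨l, rfl⟩ := ho
      obtain ⟨μ, hμ⟩ := hWn (Nat.pair l (Nat.pair p.1 p.2))
      refine ⟨μ, ?_, ?_⟩
      · have := hWv _ hμ
        rw [ix_pair] at this
        exact this
      · exact Set.mem_iUnion.2 ⟨l, hμ⟩
  · intro μ hμ k m
    rw [Set.mem_iInter] at hμ
    have h1 := hμ (k, m)
    rw [Set.mem_iUnion] at h1
    obtain ⟨l, hl⟩ := h1
    filter_upwards [eventually_ge_atTop (Nat.pair l (Nat.pair k m))] with n hn
    have h2 := hPφ n (Nat.pair l (Nat.pair k m)) hn μ hl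
    rw [ix_pair] at h2
    exact h2

lemma fourier_int_neg (ρ : Measure X) (k : ℤ) :
    ∫ x, (fourier (-k) x : ℂ) ∂ρ = (starRingEnd ℂ) (∫ x, (fourier k x : ℂ) ∂ρ) := by
  rw [← integral_conj]
  apply integral_congr_ae
  exact Eventually.of_forall fun x => fourier_neg

/-- Along the sequence, dilates of measures of the residual set converge to Lebesgue measure. -/
lemma equidistribution {φ : ℕ → ℕ} {R : Set P2}
    (h : ∀ μ ∈ R, ∀ k m : ℕ, ∀ᶠ n in atTop,
      ‖∫ x, (fourier (((k + 1) * φ n : ℕ) : ℤ) x : ℂ) ∂(toM μ)‖ ≤ 1 / (m + 1))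
    (μ : P2) (hμ : μ ∈ R) (f : C(UnitAddCircle, ℝ)) :
    Tendsto (fun n : ℕ => ∫ x, f (((φ n : ℕ) : ℤ) • x) ∂(μ.1 : Measure UnitAddCircle))
              atTop (𝓝 (∫ x, f x)) := by
  have hpos : ∀ k : ℕ, Tendsto (fun n => ∫ x, (fourier (((k + 1) * φ n : ℕ) : ℤ) x : ℂ) ∂(toM μ))
      atTop (𝓝 0) := by
    intro k
    rw [tendsto_zero_iff_norm_tendsto_zero, Metric.tendsto_nhds]
    intro ε hε
    obtain ⟨m, hm⟩ := exists_nat_one_div_lt hε
    filter_upwards [h μ hμ k m] with n hn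
    rw [Real.dist_eq, sub_zero, abs_of_nonneg (norm_nonneg _)]
    exact lt_of_le_of_lt hn hm
  -- push-forward measures
  set ν : ℕ → Measure X := fun n => (toM μ).map (fun x : X => ((φ n : ℕ) : ℤ) • x) with hν
  have hmeas : ∀ n, Measurable (fun x : X => ((φ n : ℕ) : ℤ) • x) := fun n => by fun_prop
  have hprob : ∀ n, IsProbabilityMeasure (ν n) := fun n =>
    Measure.isProbabilityMeasure_map (hmeas n).aemeasurable
  have hvol : IsProbabilityMeasure (volume : Measure X) := ⟨UnitAddCircle.measure_univ⟩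
  have hfour : ∀ k : ℤ, Tendsto (fun n => ∫ x, (fourier k x : ℂ) ∂(ν n)) atTop
      (𝓝 (∫ x : X, (fourier k x : ℂ))) := by
    intro k
    have hint : ∀ n, ∫ x, (fourier k x : ℂ) ∂(ν n) = ∫ x, (fourier (k * (φ n : ℤ)) x : ℂ) ∂(toM μ) := by
      intro n
      rw [hν]
      simp only
      rw [integral_map (hmeas n).aemeasurable (fourier k).continuous.aestronglyMeasurable]
      apply integral_congr_ae
      refine Eventually.of_forall fun x => ?_
      simp only
      rw [fourier_apply, fourier_apply, mul_smul]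
    simp_rw [hint]
    rcases lt_trichotomy k 0 with hk | hk | hk
    · rw [integral_fourier_volume hk.ne]
      obtain ⟨k', hk'⟩ : ∃ k' : ℕ, k = -((k' + 1 : ℕ) : ℤ) := ⟨(-k).toNat - 1, by omega⟩
      have h1 : ∀ n, ∫ x, (fourier (k * (φ n : ℤ)) x : ℂ) ∂(toM μ) =
          (starRingEnd ℂ) (∫ x, (fourier (((k' + 1) * φ n : ℕ) : ℤ) x : ℂ) ∂(toM μ)) := by
        intro n
        rw [← fourier_int_neg]
        congr 1
        funext x
        congr 2
        rw [hk']
        push_cast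
        ring
      simp_rw [h1]
      have h2 := (Complex.continuous_conj.tendsto 0).comp (hpos k')
      rw [map_zero] at h2
      exact h2
    · rw [hk]
      simp only [zero_mul, fourier_zero]
      simp only [integral_const, measureReal_def, measure_univ]
      exact tendsto_const_nhds
    · rw [integral_fourier_volume hk.ne']
      obtain ⟨k', hk'⟩ : ∃ k' : ℕ, k = ((k' + 1 : ℕ) : ℤ) := ⟨k.toNat - 1, by omega⟩
      have h1 : ∀ n, (k * (φ n : ℤ)) = (((k' + 1) * φ n : ℕ) : ℤ) := by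
        intro n
        rw [hk']
        push_cast
        ring
      simp_rw [h1]
      exact hpos k'
  have hC := tendsto_of_fourier ν (volume : Measure X) hfour
    ⟨fun x => (f x : ℂ), Complex.continuous_ofReal.comp f.continuous⟩
  have hre := (Complex.continuous_re.tendsto _).comp hC
  have e1 : ∀ (ρ : Measure X), (∫ x, ((f x : ℝ) : ℂ) ∂ρ).re = ∫ x, f x ∂ρ := by
    intro ρ
    rw [integral_complex_ofReal, Complex.ofReal_re]
  have e2 : (fun n : ℕ => ∫ x, f (((φ n : ℕ) : ℤ) • x) ∂(μ.1 : Measure UnitAddCircle)) =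
      fun n => (∫ x, ((f x : ℝ) : ℂ) ∂(ν n)).re := by
    funext n
    rw [e1, hν]
    simp only
    rw [integral_map (hmeas n).aemeasurable f.continuous.aestronglyMeasurable]
    rfl
  rw [e2, ← e1 volume]
  exact hre

end Pool.Agent.H769R3
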