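import Pool.Agent.H769R3.RotUE

set_option autoImplicit false

open MeasureTheory Set Filter Topology

namespace Pool.Agent.H769R3

/-- The permutation `(3,1,4,2)`, 0-indexed. -/
def perm4 : Equiv.Perm (Fin 4) where
  toFun := ![2, 0, 3, 1]
  invFun := ![1, 3, 0, 2]
  left_inv := by decide
  right_inv := by decide

/-- Explicit form of the interval exchange with permutation `perm4`. -/
noncomputable def T4 (v : Fin 4 → ℝ) (x : ℝ) : ℝ :=
  x + ((Ico 0 (v 0)).indicator (fun _ => v 1 + v 3) x +
    (Ico (v 0) (v 0 + v 1)).indicator (fun _ => -v 0) x +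
    (Ico (v 0 + v 1) (v 0 + v 1 + v 2)).indicator (fun _ => v 3) x +
    (Ico (v 0 + v 1 + v 2) (v 0 + v 1 + v 2 + v 3)).indicator (fun _ => -(v 0 + v 2)) x)

/-- The map of the frozen statement. -/
noncomputable def Tfrozen (d : ℕ) (π : Equiv.Perm (Fin d)) (v : Fin d → ℝ) : ℝ → ℝ :=
  (fun x : ℝ => x + ∑ j : Fin d,
          (Set.Ico (∑ i ∈ (Finset.univ : Finset (Fin d)).filter (fun i : Fin d => i < j), v i)
             ((∑ i ∈ (Finset.univ : Finset (Fin d)).filter (fun i : Fin d => i < j), v i) + v j)).indicator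
            (fun _ : ℝ => (∑ i ∈ (Finset.univ : Finset (Fin d)).filter (fun i : Fin d => π i < π j), v i) -
                      ∑ i ∈ (Finset.univ : Finset (Fin d)).filter (fun i : Fin d => i < j), v i) x)

lemma Tfrozen_eq (v : Fin 4 → ℝ) : Tfrozen 4 perm4 v = T4 v := by
  have f0 : (Finset.univ : Finset (Fin 4)).filter (fun i : Fin 4 => i < 0) = ∅ := by decide
  have f1 : (Finset.univ : Finset (Fin 4)).filter (fun i : Fin 4 => i < 1) = {0} := by decide
  have f2 : (Finset.univ : Finset (Fin 4)).filter (fun i : Fin 4 => i < 2) = {0, 1} := by decide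
  have f3 : (Finset.univ : Finset (Fin 4)).filter (fun i : Fin 4 => i < 3) = {0, 1, 2} := by decide
  have g0 : (Finset.univ : Finset (Fin 4)).filter (fun i : Fin 4 => perm4 i < perm4 0) = {1, 3} := by
    decide
  have g1 : (Finset.univ : Finset (Fin 4)).filter (fun i : Fin 4 => perm4 i < perm4 1) = ∅ := by
    decide
  have g2 : (Finset.univ : Finset (Fin 4)).filter (fun i : Fin 4 => perm4 i < perm4 2) =
      {0, 1, 3} := by decide
  have g3 : (Finset.univ : Finset (Fin 4)).filter (fun i : Fin 4 => perm4 i < perm4 3) = {1} := by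
    decide
  funext x
  unfold Tfrozen T4
  rw [Fin.sum_univ_four, f0, f1, f2, f3, g0, g1, g2, g3]
  have s0 : ∑ i ∈ (∅ : Finset (Fin 4)), v i = 0 := Finset.sum_empty
  have s1 : ∑ i ∈ ({0} : Finset (Fin 4)), v i = v 0 := Finset.sum_singleton _ _
  have s1' : ∑ i ∈ ({1} : Finset (Fin 4)), v i = v 1 := Finset.sum_singleton _ _
  have s2 : ∑ i ∈ ({0, 1} : Finset (Fin 4)), v i = v 0 + v 1 := by
    rw [Finset.sum_insert (by decide), Finset.sum_singleton]
  have s3 : ∑ i ∈ ({1, 3} : Finset (Fin 4)), v i = v 1 + v 3 := by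
    rw [Finset.sum_insert (by decide), Finset.sum_singleton]
  have s4 : ∑ i ∈ ({0, 1, 2} : Finset (Fin 4)), v i = v 0 + v 1 + v 2 := by
    rw [Finset.sum_insert (by decide), Finset.sum_insert (by decide), Finset.sum_singleton]
    ring
  have s5 : ∑ i ∈ ({0, 1, 3} : Finset (Fin 4)), v i = v 0 + v 1 + v 3 := by
    rw [Finset.sum_insert (by decide), Finset.sum_insert (by decide), Finset.sum_singleton]
    ring
  rw [s0, s1, s1', s2, s3, s4, s5]
  simp only [zero_add, sub_zero, zero_sub]
  have e1 : v 0 + v 1 + v 3 - (v 0 + v 1) = v 3 := by ring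
  have e2 : v 1 - (v 0 + v 1 + v 2) = -(v 0 + v 2) := by ring
  rw [e1, e2]

lemma measurable_T4 (v : Fin 4 → ℝ) : Measurable (T4 v) := by
  unfold T4
  refine measurable_id.add (((Measurable.add ?_ ?_).add ?_).add ?_)
  all_goals exact measurable_const.indicator measurableSet_Ico

/-- The properties of `μ` in the statement. -/
def Inv4 (v : Fin 4 → ℝ) (μ : Measure ℝ) : Prop :=
  IsProbabilityMeasure μ ∧ μ ((Ico (0 : ℝ) (∑ i : Fin 4, v i))ᶜ) = 0 ∧ μ.map (T4 v) = μ

/-- The starting lengths. -/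
noncomputable def a4 (θ : ℝ) : Fin 4 → ℝ := ![1 - θ, 1 - θ, θ, θ]

/-- The direction. -/
noncomputable def b4 : Fin 4 → ℝ := ![1, 0, 0, 1]

lemma a4_zero (θ : ℝ) : a4 θ 0 = 1 - θ := rfl
lemma a4_one (θ : ℝ) : a4 θ 1 = 1 - θ := rfl
lemma a4_two (θ : ℝ) : a4 θ 2 = θ := rfl
lemma a4_three (θ : ℝ) : a4 θ 3 = θ := rfl

section perturbed

variable {θ t : ℝ}

lemma T4_first (h0 : 0 < θ) (h1 : θ < 1) (ht : 0 < t) {x : ℝ} (hx : 0 ≤ x) (hx' : x < 1 - θ + t) :
    T4 (a4 θ + t • b4) x = x + (1 + t) := by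
  have v0 : (a4 θ + t • b4) 0 = 1 - θ + t := by simp [a4, b4]
  have v1 : (a4 θ + t • b4) 1 = 1 - θ := by simp [a4, b4]
  have v2 : (a4 θ + t • b4) 2 = θ := by simp [a4, b4]
  have v3 : (a4 θ + t • b4) 3 = θ + t := by simp [a4, b4]
  unfold T4
  rw [v0, v1, v2, v3]
  rw [indicator_of_mem (by constructor <;> linarith), indicator_of_notMem, indicator_of_notMem,
    indicator_of_notMem]
  · ring
  · intro h; have := h.1; linarith
  · intro h; have := h.1; linarith
  · intro h; have := h.1; linarith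

lemma T4_last (h0 : 0 < θ) (h1 : θ < 1) (ht : 0 < t) {x : ℝ} (hx : 2 - θ + t ≤ x)
    (hx' : x < 2 + 2 * t) :
    T4 (a4 θ + t • b4) x = x - (1 + t) := by
  have v0 : (a4 θ + t • b4) 0 = 1 - θ + t := by simp [a4, b4]
  have v1 : (a4 θ + t • b4) 1 = 1 - θ := by simp [a4, b4]
  have v2 : (a4 θ + t • b4) 2 = θ := by simp [a4, b4]
  have v3 : (a4 θ + t • b4) 3 = θ + t := by simp [a4, b4]
  unfold T4
  rw [v0, v1, v2, v3]
  rw [indicator_of_notMem, indicator_of_notMem, indicator_of_notMem,
    indicator_of_mem (by constructor <;> linarith)]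
  · ring
  · intro h; have := h.2; linarith
  · intro h; have := h.2; linarith
  · intro h; have := h.2; linarith

lemma sum_pert : ∑ i : Fin 4, (a4 θ + t • b4) i = 2 + 2 * t := by
  rw [Fin.sum_univ_four]
  simp [a4, b4]
  ring

/-- The measure carried by the period-two orbit of `x`. -/
noncomputable def orb (x y : ℝ) : Measure ℝ :=
  (2⁻¹ : ENNReal) • (Measure.dirac x + Measure.dirac y)

lemma orb_inv (h0 : 0 < θ) (h1 : θ < 1) (ht : 0 < t) {x : ℝ} (hx : 1 - θ ≤ x)
    (hx' : x < 1 - θ + t) : Inv4 (a4 θ + t • b4) (orb x (x + (1 + t))) := by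
  refine ⟨⟨?_⟩, ?_, ?_⟩
  · simp only [orb, Measure.smul_apply, Measure.add_apply, measure_univ, smul_eq_mul]
    rw [one_add_one_eq_two, ENNReal.inv_mul_cancel (by norm_num) (by norm_num)]
  · rw [sum_pert]
    simp only [orb, Measure.smul_apply, Measure.add_apply, smul_eq_mul]
    rw [Measure.dirac_apply' _ measurableSet_Ico.compl, Measure.dirac_apply' _ measurableSet_Ico.compl]
    rw [indicator_of_notMem, indicator_of_notMem]
    · simp
    · rw [notMem_compl_iff]; constructor <;> linarith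
    · rw [notMem_compl_iff]; constructor <;> linarith
  · unfold orb
    rw [Measure.map_smul, Measure.map_add _ _ (measurable_T4 _), Measure.map_dirac' (measurable_T4 _),
      Measure.map_dirac' (measurable_T4 _), T4_first h0 h1 ht (by linarith) hx',
      T4_last h0 h1 ht (by linarith) (by linarith)]
    rw [add_sub_cancel_right, add_comm]

lemma not_unique_pert (h0 : 0 < θ) (h1 : θ < 1) (ht : 0 < t) :
    ¬ ∃! μ : Measure ℝ, Inv4 (a4 θ + t • b4) μ := by
  intro h
  have e := h.unique (orb_inv h0 h1 ht (x := 1 - θ) le_rfl (by linarith))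
    (orb_inv h0 h1 ht (x := 1 - θ + t / 2) (by linarith) (by linarith))
  have e2 := congrArg (fun μ : Measure ℝ => μ {1 - θ}) e
  simp only [orb, Measure.smul_apply, Measure.add_apply, smul_eq_mul] at e2
  rw [Measure.dirac_apply' _ (measurableSet_singleton _),
    Measure.dirac_apply' _ (measurableSet_singleton _),
    Measure.dirac_apply' _ (measurableSet_singleton _),
    Measure.dirac_apply' _ (measurableSet_singleton _)] at e2
  rw [indicator_of_mem (mem_singleton _), indicator_of_notMem, indicator_of_notMem,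
    indicator_of_notMem] at e2
  · simp at e2
  · rw [mem_singleton_iff]; intro h; linarith
  · rw [mem_singleton_iff]; intro h; linarith
  · rw [mem_singleton_iff]; intro h; linarith

end perturbed

end Pool.Agent.H769R3
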