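import Pool.Agent.H769R3.IETaux

set_option autoImplicit false

open MeasureTheory Set Filter Topology

namespace Pool.Agent.H769R3

section unperturbed

variable {θ : ℝ}

lemma T4a_zero (h0 : 0 < θ) (h1 : θ < 1) {x : ℝ} (hx : x ∈ Ico 0 (1 - θ)) :
    T4 (a4 θ) x = x + 1 := by
  obtain ⟨hx1, hx2⟩ := hx
  unfold T4
  rw [a4_zero, a4_one, a4_two, a4_three]
  rw [indicator_of_mem (by constructor <;> linarith), indicator_of_notMem, indicator_of_notMem,
    indicator_of_notMem]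
  · ring
  · intro h; have := h.1; linarith
  · intro h; have := h.1; linarith
  · intro h; have := h.1; linarith

lemma T4a_one (h0 : 0 < θ) {x : ℝ} (hx : x ∈ Ico (1 - θ) (2 - 2 * θ)) :
    T4 (a4 θ) x = x - (1 - θ) := by
  obtain ⟨hx1, hx2⟩ := hx
  unfold T4
  rw [a4_zero, a4_one, a4_two, a4_three]
  rw [indicator_of_notMem, indicator_of_mem (by constructor <;> linarith), indicator_of_notMem,
    indicator_of_notMem]
  · ring
  · intro h; have := h.1; linarith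
  · intro h; have := h.1; linarith
  · intro h; have := h.2; linarith

lemma T4a_two (h0 : 0 < θ) (h1 : θ < 1) {x : ℝ} (hx : x ∈ Ico (2 - 2 * θ) (2 - θ)) :
    T4 (a4 θ) x = x + θ := by
  obtain ⟨hx1, hx2⟩ := hx
  unfold T4
  rw [a4_zero, a4_one, a4_two, a4_three]
  rw [indicator_of_notMem, indicator_of_notMem, indicator_of_mem (by constructor <;> linarith),
    indicator_of_notMem]
  · ring
  · intro h; have := h.1; linarith
  · intro h; have := h.2; linarith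
  · intro h; have := h.2; linarith

lemma T4a_three (h0 : 0 < θ) (h1 : θ < 1) {x : ℝ} (hx : x ∈ Ico (2 - θ) 2) :
    T4 (a4 θ) x = x - 1 := by
  obtain ⟨hx1, hx2⟩ := hx
  unfold T4
  rw [a4_zero, a4_one, a4_two, a4_three]
  rw [indicator_of_notMem, indicator_of_notMem, indicator_of_notMem,
    indicator_of_mem (by constructor <;> linarith)]
  · ring
  · intro h; have := h.2; linarith
  · intro h; have := h.2; linarith
  · intro h; have := h.2; linarith

lemma sum_a4 : ∑ i : Fin 4, a4 θ i = 2 := by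
  rw [Fin.sum_univ_four]
  simp [a4]
  ring

lemma split_vol {p q r : ℝ} (hpq : p ≤ q) (hqr : q ≤ r) :
    (volume : Measure ℝ).restrict (Ico p r) = volume.restrict (Ico p q) + volume.restrict (Ico q r) := by
  rw [← Ico_union_Ico_eq_Ico hpq hqr, Measure.restrict_union _ measurableSet_Ico]
  rw [Set.disjoint_left]
  intro x hx hx'
  exact absurd hx.2 (not_lt.2 hx'.1)

lemma map_piece (v : Fin 4 → ℝ) {p r c p' r' : ℝ} (h : ∀ x ∈ Ico p r, T4 v x = x + c)
    (hp : p + c = p') (hr : r + c = r') :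
    ((volume : Measure ℝ).restrict (Ico p r)).map (T4 v) = volume.restrict (Ico p' r') := by
  have h1 : ((volume : Measure ℝ).restrict (Ico p r)).map (T4 v) =
      ((volume : Measure ℝ).restrict (Ico p r)).map (fun x => x + c) := by
    apply Measure.map_congr
    filter_upwards [ae_restrict_mem measurableSet_Ico] with x hx using h x hx
  rw [h1]
  have h2 := ((measurePreserving_add_right (volume : Measure ℝ) c).restrict_image_emb
    (measurableEmbedding_addRight c) (Ico p r)).map_eq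
  rw [image_add_const_Ico, hp, hr] at h2
  exact h2

lemma exists_inv (h0 : 0 < θ) (h1 : θ < 1) :
    Inv4 (a4 θ) ((2⁻¹ : ENNReal) • (volume : Measure ℝ).restrict (Ico 0 2)) := by
  refine ⟨⟨?_⟩, ?_, ?_⟩
  · rw [Measure.smul_apply, Measure.restrict_apply MeasurableSet.univ, univ_inter, Real.volume_Ico]
    simp only [sub_zero, smul_eq_mul]
    rw [ENNReal.ofReal_ofNat, ENNReal.inv_mul_cancel (by norm_num) (by norm_num)]
  · rw [sum_a4, Measure.smul_apply, Measure.restrict_apply measurableSet_Ico.compl, compl_inter_self]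
    simp
  · rw [Measure.map_smul]
    congr 1
    have hsplit : (volume : Measure ℝ).restrict (Ico 0 2) =
        volume.restrict (Ico 0 (1 - θ)) + (volume.restrict (Ico (1 - θ) (2 - 2 * θ)) +
          (volume.restrict (Ico (2 - 2 * θ) (2 - θ)) + volume.restrict (Ico (2 - θ) 2))) := by
      rw [split_vol (q := 1 - θ) (by linarith) (by linarith),
        split_vol (p := 1 - θ) (q := 2 - 2 * θ) (by linarith) (by linarith),
        split_vol (p := 2 - 2 * θ) (q := 2 - θ) (by linarith) (by linarith)]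
    have hsplit' : (volume : Measure ℝ).restrict (Ico 0 2) =
        volume.restrict (Ico 0 (1 - θ)) + (volume.restrict (Ico (1 - θ) 1) +
          (volume.restrict (Ico 1 (2 - θ)) + volume.restrict (Ico (2 - θ) 2))) := by
      rw [split_vol (q := 1 - θ) (by linarith) (by linarith),
        split_vol (p := 1 - θ) (q := 1) (by linarith) (by linarith),
        split_vol (p := 1) (q := 2 - θ) (by linarith) (by linarith)]
    conv_lhs => rw [hsplit]
    rw [Measure.map_add _ _ (measurable_T4 _), Measure.map_add _ _ (measurable_T4 _),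
      Measure.map_add _ _ (measurable_T4 _)]
    rw [map_piece (a4 θ) (c := 1) (p' := 1) (r' := 2 - θ) (fun x hx => T4a_zero h0 h1 hx)
      (by ring) (by ring)]
    rw [map_piece (a4 θ) (c := -(1 - θ)) (p' := 0) (r' := 1 - θ)
      (fun x hx => by rw [T4a_one h0 hx]; ring) (by ring) (by ring)]
    rw [map_piece (a4 θ) (c := θ) (p' := 2 - θ) (r' := 2)
      (fun x hx => T4a_two h0 h1 hx) (by ring) (by ring)]
    rw [map_piece (a4 θ) (c := -1) (p' := 1 - θ) (r' := 1)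
      (fun x hx => by rw [T4a_three h0 h1 hx]; ring) (by ring) (by ring)]
    rw [hsplit']
    abel

/-- The quotient map to the circle. -/
noncomputable def q (x : ℝ) : AddCircle (1 : ℝ) := (x : AddCircle (1 : ℝ))

lemma measurable_q : Measurable q := AddCircle.measurable_mk'

lemma q_add_one (x : ℝ) : q (x + 1) = q x := by
  unfold q
  rw [AddCircle.coe_add, AddCircle.coe_period, add_zero]

lemma q_sub_one (x : ℝ) : q (x - 1) = q x := by
  rw [← q_add_one (x - 1), sub_add_cancel]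

/-- The base of the tower. -/
def KK (θ : ℝ) : Set ℝ := Ico (1 - θ) (2 - θ)

/-- The second level of the tower. -/
def LL (θ : ℝ) : Set ℝ := Ico 0 (1 - θ) ∪ Ico (2 - θ) 2

lemma meas_KK : MeasurableSet (KK θ) := measurableSet_Ico

lemma meas_LL : MeasurableSet (LL θ) := measurableSet_Ico.union measurableSet_Ico

lemma Ico_cases (h0 : 0 < θ) (h1 : θ < 1) {x : ℝ} (hx : x ∈ Ico (0 : ℝ) 2) :
    x ∈ Ico 0 (1 - θ) ∨ x ∈ Ico (1 - θ) (2 - 2 * θ) ∨ x ∈ Ico (2 - 2 * θ) (2 - θ) ∨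
      x ∈ Ico (2 - θ) 2 := by
  obtain ⟨h2, h3⟩ := hx
  by_cases c1 : x < 1 - θ
  · left; exact ⟨h2, c1⟩
  · right
    by_cases c2 : x < 2 - 2 * θ
    · left; exact ⟨not_lt.1 c1, c2⟩
    · right
      by_cases c3 : x < 2 - θ
      · left; exact ⟨not_lt.1 c2, c3⟩
      · right; exact ⟨not_lt.1 c3, h3⟩

/-- pointwise behaviour on the base. -/
lemma on_KK (h0 : 0 < θ) (h1 : θ < 1) {x : ℝ} (hx : x ∈ KK θ) :
    T4 (a4 θ) x ∈ LL θ ∧ q (T4 (a4 θ) x) = (θ : AddCircle (1 : ℝ)) + q x := by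
  obtain ⟨hx1, hx2⟩ := hx
  by_cases c : x < 2 - 2 * θ
  · rw [T4a_one h0 ⟨hx1, c⟩]
    refine ⟨Or.inl ⟨by linarith, by linarith⟩, ?_⟩
    have : x - (1 - θ) = (θ + x) - 1 := by ring
    rw [this, q_sub_one]
    unfold q
    rw [AddCircle.coe_add]
  · rw [T4a_two h0 h1 ⟨not_lt.1 c, hx2⟩]
    rw [not_lt] at c
    refine ⟨Or.inr ⟨by linarith, by linarith⟩, ?_⟩
    unfold q
    rw [AddCircle.coe_add, add_comm]

lemma on_LL (h0 : 0 < θ) (h1 : θ < 1) {x : ℝ} (hx : x ∈ LL θ) :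
    T4 (a4 θ) x ∈ KK θ ∧ q (T4 (a4 θ) x) = q x := by
  rcases hx with hx | hx
  · rw [T4a_zero h0 h1 hx]
    refine ⟨⟨by linarith [hx.1], by linarith [hx.2]⟩, q_add_one x⟩
  · rw [T4a_three h0 h1 hx]
    refine ⟨⟨by linarith [hx.1], by linarith [hx.2]⟩, q_sub_one x⟩

lemma KK_LL_disj (h0 : 0 < θ) (h1 : θ < 1) {x : ℝ} (hx : x ∈ KK θ) : x ∉ LL θ := by
  obtain ⟨hx1, hx2⟩ := hx
  rintro (h | h)
  · linarith [h.2]
  · linarith [h.1]

lemma mem_KK_or_LL (h0 : 0 < θ) (h1 : θ < 1) {x : ℝ} (hx : x ∈ Ico (0 : ℝ) 2) :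
    x ∈ KK θ ∨ x ∈ LL θ := by
  rcases Ico_cases h0 h1 hx with h | h | h | h
  · exact Or.inr (Or.inl h)
  · exact Or.inl ⟨h.1, by linarith [h.2]⟩
  · exact Or.inl ⟨by linarith [h.1], h.2⟩
  · exact Or.inr (Or.inr h)

variable {μ : Measure ℝ}

lemma ae_mem (hμ : Inv4 (a4 θ) μ) : ∀ᵐ x ∂μ, x ∈ Ico (0 : ℝ) 2 := by
  have := hμ.2.1
  rw [sum_a4] at this
  exact this

lemma inv_apply (hμ : Inv4 (a4 θ) μ) {S : Set ℝ} (hS : MeasurableSet S) :
    μ (T4 (a4 θ) ⁻¹' S) = μ S := by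
  rw [← Measure.map_apply (measurable_T4 _) hS, hμ.2.2]

/-- Mass of a set inside the second level, in terms of the base. -/
lemma meas_in_LL (h0 : 0 < θ) (h1 : θ < 1) (hμ : Inv4 (a4 θ) μ) {A : Set ℝ}
    (hA : MeasurableSet A) : μ (A ∩ LL θ) = μ ((T4 (a4 θ) ⁻¹' A) ∩ KK θ) := by
  rw [← inv_apply hμ (hA.inter meas_LL)]
  apply measure_congr
  filter_upwards [ae_mem hμ] with x hx
  apply propext
  change T4 (a4 θ) x ∈ A ∩ LL θ ↔ x ∈ (T4 (a4 θ) ⁻¹' A) ∩ KK θ
  rcases mem_KK_or_LL h0 h1 hx with h | h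
  · constructor
    · intro h2; exact ⟨h2.1, h⟩
    · intro h2; exact ⟨h2.1, (on_KK h0 h1 h).1⟩
  · constructor
    · intro h2; exact absurd h2.2 (KK_LL_disj h0 h1 (on_LL h0 h1 h).1)
    · intro h2; exact absurd h (KK_LL_disj h0 h1 h2.2)

lemma meas_in_KK (h0 : 0 < θ) (h1 : θ < 1) (hμ : Inv4 (a4 θ) μ) {A : Set ℝ}
    (hA : MeasurableSet A) : μ (A ∩ KK θ) = μ ((T4 (a4 θ) ⁻¹' A) ∩ LL θ) := by
  rw [← inv_apply hμ (hA.inter meas_KK)]
  apply measure_congr
  filter_upwards [ae_mem hμ] with x hx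
  apply propext
  change T4 (a4 θ) x ∈ A ∩ KK θ ↔ x ∈ (T4 (a4 θ) ⁻¹' A) ∩ LL θ
  rcases mem_KK_or_LL h0 h1 hx with h | h
  · constructor
    · intro h2; exact absurd (on_KK h0 h1 h).1 (KK_LL_disj h0 h1 h2.2)
    · intro h2; exact absurd h2.2 (KK_LL_disj h0 h1 h)
  · constructor
    · intro h2; exact ⟨h2.1, h⟩
    · intro h2; exact ⟨h2.1, (on_LL h0 h1 h).1⟩

/-- The measure on the circle. -/
noncomputable def nu (θ : ℝ) (μ : Measure ℝ) : Measure (AddCircle (1 : ℝ)) :=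
  (μ.restrict (KK θ)).map q

lemma nu_apply {E : Set (AddCircle (1 : ℝ))} (hE : MeasurableSet E) :
    nu θ μ E = μ (q ⁻¹' E ∩ KK θ) := by
  unfold nu
  rw [Measure.map_apply measurable_q hE, Measure.restrict_apply (measurable_q hE)]

lemma nu_inv (h0 : 0 < θ) (h1 : θ < 1) (hμ : Inv4 (a4 θ) μ) :
    (nu θ μ).map (fun x => (θ : AddCircle (1 : ℝ)) + x) = nu θ μ := by
  ext E hE
  rw [Measure.map_apply (by fun_prop) hE,
    nu_apply ((measurable_const_add (θ : AddCircle (1 : ℝ))) hE), nu_apply hE]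
  rw [meas_in_KK h0 h1 hμ (measurable_q hE)]
  have e1 : (T4 (a4 θ) ⁻¹' (q ⁻¹' E)) ∩ LL θ = (q ⁻¹' E) ∩ LL θ := by
    ext x
    constructor
    · rintro ⟨h2, h3⟩
      refine ⟨?_, h3⟩
      change q x ∈ E
      rw [← (on_LL h0 h1 h3).2]
      exact h2
    · rintro ⟨h2, h3⟩
      refine ⟨?_, h3⟩
      change q (T4 (a4 θ) x) ∈ E
      rw [(on_LL h0 h1 h3).2]
      exact h2
  rw [e1, meas_in_LL h0 h1 hμ (measurable_q hE)]
  congr 1
  ext x
  constructor
  · rintro ⟨h2, h3⟩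
    refine ⟨?_, h3⟩
    change q (T4 (a4 θ) x) ∈ E
    rw [(on_KK h0 h1 h3).2]
    exact h2
  · rintro ⟨h2, h3⟩
    refine ⟨?_, h3⟩
    change (θ : AddCircle (1 : ℝ)) + q x ∈ E
    rw [← (on_KK h0 h1 h3).2]
    exact h2

lemma total (h0 : 0 < θ) (h1 : θ < 1) (hμ : Inv4 (a4 θ) μ) {A : Set ℝ} (hA : MeasurableSet A) :
    μ A = μ (A ∩ KK θ) + μ ((T4 (a4 θ) ⁻¹' A) ∩ KK θ) := by
  rw [← meas_in_LL h0 h1 hμ hA]
  rw [← measure_union _ (hA.inter meas_LL)]
  · apply measure_congr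
    filter_upwards [ae_mem hμ] with x hx
    apply propext
    change x ∈ A ↔ x ∈ A ∩ KK θ ∪ A ∩ LL θ
    constructor
    · intro h
      rcases mem_KK_or_LL h0 h1 hx with h2 | h2
      · exact Or.inl ⟨h, h2⟩
      · exact Or.inr ⟨h, h2⟩
    · rintro (h | h) <;> exact h.1
  · rw [Set.disjoint_left]
    intro x hx hx'
    exact KK_LL_disj h0 h1 hx.2 hx'.2

lemma nu_univ (h0 : 0 < θ) (h1 : θ < 1) (hμ : Inv4 (a4 θ) μ) : nu θ μ univ = 2⁻¹ := by
  have := hμ.1
  have h2 := total h0 h1 hμ MeasurableSet.univ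
  rw [preimage_univ, univ_inter, measure_univ] at h2
  rw [nu_apply MeasurableSet.univ, preimage_univ, univ_inter]
  rw [← mul_two] at h2
  exact ENNReal.eq_inv_of_mul_eq_one_left h2.symm

lemma base_of_nu {A : Set ℝ} (hA : MeasurableSet A) :
    ∃ E : Set (AddCircle (1 : ℝ)), MeasurableSet E ∧ A ∩ KK θ = q ⁻¹' E ∩ KK θ := by
  haveI : Fact ((0 : ℝ) < 1) := ⟨one_pos⟩
  refine ⟨{y | ((AddCircle.measurableEquivIco (1 : ℝ) (1 - θ) y : Ico (1 - θ) (1 - θ + 1)) : ℝ) ∈ A},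
    ?_, ?_⟩
  · exact (measurable_subtype_coe.comp (AddCircle.measurableEquivIco (1 : ℝ) (1 - θ)).measurable) hA
  · ext x
    have key : x ∈ KK θ →
        ((AddCircle.measurableEquivIco (1 : ℝ) (1 - θ) (q x) : Ico (1 - θ) (1 - θ + 1)) : ℝ) = x := by
      intro hx
      have hx' : x ∈ Ico (1 - θ) (1 - θ + 1) := ⟨hx.1, by have := hx.2; linarith⟩
      have := AddCircle.equivIco_coe_eq (p := (1 : ℝ)) (a := 1 - θ) hx'
      change ((AddCircle.equivIco (1 : ℝ) (1 - θ) (x : AddCircle (1 : ℝ)) :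
        Ico (1 - θ) (1 - θ + 1)) : ℝ) = x
      rw [this]
    constructor
    · rintro ⟨h2, h3⟩
      refine ⟨?_, h3⟩
      change ((AddCircle.measurableEquivIco (1 : ℝ) (1 - θ) (q x) :
        Ico (1 - θ) (1 - θ + 1)) : ℝ) ∈ A
      rw [key h3]; exact h2
    · rintro ⟨h2, h3⟩
      refine ⟨?_, h3⟩
      change ((AddCircle.measurableEquivIco (1 : ℝ) (1 - θ) (q x) :
        Ico (1 - θ) (1 - θ + 1)) : ℝ) ∈ A at h2
      rw [key h3] at h2
      exact h2

lemma unique_inv (h0 : 0 < θ) (h1 : θ < 1) (hθ : Irrational θ) {μ' : Measure ℝ}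
    (hμ : Inv4 (a4 θ) μ) (hμ' : Inv4 (a4 θ) μ') : μ = μ' := by
  have p1 := hμ.1
  have p2 := hμ'.1
  have f1 : IsFiniteMeasure (nu θ μ) := by unfold nu; infer_instance
  have f2 : IsFiniteMeasure (nu θ μ') := by unfold nu; infer_instance
  have hnu : nu θ μ = nu θ μ' := rot_inv_unique hθ _ _ (nu_inv h0 h1 hμ) (nu_inv h0 h1 hμ')
    (by rw [nu_univ h0 h1 hμ, nu_univ h0 h1 hμ'])
  have hbase : ∀ A : Set ℝ, MeasurableSet A → μ (A ∩ KK θ) = μ' (A ∩ KK θ) := by
    intro A hA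
    obtain ⟨E, hE, hAE⟩ := base_of_nu (θ := θ) hA
    rw [hAE, ← nu_apply hE, ← nu_apply hE, hnu]
  ext A hA
  rw [total h0 h1 hμ hA, total h0 h1 hμ' hA, hbase A hA, hbase _ (measurable_T4 _ hA)]

lemma UE_a4 (h0 : 0 < θ) (h1 : θ < 1) (hθ : Irrational θ) : ∃! μ : Measure ℝ, Inv4 (a4 θ) μ :=
  ⟨_, exists_inv h0 h1, fun _ h => unique_inv h0 h1 hθ h (exists_inv h0 h1)⟩

end unperturbed

end Pool.Agent.H769R3
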