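import Pool.Agent.H769R3.Digits

set_option autoImplicit false

open Finset MeasureTheory

namespace Pool.Agent.H769R3

/-! A stopping-time covering lemma for the doubling map. -/

lemma mp_pow {μ : Measure X} (hμ : μ.map (fun x : X => (2 : ℕ) • x) = μ) (j : ℕ) :
    MeasurePreserving (fun x : X => (2 ^ j : ℕ) • x) μ μ := by
  induction j with
  | zero =>
    simp only [pow_zero, one_smul]
    exact MeasurePreserving.id μ
  | succ j ih =>
    have h2 : MeasurePreserving (fun x : X => (2 : ℕ) • x) μ μ := ⟨by fun_prop, hμ⟩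
    have h3 := h2.comp ih
    have e : (fun x : X => (2 ^ (j + 1) : ℕ) • x) =
        (fun x : X => (2 : ℕ) • x) ∘ (fun x : X => (2 ^ j : ℕ) • x) := by
      funext x
      simp only [Function.comp]
      rw [← mul_smul, pow_succ, mul_comm]
    rw [e]
    exact h3

lemma stop_pointwise (f : X → ℂ) (hf : ∀ x, ‖f x‖ ≤ 1) (g : X → ℝ) (hg : ∀ x, 0 ≤ g x)
    {δ : ℝ} (hδ : 0 ≤ δ) (L : ℕ)
    (h : ∀ x, ∃ τ : ℕ, 1 ≤ τ ∧ τ ≤ L ∧ ‖∑ j ∈ range τ, f ((2 ^ j : ℕ) • x)‖ ≤
      δ * τ + ∑ j ∈ range τ, g ((2 ^ j : ℕ) • x)) :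
    ∀ (M : ℕ) (x : X), ‖∑ j ∈ range M, f ((2 ^ j : ℕ) • x)‖ ≤
      δ * M + ∑ j ∈ range M, g ((2 ^ j : ℕ) • x) + L := by
  intro M
  induction M using Nat.strong_induction_on with
  | _ M ih =>
    intro x
    by_cases hM : M ≤ L
    · have h1 : ‖∑ j ∈ range M, f ((2 ^ j : ℕ) • x)‖ ≤ M := by
        refine (norm_sum_le _ _).trans ?_
        refine (sum_le_sum (fun j _ => hf _)).trans ?_
        simp
      have h2 : (M : ℝ) ≤ L := by exact_mod_cast hM
      have h3 : 0 ≤ ∑ j ∈ range M, g ((2 ^ j : ℕ) • x) := sum_nonneg fun j _ => hg _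
      have h4 : 0 ≤ δ * M := by positivity
      linarith
    · obtain ⟨τ, h1, h2, h3⟩ := h x
      have hM' : M = τ + (M - τ) := by omega
      have h4 := ih (M - τ) (by omega) ((2 ^ τ : ℕ) • x)
      have e : ∀ {E : Type} [AddCommMonoid E] (F : X → E),
          ∑ j ∈ range M, F ((2 ^ j : ℕ) • x) = ∑ j ∈ range τ, F ((2 ^ j : ℕ) • x) +
            ∑ j ∈ range (M - τ), F ((2 ^ j : ℕ) • ((2 ^ τ : ℕ) • x)) := by
        intro E _ F
        conv_lhs => rw [hM', sum_range_add]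
        congr 1
        apply sum_congr rfl
        intro j _
        rw [← mul_smul, ← pow_add, add_comm τ j]
      rw [e f, e g]
      refine (norm_add_le _ _).trans ?_
      have h5 : (M : ℝ) = τ + ((M - τ : ℕ) : ℝ) := by exact_mod_cast hM'
      rw [h5]
      linarith

lemma stop {μ : Measure X} [IsProbabilityMeasure μ]
    (hμ : μ.map (fun x : X => (2 : ℕ) • x) = μ) (f : C(X, ℂ)) (hf : ∀ x, ‖f x‖ ≤ 1)
    (g : C(X, ℝ)) (hg : ∀ x, 0 ≤ g x)
    {δ : ℝ} (hδ : 0 ≤ δ) (L : ℕ)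
    (h : ∀ x, ∃ τ : ℕ, 1 ≤ τ ∧ τ ≤ L ∧ ‖∑ j ∈ range τ, f ((2 ^ j : ℕ) • x)‖ ≤
      δ * τ + ∑ j ∈ range τ, g ((2 ^ j : ℕ) • x)) :
    ‖∫ x, f x ∂μ‖ ≤ δ + ∫ x, g x ∂μ := by
  have hpt := stop_pointwise f hf g hg hδ L h
  have hfi : ∀ j : ℕ, Integrable (fun x => f ((2 ^ j : ℕ) • x)) μ := by
    intro j
    exact (f.continuous.comp (by fun_prop)).integrable_of_hasCompactSupport
      (HasCompactSupport.of_compactSpace _)
  have hgi : ∀ j : ℕ, Integrable (fun x => g ((2 ^ j : ℕ) • x)) μ := by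
    intro j
    exact (g.continuous.comp (by fun_prop)).integrable_of_hasCompactSupport
      (HasCompactSupport.of_compactSpace _)
  have hf1 : ∀ j : ℕ, ∫ x, f ((2 ^ j : ℕ) • x) ∂μ = ∫ x, f x ∂μ := by
    intro j
    have h1 := (mp_pow hμ j).map_eq
    conv_rhs => rw [← h1]
    rw [integral_map (by fun_prop) f.continuous.aestronglyMeasurable]
  have hg1 : ∀ j : ℕ, ∫ x, g ((2 ^ j : ℕ) • x) ∂μ = ∫ x, g x ∂μ := by
    intro j
    have h1 := (mp_pow hμ j).map_eq
    conv_rhs => rw [← h1]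
    rw [integral_map (by fun_prop) g.continuous.aestronglyMeasurable]
  have key : ∀ M : ℕ, (M : ℝ) * ‖∫ x, f x ∂μ‖ ≤ δ * M + M * ∫ x, g x ∂μ + L := by
    intro M
    have h1 : ∫ x, ∑ j ∈ range M, f ((2 ^ j : ℕ) • x) ∂μ = (M : ℂ) * ∫ x, f x ∂μ := by
      rw [integral_finsetSum _ (fun j _ => hfi j)]
      rw [sum_congr rfl (fun j _ => hf1 j)]
      simp
    have h2 : ∫ x, (δ * M + ∑ j ∈ range M, g ((2 ^ j : ℕ) • x) + L) ∂μ =
        δ * M + M * ∫ x, g x ∂μ + L := by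
      have hsum : Integrable (fun x => ∑ j ∈ range M, g ((2 ^ j : ℕ) • x)) μ :=
        integrable_finsetSum _ (fun j _ => hgi j)
      have hA : Integrable (fun x => δ * M + ∑ j ∈ range M, g ((2 ^ j : ℕ) • x)) μ :=
        (integrable_const _).add hsum
      rw [integral_add hA (integrable_const _),
        integral_add (integrable_const _) hsum, integral_finsetSum _ (fun j _ => hgi j),
        sum_congr rfl (fun j _ => hg1 j)]
      simp
    have h3 : (M : ℝ) * ‖∫ x, f x ∂μ‖ = ‖∫ x, ∑ j ∈ range M, f ((2 ^ j : ℕ) • x) ∂μ‖ := by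
      rw [h1, norm_mul]
      simp
    rw [h3, ← h2]
    refine (norm_integral_le_integral_norm _).trans ?_
    apply integral_mono
    · exact (integrable_finsetSum _ (fun j _ => hfi j)).norm
    · exact ((integrable_const _).add (integrable_finsetSum _ (fun j _ => hgi j))).add
        (integrable_const _)
    · intro x
      exact hpt M x
  -- let M tend to infinity
  by_contra hcon
  rw [not_le] at hcon
  set a := ‖∫ x, f x ∂μ‖ - (δ + ∫ x, g x ∂μ) with ha
  have ha0 : 0 < a := by linarith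
  obtain ⟨M, hM⟩ := exists_nat_gt ((L : ℝ) / a)
  have h1 := key M
  rw [div_lt_iff₀ ha0] at hM
  have : (M : ℝ) * a ≤ L := by
    rw [ha]
    linarith
  linarith

end Pool.Agent.H769R3
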