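import Mathlib

set_option autoImplicit false

open Finset

namespace Pool.Agent.H769R3

/-! Large deviations for doubling orbits in `ℤ/q`. -/

section

variable {q : ℕ} [NeZero q]

/-- Standard additive character. -/
noncomputable def psi (r : ZMod q) : ℂ := ZMod.stdAddChar r

lemma psi_add (a b : ZMod q) : psi (a + b) = psi a * psi b := AddChar.map_add_eq_mul _ _ _

lemma psi_zero : psi (0 : ZMod q) = 1 := AddChar.map_zero_eq_one _

lemma psi_neg (a : ZMod q) : psi (-a) = (starRingEnd ℂ) (psi a) := by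
  unfold psi
  exact AddChar.map_neg_eq_conj _ _

lemma psi_norm (a : ZMod q) : ‖psi a‖ = 1 := by
  unfold psi
  exact AddChar.norm_apply _ _

lemma sum_psi {u : ℤ} (h : (u : ZMod q) ≠ 0) : ∑ r : ZMod q, psi ((u : ZMod q) * r) = 0 := by
  have h1 := AddChar.sum_mulShift (u : ZMod q) (ZMod.isPrimitive_stdAddChar q)
  rw [if_neg h, Nat.cast_zero] at h1
  rw [← h1]
  apply Finset.sum_congr rfl
  intro r _
  rw [mul_comm]
  rfl

/-- The twisted Riesz-product sums. -/
noncomputable def Sg (A b b' : ℂ) (β : ℕ) (u : ℤ) : ℂ :=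
  ∑ r : ZMod q, psi ((u : ZMod q) * r) *
    ∏ j ∈ range β, (A + b * psi ((2 : ZMod q) ^ j * r) + b' * psi (-((2 : ZMod q) ^ j * r)))

lemma Sg_succ (A b b' : ℂ) (β : ℕ) (u : ℤ) :
    Sg (q := q) A b b' (β + 1) u = A * Sg (q := q) A b b' β u +
      b * Sg (q := q) A b b' β (u + 2 ^ β) + b' * Sg (q := q) A b b' β (u - 2 ^ β) := by
  unfold Sg
  rw [mul_sum, mul_sum, mul_sum, ← sum_add_distrib, ← sum_add_distrib]
  apply sum_congr rfl
  intro r _
  rw [prod_range_succ]
  have e1 : psi (((u + 2 ^ β : ℤ) : ZMod q) * r) = psi ((u : ZMod q) * r) *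
      psi ((2 : ZMod q) ^ β * r) := by
    rw [← psi_add]
    congr 1
    push_cast
    ring
  have e2 : psi (((u - 2 ^ β : ℤ) : ZMod q) * r) = psi ((u : ZMod q) * r) *
      psi (-((2 : ZMod q) ^ β * r)) := by
    rw [← psi_add]
    congr 1
    push_cast
    ring
  rw [e1, e2]
  ring

lemma Sg_eq_zero (A b b' : ℂ) (β : ℕ) : ∀ u : ℤ, (2 : ℤ) ^ β ≤ |u| → |u| + 2 ^ β ≤ q →
    Sg (q := q) A b b' β u = 0 := by
  induction β with
  | zero =>
    intro u h1 h2
    unfold Sg
    simp only [range_zero, prod_empty, mul_one]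
    apply sum_psi
    intro h
    rw [ZMod.intCast_zmod_eq_zero_iff_dvd] at h
    simp only [pow_zero] at h1 h2
    have h3 : (q : ℤ) ∣ |u| := (dvd_abs _ _).2 h
    have h4 := Int.le_of_dvd (by omega) h3
    omega
  | succ β ih =>
    intro u h1 h2
    have hp : (2 : ℤ) ^ (β + 1) = 2 * 2 ^ β := by ring
    rw [hp] at h1 h2
    have hpos : (0 : ℤ) < 2 ^ β := by positivity
    rw [Sg_succ, ih u (by omega) (by omega), ih (u + 2 ^ β), ih (u - 2 ^ β)]
    · ring
    · rcases abs_cases u with ⟨h, h'⟩ | ⟨h, h'⟩ <;> rcases abs_cases (u - 2 ^ β) with ⟨g, g'⟩ | ⟨g, g'⟩ <;> omega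
    · rcases abs_cases u with ⟨h, h'⟩ | ⟨h, h'⟩ <;> rcases abs_cases (u - 2 ^ β) with ⟨g, g'⟩ | ⟨g, g'⟩ <;> omega
    · rcases abs_cases u with ⟨h, h'⟩ | ⟨h, h'⟩ <;> rcases abs_cases (u + 2 ^ β) with ⟨g, g'⟩ | ⟨g, g'⟩ <;> omega
    · rcases abs_cases u with ⟨h, h'⟩ | ⟨h, h'⟩ <;> rcases abs_cases (u + 2 ^ β) with ⟨g, g'⟩ | ⟨g, g'⟩ <;> omega

lemma Sg_zero (A b b' : ℂ) (β : ℕ) (h : 2 ^ β ≤ q) :
    Sg (q := q) A b b' β 0 = q * A ^ β := by
  induction β with
  | zero =>
    unfold Sg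
    simp [psi_zero]
  | succ β ih =>
    have hp : 2 ^ (β + 1) = 2 * 2 ^ β := by ring
    rw [hp] at h
    have hpos : 0 < 2 ^ β := by positivity
    have h' : (2 : ℤ) * 2 ^ β ≤ q := by exact_mod_cast h
    rw [Sg_succ, ih (by omega), Sg_eq_zero, Sg_eq_zero]
    · rw [mul_zero, mul_zero, add_zero, add_zero, pow_succ]
      ring
    · rw [zero_sub, abs_neg, abs_of_nonneg (by positivity)]
    · rw [zero_sub, abs_neg, abs_of_nonneg (by positivity)]; omega
    · rw [zero_add, abs_of_nonneg (by positivity)]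
    · rw [zero_add, abs_of_nonneg (by positivity)]; omega

/-- Exact evaluation of the mean of a Riesz product. -/
lemma riesz_mean (A B : ℝ) (ω : ℂ) (β : ℕ) (h : 2 ^ β ≤ q) :
    ∑ r : ZMod q, ∏ j ∈ range β, (A + B * (ω * psi ((2 : ZMod q) ^ j * r)).re) = q * A ^ β := by
  have h1 := Sg_zero (q := q) (A : ℂ) (B * ω / 2) (B * (starRingEnd ℂ) ω / 2) β h
  have h2 : ((∑ r : ZMod q, ∏ j ∈ range β, (A + B * (ω * psi ((2 : ZMod q) ^ j * r)).re) : ℝ) : ℂ) =
      ((q * A ^ β : ℝ) : ℂ) := by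
    push_cast
    rw [← h1]
    unfold Sg
    apply sum_congr rfl
    intro r _
    rw [Int.cast_zero, zero_mul, psi_zero, one_mul]
    apply prod_congr rfl
    intro j _
    rw [psi_neg]
    rw [Complex.re_eq_add_conj, map_mul]
    ring
  exact_mod_cast h2

lemma exp_le_cosh_add (s u : ℝ) (hu : |u| ≤ 1) :
    Real.exp (s * u) ≤ Real.cosh s + Real.sinh s * u := by
  rw [abs_le] at hu
  have h := convexOn_exp.2 (Set.mem_univ s) (Set.mem_univ (-s))
    (show (0 : ℝ) ≤ (1 + u) / 2 by linarith) (show (0 : ℝ) ≤ (1 - u) / 2 by linarith) (by ring)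
  simp only [smul_eq_mul] at h
  have e1 : (1 + u) / 2 * s + (1 - u) / 2 * -s = s * u := by ring
  rw [e1] at h
  refine h.trans (le_of_eq ?_)
  rw [Real.cosh_eq, Real.sinh_eq]
  ring

/-- One-sided large deviation estimate. -/
lemma ld_one (ω : ℂ) (hω : ‖ω‖ = 1) (β : ℕ) (h : 2 ^ β ≤ q) (a : ℝ) (ha : 0 ≤ a) :
    ((univ.filter (fun r : ZMod q =>
      a * β < (ω * ∑ j ∈ range β, psi ((2 : ZMod q) ^ j * r)).re)).card : ℝ) ≤
      q * Real.exp (-(a ^ 2 / 2) * β) := by
  have hu : ∀ (r : ZMod q) (j : ℕ), |(ω * psi ((2 : ZMod q) ^ j * r)).re| ≤ 1 := by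
    intro r j
    refine (Complex.abs_re_le_norm _).trans ?_
    rw [norm_mul, hω, psi_norm, one_mul]
  have h1 : ∀ r : ZMod q, Real.exp (a * (ω * ∑ j ∈ range β, psi ((2 : ZMod q) ^ j * r)).re) ≤
      ∏ j ∈ range β, (Real.cosh a + Real.sinh a * (ω * psi ((2 : ZMod q) ^ j * r)).re) := by
    intro r
    rw [mul_sum, Complex.re_sum, mul_sum, Real.exp_sum]
    apply prod_le_prod
    · intro j _; positivity
    · intro j _; exact exp_le_cosh_add _ _ (hu r j)
  have h2 : ∑ r : ZMod q, Real.exp (a * (ω * ∑ j ∈ range β, psi ((2 : ZMod q) ^ j * r)).re) ≤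
      q * Real.exp (a ^ 2 / 2 * β) := by
    refine (sum_le_sum fun r _ => h1 r).trans ?_
    rw [riesz_mean _ _ _ _ h]
    apply mul_le_mul_of_nonneg_left _ (by positivity)
    have h3 := Real.cosh_le_exp_half_sq a
    calc Real.cosh a ^ β ≤ Real.exp (a ^ 2 / 2) ^ β :=
          pow_le_pow_left₀ (Real.cosh_pos a).le h3 β
      _ = Real.exp (a ^ 2 / 2 * β) := by rw [← Real.exp_nat_mul]; congr 1; ring
  have h4 : ((univ.filter (fun r : ZMod q =>
      a * β < (ω * ∑ j ∈ range β, psi ((2 : ZMod q) ^ j * r)).re)).card : ℝ) *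
        Real.exp (a ^ 2 * β) ≤ q * Real.exp (a ^ 2 / 2 * β) := by
    refine le_trans ?_ h2
    rw [← nsmul_eq_mul, ← sum_const]
    refine (sum_le_sum ?_).trans (sum_le_sum_of_subset_of_nonneg (filter_subset _ _)
      (fun _ _ _ => (Real.exp_pos _).le))
    intro r hr
    rw [mem_filter] at hr
    apply Real.exp_le_exp.2
    have := mul_le_mul_of_nonneg_left hr.2.le ha
    calc a ^ 2 * β = a * (a * β) := by ring
      _ ≤ _ := this
  have h5 : Real.exp (-(a ^ 2 / 2) * β) * Real.exp (a ^ 2 * β) = Real.exp (a ^ 2 / 2 * β) := by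
    rw [← Real.exp_add]; congr 1; ring
  have h6 : 0 < Real.exp (a ^ 2 * β) := Real.exp_pos _
  rw [← h5, ← mul_assoc] at h4
  exact le_of_mul_le_mul_right h4 h6

/-- Large deviation estimate for the norm. -/
lemma ld_norm (β : ℕ) (h : 2 ^ β ≤ q) (δ : ℝ) (hδ : 0 ≤ δ) :
    ((univ.filter (fun r : ZMod q =>
      δ * β < ‖∑ j ∈ range β, psi ((2 : ZMod q) ^ j * r)‖)).card : ℝ) ≤
      4 * q * Real.exp (-(δ ^ 2 / 8) * β) := by
  classical
  set P : ℂ → Finset (ZMod q) := fun ω => univ.filter (fun r : ZMod q =>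
      (δ / 2) * β < (ω * ∑ j ∈ range β, psi ((2 : ZMod q) ^ j * r)).re) with hP
  have hsub : (univ.filter (fun r : ZMod q =>
      δ * β < ‖∑ j ∈ range β, psi ((2 : ZMod q) ^ j * r)‖)) ⊆
      (P 1 ∪ P (-1)) ∪ (P Complex.I ∪ P (-Complex.I)) := by
    intro r hr
    rw [mem_filter] at hr
    have hr2 := hr.2
    set z := ∑ j ∈ range β, psi ((2 : ZMod q) ^ j * r) with hz
    simp only [mem_union, hP, mem_filter, mem_univ, true_and]
    rw [← hz]
    by_contra hcon
    simp only [not_or, not_lt] at hcon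
    obtain ⟨⟨h1, h2⟩, h3, h4⟩ := hcon
    simp only [one_mul, neg_mul, Complex.neg_re, Complex.mul_re, Complex.I_re, Complex.I_im,
      zero_mul, zero_sub, neg_neg] at h1 h2 h3 h4
    have h5 := Complex.norm_le_abs_re_add_abs_im z
    have h6 : |z.re| ≤ δ / 2 * β := abs_le.2 ⟨by linarith, h1⟩
    have h7 : |z.im| ≤ δ / 2 * β := abs_le.2 ⟨by linarith, by linarith⟩
    linarith
  have hcard : ∀ ω : ℂ, ‖ω‖ = 1 → ((P ω).card : ℝ) ≤ q * Real.exp (-(δ ^ 2 / 8) * β) := by
    intro ω hω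
    refine (ld_one ω hω β h (δ / 2) (by positivity)).trans (le_of_eq ?_)
    congr 3
    ring
  have h1 : ((univ.filter (fun r : ZMod q =>
      δ * β < ‖∑ j ∈ range β, psi ((2 : ZMod q) ^ j * r)‖)).card : ℝ) ≤
      (P 1).card + (P (-1)).card + ((P Complex.I).card + (P (-Complex.I)).card) := by
    have h2 := (card_le_card hsub).trans ((card_union_le _ _).trans
      (add_le_add (card_union_le _ _) (card_union_le _ _)))
    exact_mod_cast h2
  have e1 := hcard 1 (by simp)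
  have e2 := hcard (-1) (by simp)
  have e3 := hcard Complex.I (by simp)
  have e4 := hcard (-Complex.I) (by simp)
  linarith

/-- Counting multiples of a unit with large exponential sums. -/
lemma count_mul (a : ZMod q) (ha : IsUnit a) (P : ZMod q → Prop) [DecidablePred P] (N : ℕ) :
    ((range N).filter (fun h : ℕ => P ((h : ZMod q) * a))).card ≤
      (N / q + 1) * (univ.filter P).card := by
  rw [← card_range (N / q + 1), ← card_product]
  apply card_le_card_of_injOn (fun h : ℕ => (h / q, (h : ZMod q) * a))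
  · intro h hh
    rw [mem_coe, mem_filter, mem_range] at hh
    rw [mem_coe, mem_product, mem_range, mem_filter]
    exact ⟨Nat.lt_succ_of_le (Nat.div_le_div_right hh.1.le), mem_univ _, hh.2⟩
  · intro h _ h' _ heq
    simp only [Prod.mk.injEq] at heq
    obtain ⟨h1, h2⟩ := heq
    have h3 : (h : ZMod q) = (h' : ZMod q) := ha.mul_right_cancel h2
    rw [ZMod.natCast_eq_natCast_iff'] at h3
    rw [← Nat.div_add_mod h q, ← Nat.div_add_mod h' q, h1, h3]

end

end Pool.Agent.H769R3
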