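import Pool.Agent.H769R3.Digits
import Pool.Agent.H769R3.LD

set_option autoImplicit false

open Finset

namespace Pool.Agent.H769R3

/-! The union bound for the exceptional multipliers. -/

lemma fourier_rat (ρ : ℚ) [NeZero ρ.den] (h j : ℕ) :
    (fourier (h : ℤ) ((2 ^ j : ℕ) • ((ρ : ℝ) : X)) : ℂ) =
      psi (q := ρ.den) ((2 : ZMod ρ.den) ^ j * ((h : ZMod ρ.den) * (ρ.num : ZMod ρ.den))) := by
  rw [← AddCircle.coe_nsmul, fourier_coe_apply]
  have e : (2 : ZMod ρ.den) ^ j * ((h : ZMod ρ.den) * (ρ.num : ZMod ρ.den)) =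
      ((2 ^ j * (h * ρ.num) : ℤ) : ZMod ρ.den) := by
    push_cast
    ring
  unfold psi
  rw [e, ZMod.stdAddChar_coe]
  congr 1
  have hρ : (ρ : ℂ) = (ρ.num : ℂ) / (ρ.den : ℂ) := Rat.cast_def ρ
  rw [nsmul_eq_mul]
  push_cast
  rw [hρ]
  ring

/-- The condition on a multiplier `h` and a rational `ρ`. -/
def BadPair (δ : ℝ) (β : ℕ) (h : ℕ) (ρ : ℚ) : Prop :=
  δ * β < ‖∑ j ∈ range β, (fourier (h : ℤ) ((2 ^ j : ℕ) • ((ρ : ℝ) : X)) : ℂ)‖

open Classical in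
lemma card_badPair (δ : ℝ) (hδ : 0 ≤ δ) (β N : ℕ) (ρ : ℚ) (h1 : 2 ^ β ≤ ρ.den) (h2 : ρ.den ≤ N) :
    (((range N).filter (fun h => BadPair δ β h ρ)).card : ℝ) ≤
      8 * N * Real.exp (-(δ ^ 2 / 8) * β) := by
  haveI : NeZero ρ.den := ⟨ρ.den_nz⟩
  have hunit : IsUnit (ρ.num : ZMod ρ.den) := by
    have hc : IsCoprime ρ.num (ρ.den : ℤ) := Int.isCoprime_iff_gcd_eq_one.2 (by
      have := ρ.reduced
      rw [Nat.Coprime] at this
      simpa [Int.gcd] using this)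
    exact (ZMod.coe_int_isUnit_iff_isCoprime ρ.num ρ.den).2 hc.symm
  have hcount := count_mul (q := ρ.den) (ρ.num : ZMod ρ.den) hunit
    (fun r => δ * β < ‖∑ j ∈ range β, psi ((2 : ZMod ρ.den) ^ j * r)‖) N
  have hld := ld_norm (q := ρ.den) β h1 δ hδ
  have e : (range N).filter (fun h => BadPair δ β h ρ) = (range N).filter (fun h : ℕ =>
      δ * β < ‖∑ j ∈ range β, psi ((2 : ZMod ρ.den) ^ j * ((h : ZMod ρ.den) *
        (ρ.num : ZMod ρ.den)))‖) := by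
    apply filter_congr
    intro h _
    unfold BadPair
    rw [sum_congr rfl (fun j _ => fourier_rat ρ h j)]
  rw [e]
  have hcount' : (((range N).filter (fun h : ℕ =>
      δ * β < ‖∑ j ∈ range β, psi ((2 : ZMod ρ.den) ^ j * ((h : ZMod ρ.den) *
        (ρ.num : ZMod ρ.den)))‖)).card : ℝ) ≤ ((N / ρ.den + 1 : ℕ) : ℝ) *
        ((univ.filter (fun r : ZMod ρ.den =>
      δ * β < ‖∑ j ∈ range β, psi ((2 : ZMod ρ.den) ^ j * r)‖)).card : ℝ) := by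
    exact_mod_cast hcount
  refine hcount'.trans ((mul_le_mul_of_nonneg_left hld (by positivity)).trans ?_)
  have h3 : ((N / ρ.den + 1 : ℕ) : ℝ) * ρ.den ≤ 2 * N := by
    have : (N / ρ.den + 1) * ρ.den ≤ 2 * N := by
      have := Nat.div_mul_le_self N ρ.den
      rw [add_mul, one_mul]
      omega
    exact_mod_cast this
  have hpos : 0 < Real.exp (-(δ ^ 2 / 8) * β) := Real.exp_pos _
  calc ((N / ρ.den + 1 : ℕ) : ℝ) * (4 * ρ.den * Real.exp (-(δ ^ 2 / 8) * β))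
      = 4 * (((N / ρ.den + 1 : ℕ) : ℝ) * ρ.den) * Real.exp (-(δ ^ 2 / 8) * β) := by ring
    _ ≤ 4 * (2 * N) * Real.exp (-(δ ^ 2 / 8) * β) := by
      apply mul_le_mul_of_nonneg_right _ hpos.le
      linarith
    _ = _ := by ring

lemma rat_sep {β : ℕ} {ρ ρ' : ℚ} (h1 : ρ.den < 2 ^ (β + 1)) (h2 : ρ'.den < 2 ^ (β + 1))
    (h : ⌊(2 : ℝ) ^ (2 * β + 2) * ρ⌋ = ⌊(2 : ℝ) ^ (2 * β + 2) * ρ'⌋) : ρ = ρ' := by
  by_contra hne
  have h3 := Int.abs_sub_lt_one_of_floor_eq_floor h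
  rw [← mul_sub, abs_mul, abs_of_pos (by positivity)] at h3
  -- the difference is at least one over the product of the denominators
  have h4 : (1 : ℝ) ≤ ρ.den * ρ'.den * |(ρ : ℝ) - ρ'| := by
    have h5 : ρ - ρ' ≠ 0 := sub_ne_zero.2 hne
    have e1 : (ρ.den : ℚ) * ρ = ρ.num := Rat.den_mul_eq_num ρ
    have e2 : (ρ'.den : ℚ) * ρ' = ρ'.num := Rat.den_mul_eq_num ρ'
    have h6 : (ρ.den : ℚ) * ρ'.den * (ρ - ρ') = ((ρ.num * ρ'.den - ρ'.num * ρ.den : ℤ) : ℚ) := by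
      push_cast
      rw [← e1, ← e2]
      ring
    have h7 : (ρ.num * ρ'.den - ρ'.num * ρ.den : ℤ) ≠ 0 := by
      intro h8
      rw [h8, Int.cast_zero] at h6
      have hd1 : (ρ.den : ℚ) ≠ 0 := by exact_mod_cast ρ.den_nz
      have hd2 : (ρ'.den : ℚ) ≠ 0 := by exact_mod_cast ρ'.den_nz
      rcases mul_eq_zero.1 h6 with h9 | h9
      · rcases mul_eq_zero.1 h9 with h10 | h10
        · exact hd1 h10
        · exact hd2 h10
      · exact h5 h9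
    have h8 : (1 : ℚ) ≤ |(ρ.den : ℚ) * ρ'.den * (ρ - ρ')| := by
      rw [h6, ← Int.cast_abs]
      exact_mod_cast Int.one_le_abs h7
    rw [abs_mul, abs_of_pos (by
      have := ρ.den_pos
      have := ρ'.den_pos
      positivity)] at h8
    have h9 : (1 : ℝ) ≤ (((ρ.den : ℚ) * ρ'.den * |ρ - ρ'| : ℚ) : ℝ) := by exact_mod_cast h8
    push_cast at h9
    exact h9
  have h5 : (ρ.den : ℝ) < 2 ^ (β + 1) := by exact_mod_cast h1
  have h6 : (ρ'.den : ℝ) < 2 ^ (β + 1) := by exact_mod_cast h2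
  have h7 : (ρ.den : ℝ) * ρ'.den ≤ 2 ^ (2 * β + 2) := by
    have e : (2 : ℝ) ^ (2 * β + 2) = 2 ^ (β + 1) * 2 ^ (β + 1) := by rw [← pow_add]; congr 1; omega
    rw [e]
    exact mul_le_mul h5.le h6.le (by positivity) (by positivity)
  have h8 := mul_le_mul_of_nonneg_right h7 (abs_nonneg ((ρ : ℝ) - ρ'))
  linarith

/-- The condition that `ρ` is an approximation at scale `β` of a point of `G`. -/
def Appr (G : Set X) (β N : ℕ) (ρ : ℚ) : Prop :=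
  2 ^ β ≤ ρ.den ∧ ρ.den < 2 ^ (β + 1) ∧ ρ.den ≤ N ∧
    ∃ x ∈ G, |rep x - ρ| ≤ 1 / ((N + 1) * ρ.den)

open Classical in
lemma exc_card (δ : ℝ) (hδ : 0 ≤ δ) (β N : ℕ) (G : Set X) :
    (((range N).filter (fun h => ∃ ρ : ℚ, Appr G β N ρ ∧ BadPair δ β h ρ)).card : ℝ) ≤
      88 * N * cnt (2 * β + 2) G * Real.exp (-(δ ^ 2 / 8) * β) := by
  set R := 2 * β + 2 with hR
  set S : Finset ℕ := (range (2 ^ R)).filter (fun s => ∃ x ∈ G, D R x = s) with hS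
  set SS : Finset ℤ := (S ×ˢ Finset.Icc (-5 : ℤ) 5).image (fun p => (p.1 : ℤ) + p.2) with hSS
  have hSSc : SS.card ≤ 11 * cnt R G := by
    refine card_image_le.trans ?_
    rw [card_product, Int.card_Icc, mul_comm]
    exact le_rfl
  set E : ℤ → Finset ℕ := fun σ => (range N).filter
    (fun h => ∃ ρ : ℚ, (Appr G β N ρ ∧ ⌊(2 : ℝ) ^ R * ρ⌋ = σ) ∧ BadPair δ β h ρ) with hE
  have hEc : ∀ σ, ((E σ).card : ℝ) ≤ 8 * N * Real.exp (-(δ ^ 2 / 8) * β) := by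
    intro σ
    by_cases hex : ∃ ρ : ℚ, Appr G β N ρ ∧ ⌊(2 : ℝ) ^ R * ρ⌋ = σ
    · obtain ⟨ρ₀, hρ₀, hf₀⟩ := hex
      refine le_trans ?_ (card_badPair δ hδ β N ρ₀ hρ₀.1 hρ₀.2.2.1)
      have : E σ ⊆ (range N).filter (fun h => BadPair δ β h ρ₀) := by
        intro h hh
        rw [hE, mem_filter] at hh
        obtain ⟨h1, ρ, ⟨h2, h3⟩, h4⟩ := hh
        have : ρ = ρ₀ := rat_sep h2.2.1 hρ₀.2.1 (by rw [← hR, h3, hf₀])
        rw [this] at h4
        exact mem_filter.2 ⟨h1, h4⟩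
      exact_mod_cast card_le_card this
    · have : E σ = ∅ := by
        rw [hE, filter_eq_empty_iff]
        intro h _ hcon
        obtain ⟨ρ, h2, _⟩ := hcon
        exact hex ⟨ρ, h2⟩
      rw [this]
      simp only [card_empty, Nat.cast_zero]
      positivity
  have hsub : (range N).filter (fun h => ∃ ρ : ℚ, Appr G β N ρ ∧ BadPair δ β h ρ) ⊆ SS.biUnion E := by
    intro h hh
    rw [mem_filter] at hh
    obtain ⟨h1, ρ, hρ, hbad⟩ := hh
    rw [mem_biUnion]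
    refine ⟨⌊(2 : ℝ) ^ R * ρ⌋, ?_, ?_⟩
    · obtain ⟨hd1, hd2, hd3, x, hx, hxρ⟩ := hρ
      rw [hSS, mem_image]
      refine ⟨(D R x, ⌊(2 : ℝ) ^ R * ρ⌋ - (D R x : ℤ)), ?_, by simp⟩
      rw [mem_product]
      refine ⟨mem_filter.2 ⟨mem_range.2 (D_lt _ _), x, hx, rfl⟩, ?_⟩
      rw [mem_Icc]
      have hq : (2 : ℝ) ^ β ≤ ρ.den := by exact_mod_cast hd1
      have hN : (ρ.den : ℝ) ≤ N := by exact_mod_cast hd3
      have hp : (0 : ℝ) < 2 ^ β := by positivity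
      have hclose : |(2 : ℝ) ^ R * rep x - 2 ^ R * ρ| ≤ 4 := by
        rw [← mul_sub, abs_mul, abs_of_pos (by positivity : (0 : ℝ) < 2 ^ R)]
        have h5 : (2 : ℝ) ^ R = 4 * (2 ^ β * 2 ^ β) := by
          rw [hR, pow_add, two_mul, pow_add]; ring
        have h6 : (0 : ℝ) < (N + 1) * ρ.den := by positivity
        calc (2 : ℝ) ^ R * |rep x - ρ| ≤ 2 ^ R * (1 / ((N + 1) * ρ.den)) :=
              mul_le_mul_of_nonneg_left hxρ (by positivity)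
          _ ≤ 4 := by
            rw [mul_one_div, div_le_iff₀ h6, h5]
            have h7 : (2 : ℝ) ^ β * 2 ^ β ≤ (N + 1) * ρ.den :=
              mul_le_mul (by linarith) hq hp.le (by positivity)
            linarith
      rw [abs_le] at hclose
      have hD : (D R x : ℤ) = ⌊(2 : ℝ) ^ R * rep x⌋ := by
        unfold D
        rw [Int.natCast_floor_eq_floor (mul_nonneg (by positivity) (rep_nonneg x))]
      have f1 := Int.floor_le ((2 : ℝ) ^ R * rep x)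
      have f2 := Int.lt_floor_add_one ((2 : ℝ) ^ R * rep x)
      have f3 := Int.floor_le ((2 : ℝ) ^ R * (ρ : ℝ))
      have f4 := Int.lt_floor_add_one ((2 : ℝ) ^ R * (ρ : ℝ))
      rw [hD]
      constructor
      · have : ((⌊(2 : ℝ) ^ R * rep x⌋ : ℤ) : ℝ) < ((⌊(2 : ℝ) ^ R * (ρ : ℝ)⌋ + 5 : ℤ) : ℝ) := by
          push_cast
          linarith [hclose.2]
        have := Int.cast_lt.1 this
        omega
      · have : ((⌊(2 : ℝ) ^ R * (ρ : ℝ)⌋ : ℤ) : ℝ) < ((⌊(2 : ℝ) ^ R * rep x⌋ + 5 : ℤ) : ℝ) := by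
          push_cast
          linarith [hclose.1]
        have := Int.cast_lt.1 this
        omega
    · rw [hE, mem_filter]
      exact ⟨h1, ρ, ⟨hρ, rfl⟩, hbad⟩
  have h1 : (((range N).filter (fun h => ∃ ρ : ℚ, Appr G β N ρ ∧ BadPair δ β h ρ)).card : ℝ) ≤
      ∑ σ ∈ SS, ((E σ).card : ℝ) := by
    exact_mod_cast (card_le_card hsub).trans card_biUnion_le
  refine h1.trans ((sum_le_sum fun σ _ => hEc σ).trans ?_)
  rw [sum_const, nsmul_eq_mul]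
  have h2 : (SS.card : ℝ) ≤ 11 * cnt R G := by exact_mod_cast hSSc
  have h3 : (0 : ℝ) ≤ 8 * N * Real.exp (-(δ ^ 2 / 8) * β) := by positivity
  calc (SS.card : ℝ) * (8 * N * Real.exp (-(δ ^ 2 / 8) * β)) ≤
        (11 * cnt R G) * (8 * N * Real.exp (-(δ ^ 2 / 8) * β)) := mul_le_mul_of_nonneg_right h2 h3
    _ = _ := by ring

open Classical in
lemma union_bound (δ : ℝ) (hδ : 0 < δ) (G : ℕ → Set X) (C0 : ℝ) (hC0 : 0 ≤ C0)
    (hG : ∀ β, (cnt (2 * β + 2) (G β) : ℝ) ≤ C0 * Real.exp ((δ ^ 2 / 16) * β)) (β₀ N : ℕ) :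
    (((range N).filter (fun h => ∃ β, β₀ ≤ β ∧ ∃ ρ : ℚ, Appr (G β) β N ρ ∧
      BadPair δ β h ρ)).card : ℝ) ≤
      N * (88 * C0 * (Real.exp (-(δ ^ 2 / 16)) ^ β₀ / (1 - Real.exp (-(δ ^ 2 / 16))))) := by
  set θ := Real.exp (-(δ ^ 2 / 16)) with hθ
  have hθ0 : 0 < θ := Real.exp_pos _
  have hθ1 : θ < 1 := by
    rw [hθ, Real.exp_lt_one_iff]
    have : 0 < δ ^ 2 := by positivity
    linarith
  have hsub : (range N).filter (fun h => ∃ β, β₀ ≤ β ∧ ∃ ρ : ℚ, Appr (G β) β N ρ ∧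
      BadPair δ β h ρ) ⊆ (Finset.Ico β₀ (β₀ + N)).biUnion (fun β =>
        (range N).filter (fun h => ∃ ρ : ℚ, Appr (G β) β N ρ ∧ BadPair δ β h ρ)) := by
    intro h hh
    rw [mem_filter] at hh
    obtain ⟨h1, β, h2, ρ, h3, h4⟩ := hh
    rw [mem_biUnion]
    refine ⟨β, ?_, mem_filter.2 ⟨h1, ρ, h3, h4⟩⟩
    rw [mem_Ico]
    refine ⟨h2, ?_⟩
    have h5 : β < 2 ^ β := Nat.lt_two_pow_self
    have := h3.1
    have := h3.2.2.1
    omega
  have h1 : (((range N).filter (fun h => ∃ β, β₀ ≤ β ∧ ∃ ρ : ℚ, Appr (G β) β N ρ ∧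
      BadPair δ β h ρ)).card : ℝ) ≤ ∑ β ∈ Finset.Ico β₀ (β₀ + N), (((range N).filter
        (fun h => ∃ ρ : ℚ, Appr (G β) β N ρ ∧ BadPair δ β h ρ)).card : ℝ) := by
    exact_mod_cast (card_le_card hsub).trans card_biUnion_le
  have h2 : ∀ β ∈ Finset.Ico β₀ (β₀ + N), (((range N).filter
        (fun h => ∃ ρ : ℚ, Appr (G β) β N ρ ∧ BadPair δ β h ρ)).card : ℝ) ≤
        (88 * N * C0) * θ ^ β := by
    intro β _
    refine (exc_card δ hδ.le β N (G β)).trans ?_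
    have e : Real.exp ((δ ^ 2 / 16) * β) * Real.exp (-(δ ^ 2 / 8) * β) = θ ^ β := by
      rw [hθ, ← Real.exp_nat_mul, ← Real.exp_add]
      congr 1
      ring
    have hpos : (0 : ℝ) < Real.exp (-(δ ^ 2 / 8) * β) := Real.exp_pos _
    calc 88 * N * (cnt (2 * β + 2) (G β) : ℝ) * Real.exp (-(δ ^ 2 / 8) * β)
        ≤ 88 * N * (C0 * Real.exp ((δ ^ 2 / 16) * β)) * Real.exp (-(δ ^ 2 / 8) * β) := by
          apply mul_le_mul_of_nonneg_right _ hpos.le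
          exact mul_le_mul_of_nonneg_left (hG β) (by positivity)
      _ = (88 * N * C0) * (Real.exp ((δ ^ 2 / 16) * β) * Real.exp (-(δ ^ 2 / 8) * β)) := by ring
      _ = _ := by rw [e]
  refine h1.trans ((sum_le_sum h2).trans ?_)
  rw [← mul_sum]
  have h3 : ∑ β ∈ Finset.Ico β₀ (β₀ + N), θ ^ β ≤ θ ^ β₀ / (1 - θ) := by
    have h4 : ∑ β ∈ Finset.Ico β₀ (β₀ + N), θ ^ β = θ ^ β₀ * ∑ i ∈ range N, θ ^ i := by
      rw [sum_Ico_eq_sum_range, mul_sum]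
      simp only [Nat.add_sub_cancel_left]
      apply sum_congr rfl
      intro i _
      rw [pow_add]
    rw [h4, geom_sum_eq hθ1.ne, div_eq_mul_inv (θ ^ β₀)]
    apply mul_le_mul_of_nonneg_left _ (by positivity)
    have h5 : (θ ^ N - 1) / (θ - 1) = (1 - θ ^ N) / (1 - θ) := by
      rw [← neg_div_neg_eq]; ring_nf
    rw [h5, div_eq_mul_inv]
    have h6 : (0 : ℝ) < (1 - θ)⁻¹ := by
      rw [inv_pos]; linarith
    have h7 : 0 ≤ θ ^ N := by positivity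
    nlinarith
  calc (88 * N * C0) * ∑ β ∈ Finset.Ico β₀ (β₀ + N), θ ^ β ≤ (88 * N * C0) * (θ ^ β₀ / (1 - θ)) :=
        mul_le_mul_of_nonneg_left h3 (by positivity)
    _ = _ := by ring

end Pool.Agent.H769R3
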