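import Pool.Agent.H769R3.Approx
import Pool.Agent.H769R3.Union
import Pool.Agent.H769R3.Stop

set_option autoImplicit false

open Finset MeasureTheory Filter Topology

namespace Pool.Agent.H769R3

/-- Invariant probability measures of the doubling map. -/
abbrev P2 : Type := {ν : ProbabilityMeasure UnitAddCircle //
  (ν : Measure UnitAddCircle).map (fun x : UnitAddCircle => (2 : ℕ) • x)
    = (ν : Measure UnitAddCircle)}

/-- The measure `μ` as a measure on `X`. -/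
def toM (μ : P2) : Measure X := (μ.1 : Measure UnitAddCircle)

instance (μ : P2) : IsProbabilityMeasure (toM μ) := by unfold toM; infer_instance

lemma toM_inv (μ : P2) : (toM μ).map (fun x : X => (2 : ℕ) • x) = toM μ := μ.2

lemma toM_inv_pow (μ : P2) (j : ℕ) : (toM μ).map (fun x : X => (2 ^ j : ℕ) • x) = toM μ :=
  (mp_pow (toM_inv μ) j).map_eq

/-- The approximating measures, as points of `P2`. -/
noncomputable def toP2 (n K : ℕ) (hn : 1 ≤ n) (hK : 1 ≤ K) (μ : P2) : P2 :=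
  ⟨⟨nu1 n (n * K) (toM μ), nu1_prob (Nat.mul_pos hn hK) (toM μ)⟩,
    nu1_inv hn (Nat.mul_pos hn hK) (dvd_mul_right n K) (toM μ)⟩

lemma toM_toP2 (n K : ℕ) (hn : 1 ≤ n) (hK : 1 ≤ K) (μ : P2) :
    toM (toP2 n K hn hK μ) = nu1 n (n * K) (toM μ) := rfl

lemma tendsto_P2 {ι : Type*} {l : Filter ι} (F : ι → P2) (μ : P2)
    (h : ∀ k : ℤ, Tendsto (fun i => ∫ x, (fourier k x : ℂ) ∂(toM (F i))) l
      (𝓝 (∫ x, (fourier k x : ℂ) ∂(toM μ)))) : Tendsto F l (𝓝 μ) := by
  rw [tendsto_subtype_rng, ProbabilityMeasure.tendsto_iff_forall_integral_rclike_tendsto ℂ]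
  intro f
  exact tendsto_of_fourier (fun i => toM (F i)) (toM μ) h f.toContinuousMap

lemma exists_n (V : Set P2) (hV : IsOpen V) (μ : P2) (hμ : μ ∈ V) :
    ∃ (n : ℕ) (hn : 1 ≤ n), ∀ (K : ℕ) (hK : 1 ≤ K), toP2 n K hn hK μ ∈ V := by
  have hT : Tendsto (fun p : ℕ × ℕ => toP2 (p.1 + 1) (p.2 + 1) (Nat.succ_pos _) (Nat.succ_pos _) μ)
      (comap Prod.fst atTop) (𝓝 μ) := by
    apply tendsto_P2
    intro k
    rw [tendsto_iff_norm_sub_tendsto_zero]
    have hb : ∀ p : ℕ × ℕ, ‖∫ x, (fourier k x : ℂ) ∂(toM (toP2 (p.1 + 1) (p.2 + 1)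
        (Nat.succ_pos _) (Nat.succ_pos _) μ)) - ∫ x, (fourier k x : ℂ) ∂(toM μ)‖ ≤
        4 * Real.pi * |(k : ℝ)| / ((p.1 + 1 : ℕ) : ℝ) := by
      intro p
      exact nu1_fourier_close (Nat.succ_pos _) (Nat.succ_pos _) (toM μ) (toM_inv_pow μ) k
    have hz : Tendsto (fun p : ℕ × ℕ => 4 * Real.pi * |(k : ℝ)| / ((p.1 + 1 : ℕ) : ℝ))
        (comap Prod.fst atTop) (𝓝 0) := by
      have h1 : Tendsto (fun i : ℕ => 4 * Real.pi * |(k : ℝ)| / ((i + 1 : ℕ) : ℝ)) atTop (𝓝 0) :=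
        (tendsto_const_div_atTop_nhds_zero_nat _).comp (tendsto_add_atTop_nat 1)
      exact h1.comp tendsto_comap
    exact squeeze_zero (fun p => norm_nonneg _) hb hz
  have hev := hT.eventually (hV.mem_nhds hμ)
  rw [eventually_comap] at hev
  obtain ⟨n0, hn0⟩ := hev.exists
  refine ⟨n0 + 1, Nat.succ_pos _, ?_⟩
  intro K hK
  have := hn0 (n0, K - 1) rfl
  obtain ⟨K', rfl⟩ : ∃ K', K = K' + 1 := ⟨K - 1, by omega⟩
  exact this

/-- The cut-off function. -/
noncomputable def phi (F : Set X) (r : ℝ) : C(X, ℝ) :=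
  ⟨fun x => min 1 (Metric.infDist x F / r), by
    exact continuous_const.min ((Metric.continuous_infDist_pt F).div_const r)⟩

lemma phi_nonneg {F : Set X} {r : ℝ} (hr : 0 < r) (x : X) : 0 ≤ phi F r x :=
  le_min zero_le_one (div_nonneg Metric.infDist_nonneg hr.le)

lemma phi_mem {F : Set X} {r : ℝ} {x : X} (hx : x ∈ F) : phi F r x = 0 := by
  change min 1 (Metric.infDist x F / r) = 0
  rw [Metric.infDist_zero_of_mem hx, zero_div]
  exact min_eq_right zero_le_one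

lemma phi_notMem {F : Set X} (hF : F.Nonempty) {r : ℝ} (hr : 0 < r) {x : X} (hx : x ∉ Nb F r) :
    phi F r x = 1 := by
  change min 1 (Metric.infDist x F / r) = 1
  apply min_eq_left
  rw [le_div_iff₀ hr, one_mul]
  by_contra hcon
  rw [not_le, Metric.infDist_lt_iff hF] at hcon
  obtain ⟨y, hy, hxy⟩ := hcon
  exact hx ⟨y, hy, by rwa [dist_eq_norm] at hxy⟩

lemma continuous_integral (g : C(X, ℝ)) : Continuous (fun μ : P2 => ∫ x, g x ∂(toM μ)) := by
  rw [continuous_iff_continuousAt]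
  intro μ
  have h1 : Tendsto (fun ν : P2 => ν.1) (𝓝 μ) (𝓝 μ.1) := continuous_subtype_val.continuousAt
  rw [ProbabilityMeasure.tendsto_iff_forall_integral_tendsto] at h1
  exact h1 (BoundedContinuousFunction.mkOfCompact g)

open Classical in
lemma pointwise_key {n m M N β₀ h : ℕ} (hn : 1 ≤ n) (hm : 1 ≤ m) (hnm : n ∣ m) {δ r : ℝ}
    (hδ : 0 < δ) (hM : 1 ≤ M) (hβ₀ : 1 ≤ β₀) (hδβ : 2 * Real.pi ≤ δ * β₀)
    (hQ : 2 ^ β₀ * 2 ^ n < 2 ^ m) (hr : 0 < r)
    (hr1 : r + 1 / (N + 1) ≤ 1 / ((2 ^ β₀ : ℕ) * 2 ^ m : ℝ)) (hN : h < N)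
    (hgood : ¬ ∃ β, β₀ ≤ β ∧ ∃ ρ : ℚ,
      Appr {x | bad (Nb (FF n m) r) (2 * β + 2) x ≤ (2 * β + 2) / M} β N ρ ∧ BadPair δ β h ρ)
    (x : X) :
    ∃ τ : ℕ, 1 ≤ τ ∧ τ ≤ 2 * N + 2 ∧ ‖∑ j ∈ range τ, (fourier (h : ℤ) ((2 ^ j : ℕ) • x) : ℂ)‖ ≤
      2 * δ * τ + ∑ j ∈ range τ, (M : ℝ) * phi (FF n m) r ((2 ^ j : ℕ) • x) := by
  have hN0 : 0 < N := by omega
  have hFne : (FF n m).Nonempty := ⟨_, 0, hm, 0, by positivity, rfl⟩
  have hM0 : (1 : ℝ) ≤ M := by exact_mod_cast hM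
  have hNR : (0 : ℝ) < (N : ℝ) + 1 := by positivity
  obtain ⟨ρ, hρ1, hρ2⟩ := Real.exists_rat_abs_sub_le_and_den_le (rep x) hN0
  have hden : (1 : ℝ) ≤ ρ.den := by exact_mod_cast ρ.den_pos
  have hclose : ‖x - ((ρ : ℝ) : X)‖ ≤ |rep x - ρ| := by
    have e : x - ((ρ : ℝ) : X) = ((rep x - ρ : ℝ) : X) := by
      rw [AddCircle.coe_sub, coe_rep]
    rw [e]
    exact norm_coe_le _
  by_cases hsmall : ρ.den < 2 ^ β₀
  · -- small denominators
    have hx : x ∉ Nb (FF n m) r := by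
      rintro ⟨y, hy, hxy⟩
      have hfar := FF_far hn hm hnm hy hQ ρ hsmall
      have h1 : ‖y - ((ρ : ℝ) : X)‖ ≤ ‖x - y‖ + ‖x - ((ρ : ℝ) : X)‖ := by
        have e : y - ((ρ : ℝ) : X) = (x - ((ρ : ℝ) : X)) - (x - y) := by abel
        rw [e, add_comm]
        exact norm_sub_le _ _
      have h2 : |rep x - ρ| ≤ 1 / (N + 1) := by
        refine hρ1.trans ?_
        apply one_div_le_one_div_of_le hNR
        nlinarith
      linarith
    refine ⟨1, le_rfl, by omega, ?_⟩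
    rw [sum_range_one, sum_range_one, pow_zero, one_smul, fourier_norm, phi_notMem hFne hr hx]
    push_cast
    linarith
  · rw [not_lt] at hsmall
    set β := Nat.log 2 ρ.den with hβ
    have hb1 : 2 ^ β ≤ ρ.den := Nat.pow_log_le_self 2 ρ.den_nz
    have hb2 : ρ.den < 2 ^ (β + 1) := Nat.lt_pow_succ_log_self (by norm_num) _
    have hb3 : β₀ ≤ β := (Nat.le_log_iff_pow_le (by norm_num) ρ.den_nz).2 hsmall
    have hb4 : β < N := (Nat.lt_two_pow_self).trans_le (hb1.trans hρ2)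
    by_cases hG : bad (Nb (FF n m) r) (2 * β + 2) x ≤ (2 * β + 2) / M
    · -- a good point
      have happ : Appr {x | bad (Nb (FF n m) r) (2 * β + 2) x ≤ (2 * β + 2) / M} β N ρ :=
        ⟨hb1, hb2, hρ2, x, hG, hρ1⟩
      have hnb : ¬ BadPair δ β h ρ := fun hbp => hgood ⟨β, hb3, ρ, happ, hbp⟩
      unfold BadPair at hnb
      rw [not_lt] at hnb
      refine ⟨β, by omega, by omega, ?_⟩
      have hg0 : 0 ≤ ∑ j ∈ range β, (M : ℝ) * phi (FF n m) r ((2 ^ j : ℕ) • x) :=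
        sum_nonneg fun j _ => mul_nonneg (by positivity) (phi_nonneg hr _)
      have hdiff : ‖∑ j ∈ range β, (fourier (h : ℤ) ((2 ^ j : ℕ) • x) : ℂ) -
          ∑ j ∈ range β, (fourier (h : ℤ) ((2 ^ j : ℕ) • ((ρ : ℝ) : X)) : ℂ)‖ ≤ 2 * Real.pi := by
        rw [← sum_sub_distrib]
        refine (norm_sum_le _ _).trans ?_
        have hterm : ∀ j ∈ range β, ‖(fourier (h : ℤ) ((2 ^ j : ℕ) • x) : ℂ) -
            fourier (h : ℤ) ((2 ^ j : ℕ) • ((ρ : ℝ) : X))‖ ≤
            (2 * Real.pi * h * |rep x - ρ|) * 2 ^ j := by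
          intro j _
          refine (fourier_lip _ _ _).trans ?_
          rw [← smul_sub]
          have h1 : ‖(2 ^ j : ℕ) • (x - ((ρ : ℝ) : X))‖ ≤ 2 ^ j * |rep x - ρ| := by
            refine norm_nsmul_le.trans ?_
            push_cast
            exact mul_le_mul_of_nonneg_left hclose (by positivity)
          have h2 : |((h : ℤ) : ℝ)| = h := by simp
          rw [h2]
          calc 2 * Real.pi * h * ‖(2 ^ j : ℕ) • (x - ((ρ : ℝ) : X))‖ ≤
                2 * Real.pi * h * (2 ^ j * |rep x - ρ|) :=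
                mul_le_mul_of_nonneg_left h1 (by positivity)
            _ = _ := by ring
        refine (sum_le_sum hterm).trans ?_
        rw [← mul_sum]
        have h3 : ∑ j ∈ range β, (2 : ℝ) ^ j ≤ 2 ^ β := by
          rw [geom_sum_eq (by norm_num)]
          norm_num
        have h4 : (h : ℝ) ≤ N + 1 := by
          have : (h : ℝ) < N := by exact_mod_cast hN
          linarith
        have h5 : (2 : ℝ) ^ β ≤ ρ.den := by exact_mod_cast hb1
        calc 2 * Real.pi * h * |rep x - ρ| * ∑ j ∈ range β, (2 : ℝ) ^ j ≤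
              2 * Real.pi * h * |rep x - ρ| * 2 ^ β :=
              mul_le_mul_of_nonneg_left h3 (by positivity)
          _ ≤ 2 * Real.pi * (N + 1) * (1 / ((N + 1) * ρ.den)) * ρ.den := by
            apply mul_le_mul _ h5 (by positivity) (by positivity)
            apply mul_le_mul _ hρ1 (abs_nonneg _) (by positivity)
            exact mul_le_mul_of_nonneg_left h4 (by positivity)
          _ = 2 * Real.pi := by
            field_simp
      have htri : ‖∑ j ∈ range β, (fourier (h : ℤ) ((2 ^ j : ℕ) • x) : ℂ)‖ ≤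
          ‖∑ j ∈ range β, (fourier (h : ℤ) ((2 ^ j : ℕ) • x) : ℂ) -
          ∑ j ∈ range β, (fourier (h : ℤ) ((2 ^ j : ℕ) • ((ρ : ℝ) : X)) : ℂ)‖ +
          ‖∑ j ∈ range β, (fourier (h : ℤ) ((2 ^ j : ℕ) • ((ρ : ℝ) : X)) : ℂ)‖ := by
        refine le_trans (le_of_eq ?_) (norm_add_le _ _)
        congr 1
        ring
      have hβR : (β₀ : ℝ) ≤ β := by exact_mod_cast hb3
      have h6 : δ * β₀ ≤ δ * β := mul_le_mul_of_nonneg_left hβR hδ.le
      linarith
    · -- not a good point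
      rw [not_le] at hG
      refine ⟨2 * β + 2, by omega, by omega, ?_⟩
      set R := 2 * β + 2 with hR
      have h1 : ‖∑ j ∈ range R, (fourier (h : ℤ) ((2 ^ j : ℕ) • x) : ℂ)‖ ≤ R := by
        refine (norm_sum_le _ _).trans ?_
        refine (sum_le_sum (fun j _ => (fourier_norm _ _).le)).trans ?_
        simp
      have h2 : (R : ℝ) ≤ M * bad (Nb (FF n m) r) R x := by
        have : R ≤ M * bad (Nb (FF n m) r) R x := by
          have h3 : R < (R / M + 1) * M := by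
            have := Nat.lt_div_mul_add (a := R) (b := M) (by omega)
            rw [add_mul, one_mul]
            exact this
          have h4 : (R / M + 1) * M ≤ bad (Nb (FF n m) r) R x * M := Nat.mul_le_mul_right _ hG
          rw [mul_comm M]
          omega
        exact_mod_cast this
      have h3 : (M : ℝ) * bad (Nb (FF n m) r) R x ≤
          ∑ j ∈ range R, (M : ℝ) * phi (FF n m) r ((2 ^ j : ℕ) • x) := by
        rw [← mul_sum]
        apply mul_le_mul_of_nonneg_left _ (by positivity)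
        unfold bad
        rw [card_eq_sum_ones]
        push_cast
        rw [sum_filter]
        apply sum_le_sum
        intro j _
        by_cases hj : (2 ^ j : ℕ) • x ∉ Nb (FF n m) r
        · rw [if_pos hj, phi_notMem hFne hr hj]
        · rw [if_neg hj]
          exact phi_nonneg hr _
      have h4 : 0 ≤ 2 * δ * (R : ℝ) := by positivity
      linarith

open Classical in
/-- The key lemma. -/
lemma key (V : Set P2) (hV : IsOpen V) (hVne : V.Nonempty) {δ ρ : ℝ} (hδ : 0 < δ) (hρ : 0 < ρ) :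
    ∃ W : Set P2, IsOpen W ∧ W.Nonempty ∧ W ⊆ V ∧ ∃ N₀ : ℕ, ∀ N ≥ N₀,
      (((range N).filter (fun h : ℕ => ∃ μ ∈ W,
        δ < ‖∫ x, (fourier (h : ℤ) x : ℂ) ∂(toM μ)‖)).card : ℝ) ≤ ρ * N := by
  obtain ⟨μ₀, hμ₀⟩ := hVne
  obtain ⟨n, hn, hnK⟩ := exists_n V hV μ₀ hμ₀
  set d := δ / 3 with hd
  have hd0 : 0 < d := by positivity
  set lam := Real.exp (d ^ 2 / 64) with hlam
  have hlam1 : 1 < lam := by
    rw [hlam, Real.one_lt_exp_iff]
    positivity
  obtain ⟨C, T, hC, hT, hnum⟩ := numeric (8 * 2 ^ n) lam (by positivity) hlam1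
  obtain ⟨M', hM'⟩ := pow_unbounded_of_one_lt T hlam1
  set M := M' + 1 with hMdef
  have hM : T ≤ lam ^ M := hM'.le.trans (pow_le_pow_right₀ hlam1.le (Nat.le_succ _))
  set C0 := C * lam ^ 4 with hC0
  have hC00 : 0 ≤ C0 := by positivity
  set θ := Real.exp (-(d ^ 2 / 16)) with hθ
  have hθ0 : 0 < θ := Real.exp_pos _
  have hθ1 : θ < 1 := by
    rw [hθ, Real.exp_lt_one_iff]
    have : 0 < d ^ 2 := by positivity
    linarith
  -- choice of β₀
  obtain ⟨β₀, hβ1, hβ2, hβ3⟩ : ∃ β₀ : ℕ, 1 ≤ β₀ ∧ 2 * Real.pi ≤ d * β₀ ∧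
      88 * C0 * (θ ^ β₀ / (1 - θ)) ≤ ρ := by
    have t1 : Tendsto (fun b : ℕ => 88 * C0 * (θ ^ b / (1 - θ))) atTop (𝓝 (88 * C0 * (0 / (1 - θ)))) :=
      ((tendsto_pow_atTop_nhds_zero_of_lt_one hθ0.le hθ1).div_const _).const_mul _
    rw [zero_div, mul_zero] at t1
    have e1 := t1.eventually (gt_mem_nhds hρ)
    have t2 : Tendsto (fun b : ℕ => d * (b : ℝ)) atTop atTop :=
      tendsto_natCast_atTop_atTop.const_mul_atTop hd0
    have e2 := t2.eventually_ge_atTop (2 * Real.pi)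
    obtain ⟨b, h1, h2, h3⟩ := (e1.and (e2.and (eventually_ge_atTop 1))).exists
    exact ⟨b, h3, h2, h1.le⟩
  set K := β₀ + 2 with hK
  have hK1 : 1 ≤ K := by omega
  set m := n * K with hm
  have hm1 : 1 ≤ m := Nat.mul_pos hn hK1
  have hnm : n ∣ m := dvd_mul_right n K
  have hQ : 2 ^ β₀ * 2 ^ n < 2 ^ m := by
    rw [← pow_add]
    apply Nat.pow_lt_pow_right (by norm_num)
    rw [hm, hK]
    nlinarith
  set r : ℝ := 1 / (4 * ((2 ^ β₀ : ℕ) * 2 ^ m)) with hr
  have hq1 : (1 : ℝ) ≤ ((2 ^ β₀ : ℕ) : ℝ) := by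
    have : 1 ≤ 2 ^ β₀ := Nat.one_le_two_pow
    exact_mod_cast this
  have hm2 : (1 : ℝ) ≤ 2 ^ m := one_le_pow₀ (by norm_num)
  have hr0 : 0 < r := by positivity
  have hr3 : 3 * r ≤ 1 / 2 ^ m := by
    rw [hr, mul_one_div, div_le_div_iff₀ (by positivity) (by positivity)]
    nlinarith
  have hr4 : r ≤ 1 / 4 := by
    rw [hr]
    apply one_div_le_one_div_of_le (by norm_num)
    nlinarith
  set U := Nb (FF n m) r with hU
  set φ := phi (FF n m) r with hφ
  -- counting bound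
  have hcnt : ∀ R B : ℕ, (cnt R {x | bad U R x ≤ B} : ℝ) ≤ C * lam ^ R * T ^ B := by
    apply hnum (fun ℓ => (cnt ℓ (Run U ℓ) : ℝ)) (fun R B => (cnt R {x | bad U R x ≤ B} : ℝ))
    · intro ℓ
      have := cnt_run hn hm1 hnm hr3 hr4 ℓ
      have h2 : ((cnt ℓ (Run U ℓ) : ℕ) : ℝ) ≤ ((8 * 2 ^ n * (ℓ + 1) : ℕ) : ℝ) := by
        exact_mod_cast this
      refine h2.trans (le_of_eq ?_)
      push_cast
      ring
    · intro ℓ; positivity
    · intro R
      exact_mod_cast cnt_mono R (bad_zero_subset U R)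
    · intro R B
      exact_mod_cast cnt_recurrence U R B
  have hGcnt : ∀ β : ℕ, (cnt (2 * β + 2) {x | bad U (2 * β + 2) x ≤ (2 * β + 2) / M} : ℝ) ≤
      C0 * Real.exp ((d ^ 2 / 16) * β) := by
    intro β
    refine (hcnt _ _).trans ?_
    set R := 2 * β + 2 with hR
    have h1 : T ^ (R / M) ≤ lam ^ R := by
      calc T ^ (R / M) ≤ (lam ^ M) ^ (R / M) := pow_le_pow_left₀ (by linarith) hM _
        _ = lam ^ (M * (R / M)) := by rw [← pow_mul]
        _ ≤ lam ^ R := pow_le_pow_right₀ hlam1.le (Nat.mul_div_le R M)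
    have h2 : lam ^ R * lam ^ R = lam ^ 4 * Real.exp ((d ^ 2 / 16) * β) := by
      rw [← pow_add, hR]
      have : 2 * β + 2 + (2 * β + 2) = 4 + 4 * β := by ring
      rw [this, pow_add]
      congr 1
      rw [hlam, ← Real.exp_nat_mul]
      congr 1
      push_cast
      ring
    calc C * lam ^ R * T ^ (R / M) ≤ C * lam ^ R * lam ^ R :=
          mul_le_mul_of_nonneg_left h1 (by positivity)
      _ = C * (lam ^ R * lam ^ R) := by ring
      _ = _ := by rw [h2, hC0]; ring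
  -- the open set
  refine ⟨{μ | μ ∈ V ∧ ∫ x, φ x ∂(toM μ) < d / M}, ?_, ?_, fun μ hμ => hμ.1, ?_⟩
  · exact hV.inter (isOpen_lt (continuous_integral φ) continuous_const)
  · refine ⟨toP2 n K hn hK1 μ₀, hnK K hK1, ?_⟩
    rw [toM_toP2, integral_nu1]
    have hz : ∀ s ∈ range (n * K), ∫ x, φ ((2 ^ s : ℕ) • YY n (n * K) x) ∂(toM μ₀) = 0 := by
      intro s hs
      have : ∀ x, φ ((2 ^ s : ℕ) • YY n (n * K) x) = 0 := fun x =>
        phi_mem (YY_mem x s (mem_range.1 hs))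
      simp only [this, integral_zero]
    rw [sum_congr rfl hz, sum_const_zero, smul_zero]
    positivity
  · refine ⟨4 * (2 ^ β₀ * 2 ^ m), ?_⟩
    intro N hN
    have hr1 : r + 1 / (N + 1) ≤ 1 / ((2 ^ β₀ : ℕ) * 2 ^ m : ℝ) := by
      have h1 : (4 : ℝ) * ((2 ^ β₀ : ℕ) * 2 ^ m) ≤ N := by exact_mod_cast hN
      have h2 : (1 : ℝ) / (N + 1) ≤ 1 / (4 * ((2 ^ β₀ : ℕ) * 2 ^ m)) := by
        apply one_div_le_one_div_of_le (by positivity)
        linarith
      have h3 : r + 1 / (4 * ((2 ^ β₀ : ℕ) * 2 ^ m)) ≤ 1 / ((2 ^ β₀ : ℕ) * 2 ^ m : ℝ) := by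
        rw [hr, ← add_div, div_le_div_iff₀ (by positivity) (by positivity)]
        have : (0 : ℝ) < (2 ^ β₀ : ℕ) * 2 ^ m := by positivity
        linarith
      linarith
    have hub := union_bound d hd0
      (fun β => {x | bad U (2 * β + 2) x ≤ (2 * β + 2) / M}) C0 hC00 hGcnt β₀ N
    have hN0 : (0 : ℝ) ≤ N := by positivity
    have h5 : ((N : ℝ) * (88 * C0 * (θ ^ β₀ / (1 - θ)))) ≤ ρ * N := by
      rw [mul_comm ρ]
      exact mul_le_mul_of_nonneg_left hβ3 hN0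
    refine le_trans ?_ (hub.trans h5)
    have hsub : (range N).filter (fun h : ℕ => ∃ μ ∈ {μ | μ ∈ V ∧ ∫ x, φ x ∂(toM μ) < d / M},
        δ < ‖∫ x, (fourier (h : ℤ) x : ℂ) ∂(toM μ)‖) ⊆
        (range N).filter (fun h => ∃ β, β₀ ≤ β ∧ ∃ ρ : ℚ,
          Appr {x | bad U (2 * β + 2) x ≤ (2 * β + 2) / M} β N ρ ∧ BadPair d β h ρ) := by
      intro h hh
      rw [mem_filter] at hh ⊢
      obtain ⟨hhN, μ, hμ, hbig⟩ := hh
      refine ⟨hhN, ?_⟩
      by_contra hgood
      have hst := stop (μ := toM μ) (toM_inv μ) (fourier (h : ℤ))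
        (fun x => (fourier_norm _ x).le) ((M : ℝ) • φ)
        (fun x => by
          rw [ContinuousMap.smul_apply, smul_eq_mul]
          exact mul_nonneg (by positivity) (phi_nonneg hr0 x))
        (δ := 2 * d) (by positivity) (2 * N + 2)
        (fun x => pointwise_key hn hm1 hnm hd0 (by omega) hβ1 hβ2 hQ hr0 hr1
          (mem_range.1 hhN) hgood x)
      have hint : ∫ x, ((M : ℝ) • φ) x ∂(toM μ) = M * ∫ x, φ x ∂(toM μ) := by
        simp only [ContinuousMap.smul_apply, smul_eq_mul]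
        exact integral_const_mul _ _
      rw [hint] at hst
      have hMpos : (0 : ℝ) < M := by
        rw [hMdef]; positivity
      have h6 : (M : ℝ) * ∫ x, φ x ∂(toM μ) < d := by
        have := mul_lt_mul_of_pos_left hμ.2 hMpos
        rwa [mul_div_cancel₀ _ hMpos.ne'] at this
      have h7 : δ = 3 * d := by rw [hd]; ring
      linarith
    exact_mod_cast card_le_card hsub

end Pool.Agent.H769R3
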