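import Mathlib

set_option autoImplicit false

open MeasureTheory Set Filter Topology

namespace Pool.Agent.H769R3

/-- A finite measure on the circle invariant under an irrational rotation is translation invariant. -/
lemma rot_inv_all {θ : ℝ} (hθ : Irrational θ) (ν : Measure (AddCircle (1 : ℝ))) [IsFiniteMeasure ν]
    (h : ν.map (fun x => (θ : AddCircle (1 : ℝ)) + x) = ν) (g : AddCircle (1 : ℝ)) :
    ν.map (fun x => g + x) = ν := by
  -- integer multiples
  have hnat : ∀ n : ℕ, ν.map (fun x => (n : ℤ) • (θ : AddCircle (1 : ℝ)) + x) = ν := by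
    intro n
    induction n with
    | zero => simp
    | succ n ih =>
      have : (fun x => ((n + 1 : ℕ) : ℤ) • (θ : AddCircle (1 : ℝ)) + x) =
          (fun x => (θ : AddCircle (1 : ℝ)) + x) ∘
            (fun x => (n : ℤ) • (θ : AddCircle (1 : ℝ)) + x) := by
        funext x
        simp only [Function.comp]
        push_cast
        rw [add_smul, one_smul]
        abel
      rw [this, ← Measure.map_map (by fun_prop) (by fun_prop), ih, h]
  have hint : ∀ n : ℤ, ν.map (fun x => n • (θ : AddCircle (1 : ℝ)) + x) = ν := by
    intro n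
    rcases Int.eq_nat_or_neg n with ⟨m, rfl | rfl⟩
    · exact hnat m
    · conv_lhs => rw [← hnat m]
      rw [Measure.map_map (by fun_prop) (by fun_prop)]
      have : ((fun x => (-(m : ℤ)) • (θ : AddCircle (1 : ℝ)) + x) ∘
          fun x => (m : ℤ) • (θ : AddCircle (1 : ℝ)) + x) = id := by
        funext x
        simp only [Function.comp, id]
        rw [neg_smul]
        abel
      rw [this, Measure.map_id]
  have hdense : DenseRange (fun n : ℤ => n • (θ : AddCircle (1 : ℝ))) := by
    rw [AddCircle.denseRange_zsmul_coe_iff]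
    simpa using hθ
  apply ext_of_forall_integral_eq_of_IsFiniteMeasure
  intro f
  -- continuity of g ↦ ∫ f (g + x)
  have hcont : Continuous (fun g : AddCircle (1 : ℝ) => ∫ x, f (g + x) ∂ν) := by
    apply continuous_of_dominated (bound := fun _ => ‖f‖)
    · intro g
      exact (f.continuous.comp (by fun_prop)).aestronglyMeasurable
    · intro g
      exact Eventually.of_forall fun x => f.norm_coe_le_norm _
    · exact integrable_const _
    · exact Eventually.of_forall fun x => f.continuous.comp (by fun_prop)
  have heq : (fun g : AddCircle (1 : ℝ) => ∫ x, f (g + x) ∂ν) = fun _ => ∫ x, f x ∂ν := by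
    apply hdense.equalizer hcont continuous_const
    funext n
    simp only [Function.comp]
    conv_rhs => rw [← hint n]
    rw [integral_map (by fun_prop) f.continuous.aestronglyMeasurable]
  rw [integral_map (by fun_prop) f.continuous.aestronglyMeasurable]
  exact congrFun heq g

lemma rot_inv_unique {θ : ℝ} (hθ : Irrational θ) (ν ν' : Measure (AddCircle (1 : ℝ)))
    [IsFiniteMeasure ν] [IsFiniteMeasure ν']
    (h : ν.map (fun x => (θ : AddCircle (1 : ℝ)) + x) = ν)
    (h' : ν'.map (fun x => (θ : AddCircle (1 : ℝ)) + x) = ν')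
    (hm : ν univ = ν' univ) : ν = ν' := by
  haveI : ν.IsAddLeftInvariant := ⟨fun g => rot_inv_all hθ ν h g⟩
  haveI : ν'.IsAddLeftInvariant := ⟨fun g => rot_inv_all hθ ν' h' g⟩
  have e1 := Measure.isAddLeftInvariant_eq_smul ν (volume : Measure (AddCircle (1 : ℝ)))
  have e2 := Measure.isAddLeftInvariant_eq_smul ν' (volume : Measure (AddCircle (1 : ℝ)))
  have hv : (volume : Measure (AddCircle (1 : ℝ))) univ = 1 := by
    simp
  have c1 : ν univ = (Measure.addHaarScalarFactor ν volume : ENNReal) := by
    conv_lhs => rw [e1]
    simp [hv]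
  have c2 : ν' univ = (Measure.addHaarScalarFactor ν' volume : ENNReal) := by
    conv_lhs => rw [e2]
    simp [hv]
  rw [e1, e2]
  congr 1
  have : (Measure.addHaarScalarFactor ν volume : ENNReal) =
      (Measure.addHaarScalarFactor ν' volume : ENNReal) := by rw [← c1, ← c2, hm]
  exact_mod_cast this

end Pool.Agent.H769R3
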