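import Pool.Agent.H769R3.Digits

set_option autoImplicit false

open Finset

namespace Pool.Agent.H769R3

/-! The finite sets `F` of periodic points and the count of prefixes of orbits staying near `F`. -/

lemma exists_lift (x : X) : ∃ ξ : ℝ, (ξ : X) = x ∧ |ξ| = ‖x‖ := by
  refine ⟨rep x - round (rep x), ?_, ?_⟩
  · rw [AddCircle.coe_sub, coe_rep]
    have : ((round (rep x) : ℝ) : X) = 0 := by
      rw [AddCircle.coe_eq_zero_iff]
      exact ⟨round (rep x), by simp⟩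
    rw [this, sub_zero]
  · conv_rhs => rw [← coe_rep x]
    rw [UnitAddCircle.norm_eq]

lemma norm_coe_le (ξ : ℝ) : ‖(ξ : X)‖ ≤ |ξ| := by
  rw [UnitAddCircle.norm_eq]
  have := round_le ξ 0
  simpa using this

lemma norm_coe_eq {ξ : ℝ} (h : |ξ| ≤ 1 / 2) : ‖(ξ : X)‖ = |ξ| :=
  (AddCircle.norm_coe_eq_abs_iff (p := (1 : ℝ)) one_ne_zero).2 (by simpa using h)

lemma norm_nsmul_eq (k : ℕ) (x : X) (h : (k : ℝ) * ‖x‖ ≤ 1 / 2) : ‖k • x‖ = k * ‖x‖ := by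
  obtain ⟨ξ, h1, h2⟩ := exists_lift x
  rw [← h2] at h ⊢
  rw [← h1, ← AddCircle.coe_nsmul, nsmul_eq_mul, norm_coe_eq, abs_mul, Nat.abs_cast]
  rw [abs_mul, Nat.abs_cast]
  exact h

lemma torsion_zero (D : ℕ) (w : X) (h : D • w = 0) (h2 : (D : ℝ) * ‖w‖ < 1) (hD : 0 < D) :
    w = 0 := by
  obtain ⟨ξ, h3, h4⟩ := exists_lift w
  rw [← h3, ← AddCircle.coe_nsmul, AddCircle.coe_eq_zero_iff] at h
  obtain ⟨n, hn⟩ := h
  have hn' : (n : ℝ) = D * ξ := by simpa using hn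
  rw [← h4] at h2
  have h5 : |(n : ℝ)| < 1 := by
    rw [hn', abs_mul, Nat.abs_cast]
    exact h2
  have h6 : n = 0 := by
    have : |n| < 1 := by exact_mod_cast h5
    exact Int.abs_lt_one_iff.1 this
  rw [h6] at hn'
  have h7 : ξ = 0 := by
    have hD' : (D : ℝ) ≠ 0 := by positivity
    have : (D : ℝ) * ξ = 0 := by rw [← hn']; simp
    rcases mul_eq_zero.1 this with h8 | h8
    · exact absurd h8 hD'
    · exact h8
  rw [← h3, h7]
  rfl

/-- Neighbourhood of a set. -/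
def Nb (F : Set X) (r : ℝ) : Set X := {x | ∃ y ∈ F, ‖x - y‖ < r}

lemma run_shadow {F : Set X} {r : ℝ} (hr : r ≤ 1 / 4)
    (hF : ∀ y ∈ F, (2 : ℕ) • y ∈ F) (hsep : ∀ y ∈ F, ∀ y' ∈ F, ‖y - y'‖ < 3 * r → y = y')
    {ℓ : ℕ} {x : X} (hx : x ∈ Run (Nb F r) (ℓ + 1)) : ∃ y ∈ F, (2 : ℝ) ^ ℓ * ‖x - y‖ < r := by
  have hFpow : ∀ (i : ℕ), ∀ y ∈ F, (2 ^ i : ℕ) • y ∈ F := by
    intro i
    induction i with
    | zero => intro y hy; simpa using hy
    | succ i ih =>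
      intro y hy
      have := hF _ (ih y hy)
      rw [← mul_smul] at this
      rw [pow_succ, mul_comm]
      exact this
  obtain ⟨y, hy, hxy⟩ := hx 0 (Nat.succ_pos _)
  rw [pow_zero, one_smul] at hxy
  refine ⟨y, hy, ?_⟩
  have key : ∀ i ≤ ℓ, (2 : ℝ) ^ i * ‖x - y‖ < r := by
    intro i
    induction i with
    | zero => intro _; simpa using hxy
    | succ i ih =>
      intro hi
      have h1 := ih (by omega)
      have h2 : ((2 ^ (i + 1) : ℕ) : ℝ) * ‖x - y‖ ≤ 1 / 2 := by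
        push_cast
        rw [pow_succ]
        linarith
      have h3 := norm_nsmul_eq (2 ^ (i + 1)) (x - y) h2
      obtain ⟨y', hy', hxy'⟩ := hx (i + 1) (by omega)
      have h4 : ‖(2 ^ (i + 1) : ℕ) • y - y'‖ < 3 * r := by
        have e : (2 ^ (i + 1) : ℕ) • y - y' =
            ((2 ^ (i + 1) : ℕ) • x - y') - (2 ^ (i + 1) : ℕ) • (x - y) := by
          rw [smul_sub]
          abel
        have h6 : (2 : ℝ) ^ (i + 1) * ‖x - y‖ < 2 * r := by
          rw [pow_succ]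
          linarith
        rw [e]
        refine (norm_sub_le _ _).trans_lt ?_
        rw [h3]
        push_cast
        linarith
      have h5 := hsep _ (hFpow (i + 1) y hy) _ hy' h4
      rw [← h5, ← smul_sub, h3] at hxy'
      push_cast at hxy'
      exact hxy'
  exact key ℓ le_rfl

lemma D_near (ℓ : ℕ) (c : ℕ) (x z : X) (h : ‖x - z‖ ≤ c / 2 ^ ℓ) :
    ∃ i ∈ Finset.Icc (-(c : ℤ)) (c + 1), (D ℓ x : ℤ) = (⌊(2 : ℝ) ^ ℓ * rep z⌋ + i) % 2 ^ ℓ := by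
  obtain ⟨δ, h1, h2⟩ := exists_lift (x - z)
  rw [← h2] at h
  have hx : x = ((rep z + δ : ℝ) : X) := by
    rw [AddCircle.coe_add, coe_rep, h1]
    abel
  have hrep : rep x = rep z + δ - ⌊rep z + δ⌋ := by
    conv_lhs => rw [hx, rep_coe]
    rw [Int.fract]
  set k := ⌊rep z + δ⌋ with hk
  have hpos : (0 : ℝ) < 2 ^ ℓ := by positivity
  have hδ : |2 ^ ℓ * δ| ≤ c := by
    rw [abs_mul, abs_of_pos hpos]
    calc 2 ^ ℓ * |δ| ≤ 2 ^ ℓ * (c / 2 ^ ℓ) := mul_le_mul_of_nonneg_left h hpos.le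
      _ = c := by field_simp
  rw [abs_le] at hδ
  have hD : (D ℓ x : ℤ) = ⌊(2 : ℝ) ^ ℓ * rep z + 2 ^ ℓ * δ⌋ - 2 ^ ℓ * k := by
    unfold D
    rw [Int.natCast_floor_eq_floor (mul_nonneg (by positivity) (rep_nonneg x)), hrep]
    have : (2 : ℝ) ^ ℓ * (rep z + δ - k) = (2 : ℝ) ^ ℓ * rep z + 2 ^ ℓ * δ - ((2 ^ ℓ * k : ℤ) : ℝ) := by
      push_cast
      ring
    rw [this, Int.floor_sub_intCast]
  refine ⟨⌊(2 : ℝ) ^ ℓ * rep z + 2 ^ ℓ * δ⌋ - ⌊(2 : ℝ) ^ ℓ * rep z⌋, ?_, ?_⟩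
  · rw [Finset.mem_Icc]
    constructor
    · have h3 : ⌊(2 : ℝ) ^ ℓ * rep z⌋ - c ≤ ⌊(2 : ℝ) ^ ℓ * rep z + 2 ^ ℓ * δ⌋ := by
        rw [Int.le_floor]
        push_cast
        have := Int.floor_le ((2 : ℝ) ^ ℓ * rep z)
        linarith
      linarith
    · have h3 : ⌊(2 : ℝ) ^ ℓ * rep z + 2 ^ ℓ * δ⌋ < ⌊(2 : ℝ) ^ ℓ * rep z⌋ + c + 2 := by
        rw [Int.floor_lt]
        push_cast
        have := Int.lt_floor_add_one ((2 : ℝ) ^ ℓ * rep z)
        linarith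
      omega
  · have h3 : ⌊(2 : ℝ) ^ ℓ * rep z⌋ + (⌊(2 : ℝ) ^ ℓ * rep z + 2 ^ ℓ * δ⌋ - ⌊(2 : ℝ) ^ ℓ * rep z⌋) =
        (D ℓ x : ℤ) + 2 ^ ℓ * k := by
      rw [hD]; ring
    rw [h3, Int.add_mul_emod_self_left]
    symm
    apply Int.emod_eq_of_lt (by positivity)
    exact_mod_cast D_lt ℓ x

lemma cnt_near (ℓ c : ℕ) (A : Set X) (Z : Finset X)
    (h : ∀ x ∈ A, ∃ z ∈ Z, ‖x - z‖ ≤ c / 2 ^ ℓ) : cnt ℓ A ≤ (2 * c + 2) * Z.card := by
  classical
  have hcard : (Z ×ˢ Finset.Icc (-(c : ℤ)) (c + 1)).card = (2 * c + 2) * Z.card := by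
    rw [card_product, Int.card_Icc, mul_comm]
    congr 1
    omega
  rw [← hcard]
  unfold cnt
  apply card_le_card_of_surjOn
    (fun p : X × ℤ => ((⌊(2 : ℝ) ^ ℓ * rep p.1⌋ + p.2) % 2 ^ ℓ).toNat)
  intro s hs
  rw [mem_coe, mem_filter] at hs
  obtain ⟨_, x, hx, h2⟩ := hs
  obtain ⟨z, hz, hxz⟩ := h x hx
  obtain ⟨i, hi, hD⟩ := D_near ℓ c x z hxz
  refine ⟨(z, i), ?_, ?_⟩
  · rw [mem_coe, mem_product]
    exact ⟨hz, hi⟩
  · simp only
    rw [← hD, ← h2, Int.toNat_natCast]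

section points

/-- The base periodic points. -/
noncomputable def xv (n v : ℕ) : X := ((v / (2 ^ n - 1) : ℝ) : X)

/-- The perturbed periodic points. -/
noncomputable def yv (n m v : ℕ) : X := ((v / (2 ^ n - 1) + 1 / (2 ^ m - 1) : ℝ) : X)

/-- The finite invariant set. -/
def FF (n m : ℕ) : Set X := {y | ∃ s < m, ∃ v < 2 ^ n, y = (2 ^ s : ℕ) • yv n m v}

variable {n m : ℕ}

lemma two_pow_sub_pos (hn : 1 ≤ n) : (0 : ℝ) < 2 ^ n - 1 := by
  have : (2 : ℝ) ^ 1 ≤ 2 ^ n := pow_le_pow_right₀ (by norm_num) hn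
  linarith

lemma coe_int_zero (k : ℤ) : ((k : ℝ) : X) = 0 := by
  rw [AddCircle.coe_eq_zero_iff]
  exact ⟨k, by simp⟩

lemma yv_torsion (hn : 1 ≤ n) (hm : 1 ≤ m) (hnm : n ∣ m) (v : ℕ) : (2 ^ m - 1) • yv n m v = 0 := by
  obtain ⟨k, hk⟩ : (2 ^ n - 1) ∣ (2 ^ m - 1) := Nat.pow_sub_one_dvd_pow_sub_one 2 hnm
  have h1 := two_pow_sub_pos hn
  have h2 := two_pow_sub_pos hm
  have hk' : (2 : ℝ) ^ m - 1 = (2 ^ n - 1) * k := by
    have e1 : ((2 ^ m - 1 : ℕ) : ℝ) = 2 ^ m - 1 := by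
      rw [Nat.cast_sub Nat.one_le_two_pow]; push_cast; ring
    have e2 : ((2 ^ n - 1 : ℕ) : ℝ) = 2 ^ n - 1 := by
      rw [Nat.cast_sub Nat.one_le_two_pow]; push_cast; ring
    rw [← e1, hk, Nat.cast_mul, e2]
  unfold yv
  rw [← AddCircle.coe_nsmul, nsmul_eq_mul]
  have e : ((2 ^ m - 1 : ℕ) : ℝ) * (v / (2 ^ n - 1) + 1 / (2 ^ m - 1)) = ((v * k + 1 : ℤ) : ℝ) := by
    rw [Nat.cast_sub Nat.one_le_two_pow]
    push_cast
    rw [mul_add, mul_one_div_cancel h2.ne', hk']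
    field_simp
  rw [e, coe_int_zero]

lemma yv_period (hn : 1 ≤ n) (hm : 1 ≤ m) (hnm : n ∣ m) (v : ℕ) :
    (2 ^ m : ℕ) • yv n m v = yv n m v := by
  have h := yv_torsion hn hm hnm v
  have e : 2 ^ m = (2 ^ m - 1) + 1 := (Nat.sub_add_cancel Nat.one_le_two_pow).symm
  rw [e, add_smul, h, zero_add, one_smul]

lemma FF_torsion (hn : 1 ≤ n) (hm : 1 ≤ m) (hnm : n ∣ m) {y : X} (hy : y ∈ FF n m) :
    (2 ^ m - 1) • y = 0 := by
  obtain ⟨s, _, v, _, rfl⟩ := hy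
  rw [smul_comm, yv_torsion hn hm hnm, smul_zero]

lemma FF_double (hn : 1 ≤ n) (hm : 1 ≤ m) (hnm : n ∣ m) {y : X} (hy : y ∈ FF n m) :
    (2 : ℕ) • y ∈ FF n m := by
  obtain ⟨s, hs, v, hv, rfl⟩ := hy
  rw [← mul_smul]
  by_cases h : s + 1 < m
  · exact ⟨s + 1, h, v, hv, by rw [pow_succ, mul_comm]⟩
  · refine ⟨0, by omega, v, hv, ?_⟩
    have : s + 1 = m := by omega
    have e : 2 * 2 ^ s = 2 ^ m := by rw [← this, pow_succ, mul_comm]
    rw [e, yv_period hn hm hnm, pow_zero, one_smul]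

lemma FF_sep (hn : 1 ≤ n) (hm : 1 ≤ m) (hnm : n ∣ m) {r : ℝ} (hr : 3 * r ≤ 1 / 2 ^ m) :
    ∀ y ∈ FF n m, ∀ y' ∈ FF n m, ‖y - y'‖ < 3 * r → y = y' := by
  intro y hy y' hy' h
  have h2 := two_pow_sub_pos hm
  have e1 : ((2 ^ m - 1 : ℕ) : ℝ) = 2 ^ m - 1 := by
    rw [Nat.cast_sub Nat.one_le_two_pow]; push_cast; ring
  have h3 : y - y' = 0 := by
    apply torsion_zero (2 ^ m - 1)
    · rw [smul_sub, FF_torsion hn hm hnm hy, FF_torsion hn hm hnm hy', sub_zero]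
    · rw [e1]
      have h4 : ‖y - y'‖ < 1 / 2 ^ m := lt_of_lt_of_le h hr
      have h5 : (0 : ℝ) < 2 ^ m := by positivity
      calc ((2 : ℝ) ^ m - 1) * ‖y - y'‖ ≤ 2 ^ m * ‖y - y'‖ :=
            mul_le_mul_of_nonneg_right (by linarith) (norm_nonneg _)
        _ < 2 ^ m * (1 / 2 ^ m) := mul_lt_mul_of_pos_left h4 h5
        _ = 1 := by field_simp
    · have : 2 ^ 1 ≤ 2 ^ m := Nat.pow_le_pow_right (by norm_num) hm
      omega
  exact sub_eq_zero.1 h3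

lemma FF_denominator (hn : 1 ≤ n) (hm : 1 ≤ m) (hnm : n ∣ m) {y : X} (hy : y ∈ FF n m) {q Q : ℕ}
    (hq : 1 ≤ q) (hqQ : q < Q) (hQ : Q * 2 ^ n < 2 ^ m) : q • y ≠ 0 := by
  intro h
  obtain ⟨s, hs, v, _, rfl⟩ := hy
  have h1 : q • yv n m v = 0 := by
    conv_lhs => rw [← yv_period hn hm hnm v]
    have e : 2 ^ m = 2 ^ (m - s) * 2 ^ s := by rw [← pow_add]; congr 1; omega
    rw [e, mul_smul, smul_comm q, h, smul_zero]
  have h2 : (q * (2 ^ n - 1)) • yv n m v = 0 := by rw [mul_comm, mul_smul, h1, smul_zero]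
  have p1 := two_pow_sub_pos hn
  have p2 := two_pow_sub_pos hm
  have e2 : ((2 ^ n - 1 : ℕ) : ℝ) = 2 ^ n - 1 := by
    rw [Nat.cast_sub Nat.one_le_two_pow]; push_cast; ring
  have h3 : (q * (2 ^ n - 1)) • yv n m v = ((q * (2 ^ n - 1) / (2 ^ m - 1) : ℝ) : X) := by
    unfold yv
    rw [← AddCircle.coe_nsmul, nsmul_eq_mul, Nat.cast_mul, e2]
    have : (q : ℝ) * (2 ^ n - 1) * (v / (2 ^ n - 1) + 1 / (2 ^ m - 1)) =
        ((q * v : ℤ) : ℝ) + q * (2 ^ n - 1) / (2 ^ m - 1) := by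
      push_cast
      field_simp
    rw [this, AddCircle.coe_add, coe_int_zero, zero_add]
  rw [h3, AddCircle.coe_eq_zero_iff] at h2
  obtain ⟨k, hk⟩ := h2
  have hk' : (k : ℝ) = q * (2 ^ n - 1) / (2 ^ m - 1) := by simpa using hk
  have hq' : (1 : ℝ) ≤ q := by exact_mod_cast hq
  have hpos : (0 : ℝ) < k := by rw [hk']; positivity
  have hlt : (k : ℝ) < 1 := by
    rw [hk', div_lt_one p2]
    have h4 : (q : ℝ) + 1 ≤ Q := by exact_mod_cast hqQ
    have h5 : (Q : ℝ) * 2 ^ n < 2 ^ m := by exact_mod_cast hQ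
    have h6 : (0 : ℝ) < 2 ^ n := by positivity
    nlinarith
  have h7 : 0 < k := by exact_mod_cast hpos
  have h8 : k < 1 := by exact_mod_cast hlt
  omega

/-- Points near `FF` are not close to rationals with small denominators. -/
lemma FF_far (hn : 1 ≤ n) (hm : 1 ≤ m) (hnm : n ∣ m) {y : X} (hy : y ∈ FF n m) {Q : ℕ}
    (hQ : Q * 2 ^ n < 2 ^ m) (ρ : ℚ) (hρ : ρ.den < Q) : 1 / (Q * 2 ^ m : ℝ) ≤ ‖y - ((ρ : ℝ) : X)‖ := by
  by_contra hcon
  rw [not_le] at hcon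
  have hden : 0 < ρ.den := ρ.den_pos
  have hz : ρ.den • ((ρ : ℝ) : X) = 0 := by
    rw [← AddCircle.coe_nsmul, nsmul_eq_mul]
    have : (ρ.den : ℝ) * (ρ : ℝ) = (ρ.num : ℝ) := by
      have := Rat.den_mul_eq_num ρ
      exact_mod_cast this
    rw [this, coe_int_zero]
  have hpm : 2 ^ 1 ≤ 2 ^ m := Nat.pow_le_pow_right (by norm_num) hm
  have hQ0 : (0 : ℝ) < Q := by
    have : 0 < Q := by omega
    exact_mod_cast this
  have h2m : (0 : ℝ) < 2 ^ m := by positivity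
  have h1 : y - ((ρ : ℝ) : X) = 0 := by
    apply torsion_zero (ρ.den * (2 ^ m - 1))
    · rw [smul_sub, mul_smul, FF_torsion hn hm hnm hy, smul_zero, mul_comm, mul_smul, hz,
        smul_zero, sub_zero]
    · have e1 : ((ρ.den * (2 ^ m - 1) : ℕ) : ℝ) ≤ Q * 2 ^ m := by
        have : ρ.den * (2 ^ m - 1) ≤ Q * 2 ^ m :=
          Nat.mul_le_mul hρ.le (Nat.sub_le _ _)
        exact_mod_cast this
      calc ((ρ.den * (2 ^ m - 1) : ℕ) : ℝ) * ‖y - ((ρ : ℝ) : X)‖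
          ≤ (Q * 2 ^ m) * ‖y - ((ρ : ℝ) : X)‖ := mul_le_mul_of_nonneg_right e1 (norm_nonneg _)
        _ < (Q * 2 ^ m) * (1 / (Q * 2 ^ m : ℝ)) := mul_lt_mul_of_pos_left hcon (by positivity)
        _ = 1 := by field_simp
    · exact Nat.mul_pos hden (by omega)
  rw [sub_eq_zero] at h1
  exact FF_denominator hn hm hnm hy hden hρ hQ (by rw [h1]; exact hz)

lemma pow_smul_xv (hn : 1 ≤ n) (s v : ℕ) : ∃ w < 2 ^ n, (2 ^ s : ℕ) • xv n v = xv n w := by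
  refine ⟨(2 ^ s * v) % (2 ^ n - 1), ?_, ?_⟩
  · have h : 2 ^ 1 ≤ 2 ^ n := Nat.pow_le_pow_right (by norm_num) hn
    exact (Nat.mod_lt _ (by omega)).trans_le (Nat.sub_le _ _)
  · unfold xv
    rw [← AddCircle.coe_nsmul, nsmul_eq_mul]
    have h1 := two_pow_sub_pos hn
    have e2 : ((2 ^ n - 1 : ℕ) : ℝ) = 2 ^ n - 1 := by
      rw [Nat.cast_sub Nat.one_le_two_pow]; push_cast; ring
    have h3 : ((2 ^ s * v : ℕ) : ℝ) = (2 ^ n - 1) * ((2 ^ s * v / (2 ^ n - 1) : ℕ) : ℝ) +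
        ((2 ^ s * v % (2 ^ n - 1) : ℕ) : ℝ) := by
      rw [← e2]
      exact_mod_cast (Nat.div_add_mod (2 ^ s * v) (2 ^ n - 1)).symm
    generalize 2 ^ s * v / (2 ^ n - 1) = kk at h3
    have h4 : ((2 ^ s : ℕ) : ℝ) * (v / (2 ^ n - 1)) =
        ((kk : ℤ) : ℝ) + ((2 ^ s * v % (2 ^ n - 1) : ℕ) : ℝ) / (2 ^ n - 1) := by
      rw [← mul_div_assoc, ← Nat.cast_mul, h3, Int.cast_natCast]
      field_simp
    rw [h4, AddCircle.coe_add, coe_int_zero, zero_add]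

lemma cnt_run (hn : 1 ≤ n) (hm : 1 ≤ m) (hnm : n ∣ m) {r : ℝ} (hr : 3 * r ≤ 1 / 2 ^ m)
    (hr4 : r ≤ 1 / 4) (ℓ : ℕ) :
    cnt ℓ (Run (Nb (FF n m) r) ℓ) ≤ 8 * 2 ^ n * (ℓ + 1) := by
  classical
  rcases ℓ with _ | ℓ
  · refine (cnt_le_pow 0 _).trans ?_
    have : 0 < 2 ^ n := by positivity
    omega
  · set Z : Finset X := (range (2 ^ n)).image (fun w => xv n w) ∪
      (range (ℓ + 1) ×ˢ range (2 ^ n)).image (fun p => (2 ^ (m - 1 - p.1) : ℕ) • yv n m p.2) with hZ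
    have hZc : Z.card ≤ 2 ^ n * (ℓ + 1 + 1) := by
      refine (card_union_le _ _).trans ?_
      have h1 : ((range (2 ^ n)).image (fun w => xv n w)).card ≤ 2 ^ n := by
        refine card_image_le.trans ?_
        rw [card_range]
      have h2 : ((range (ℓ + 1) ×ˢ range (2 ^ n)).image
          (fun p => (2 ^ (m - 1 - p.1) : ℕ) • yv n m p.2)).card ≤ (ℓ + 1) * 2 ^ n := by
        refine card_image_le.trans ?_
        rw [card_product, card_range, card_range]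
      calc _ ≤ 2 ^ n + (ℓ + 1) * 2 ^ n := add_le_add h1 h2
        _ = 2 ^ n * (ℓ + 1 + 1) := by ring
    have hmain := cnt_near (ℓ + 1) 3 (Run (Nb (FF n m) r) (ℓ + 1)) Z ?_
    · refine hmain.trans ?_
      calc (2 * 3 + 2) * Z.card ≤ (2 * 3 + 2) * (2 ^ n * (ℓ + 1 + 1)) := Nat.mul_le_mul_left _ hZc
        _ = 8 * 2 ^ n * (ℓ + 1 + 1) := by ring
    · intro x hx
      obtain ⟨y, hy, hxy⟩ := run_shadow hr4 (fun y hy => FF_double hn hm hnm hy)
        (FF_sep hn hm hnm hr) hx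
      have hpos : (0 : ℝ) < 2 ^ ℓ := by positivity
      have hxy' : ‖x - y‖ ≤ 1 / 2 ^ (ℓ + 1) := by
        rw [le_div_iff₀ (by positivity), pow_succ]
        have : ‖x - y‖ * (2 ^ ℓ * 2) = 2 * (2 ^ ℓ * ‖x - y‖) := by ring
        rw [this]
        linarith
      obtain ⟨s, hs, v, hv, hyeq⟩ := hy
      by_cases hc : s + (ℓ + 1) ≤ m
      · obtain ⟨w, hw, hw2⟩ := pow_smul_xv hn s v
        refine ⟨xv n w, ?_, ?_⟩
        · rw [hZ, mem_union, mem_image]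
          exact Or.inl ⟨w, mem_range.2 hw, rfl⟩
        · have h1 : ‖y - xv n w‖ ≤ 2 / 2 ^ (ℓ + 1) := by
            rw [hyeq, ← hw2, ← smul_sub]
            have e : yv n m v - xv n v = ((1 / (2 ^ m - 1) : ℝ) : X) := by
              unfold yv xv
              rw [AddCircle.coe_add]
              abel
            rw [e, ← AddCircle.coe_nsmul, nsmul_eq_mul]
            refine (norm_coe_le _).trans ?_
            have p2 := two_pow_sub_pos hm
            rw [abs_of_nonneg (by positivity)]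
            push_cast
            have h5 : (2 : ℝ) ^ m = 2 * 2 ^ (m - 1) := by
              rw [← pow_succ']
              congr 1
              omega
            have h6 : (1 : ℝ) ≤ 2 ^ (m - 1) := one_le_pow₀ (by norm_num)
            have h7 : (2 : ℝ) ^ (m - 1) ≤ 2 ^ m - 1 := by linarith
            rw [mul_one_div, div_le_div_iff₀ p2 (by positivity)]
            have h8 : (2 : ℝ) ^ s * 2 ^ (ℓ + 1) ≤ 2 ^ m := by
              rw [← pow_add]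
              exact pow_le_pow_right₀ (by norm_num) hc
            linarith
          have h2 : ‖x - xv n w‖ ≤ ‖x - y‖ + ‖y - xv n w‖ := by
            have : x - xv n w = (x - y) + (y - xv n w) := by abel
            rw [this]
            exact norm_add_le _ _
          have h3 : (1 : ℝ) / 2 ^ (ℓ + 1) + 2 / 2 ^ (ℓ + 1) = ((3 : ℕ) : ℝ) / 2 ^ (ℓ + 1) := by
            push_cast
            ring
          linarith
      · refine ⟨y, ?_, ?_⟩
        · rw [hZ, mem_union, mem_image, mem_image]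
          right
          refine ⟨(m - 1 - s, v), ?_, ?_⟩
          · rw [mem_product, mem_range, mem_range]
            exact ⟨by simp only; omega, hv⟩
          · simp only
            rw [hyeq]
            congr 2
            omega
        · refine hxy'.trans ?_
          apply div_le_div_of_nonneg_right _ (by positivity)
          norm_num

end points

end Pool.Agent.H769R3
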