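import Pool.Agent.H769R3.Shadow

set_option autoImplicit false

open Finset MeasureTheory Filter Topology

namespace Pool.Agent.H769R3

/-! Convergence from Fourier coefficients, Lipschitz bound for characters. -/

lemma fourier_norm (k : ℤ) (x : X) : ‖(fourier k x : ℂ)‖ = 1 := by
  conv_lhs => rw [← coe_rep x, fourier_coe_apply]
  have e4 : (2 * Real.pi * Complex.I * k * (rep x) / (1 : ℝ) : ℂ) =
      ((2 * Real.pi * k * rep x : ℝ) : ℂ) * Complex.I := by
    push_cast
    ring
  rw [e4, Complex.norm_exp_ofReal_mul_I]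

lemma fourier_lip (k : ℤ) (a b : X) :
    ‖(fourier k a : ℂ) - fourier k b‖ ≤ 2 * Real.pi * |(k : ℝ)| * ‖a - b‖ := by
  obtain ⟨δ, h1, h2⟩ := exists_lift (a - b)
  have e : a = ((rep b + δ : ℝ) : X) := by
    rw [AddCircle.coe_add, coe_rep, h1]; abel
  have e2 : (fourier k a : ℂ) = fourier k b * Complex.exp (Complex.I * ((2 * Real.pi * k * δ : ℝ) : ℂ)) := by
    conv_lhs => rw [e, fourier_coe_apply]
    conv_rhs => rw [← coe_rep b, fourier_coe_apply]
    rw [← Complex.exp_add]
    congr 1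
    push_cast
    ring
  have e3 : (fourier k a : ℂ) - fourier k b =
      fourier k b * (Complex.exp (Complex.I * ((2 * Real.pi * k * δ : ℝ) : ℂ)) - 1) := by
    rw [e2]; ring
  rw [e3, norm_mul, fourier_norm, one_mul, ← h2]
  refine Real.norm_exp_I_mul_ofReal_sub_one_le.trans (le_of_eq ?_)
  rw [Real.norm_eq_abs, abs_mul, abs_mul, abs_of_pos (by positivity : (0 : ℝ) < 2 * Real.pi)]

lemma integrable_cont {E : Type*} [NormedAddCommGroup E] (μ : Measure X) [IsFiniteMeasure μ]
    (f : C(X, E)) : Integrable (fun x => f x) μ :=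
  f.continuous.integrable_of_hasCompactSupport (HasCompactSupport.of_compactSpace _)

/-- Weak convergence from convergence of Fourier coefficients. -/
lemma tendsto_of_fourier {ι : Type*} {l : Filter ι} (ν : ι → Measure X)
    [∀ i, IsProbabilityMeasure (ν i)] (μ : Measure X) [IsProbabilityMeasure μ]
    (h : ∀ k : ℤ, Tendsto (fun i => ∫ x, (fourier k x : ℂ) ∂(ν i)) l
      (𝓝 (∫ x, (fourier k x : ℂ) ∂μ))) (f : C(X, ℂ)) :
    Tendsto (fun i => ∫ x, f x ∂(ν i)) l (𝓝 (∫ x, f x ∂μ)) := by
  -- the span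
  have hspan : ∀ g ∈ Submodule.span ℂ (Set.range (@fourier 1)),
      Tendsto (fun i => ∫ x, g x ∂(ν i)) l (𝓝 (∫ x, g x ∂μ)) := by
    intro g hg
    induction hg using Submodule.span_induction with
    | mem g hg =>
      obtain ⟨k, rfl⟩ := hg
      exact h k
    | zero => simpa using tendsto_const_nhds
    | add g g' _ _ hg hg' =>
      have e : ∀ (ρ : Measure X) [IsProbabilityMeasure ρ],
          ∫ x, (g + g') x ∂ρ = ∫ x, g x ∂ρ + ∫ x, g' x ∂ρ := by
        intro ρ _
        simp only [ContinuousMap.add_apply]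
        exact integral_add (integrable_cont ρ g) (integrable_cont ρ g')
      rw [e μ]
      simp_rw [fun i => e (ν i)]
      exact hg.add hg'
    | smul c g _ hg =>
      have e : ∀ (ρ : Measure X), ∫ x, (c • g) x ∂ρ = c * ∫ x, g x ∂ρ := by
        intro ρ
        simp only [ContinuousMap.smul_apply, smul_eq_mul]
        exact integral_const_mul _ _
      rw [e μ]
      simp_rw [fun i => e (ν i)]
      exact hg.const_mul c
  rw [Metric.tendsto_nhds]
  intro ε hε
  have hf : f ∈ (Submodule.span ℂ (Set.range (@fourier 1))).topologicalClosure := by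
    rw [span_fourier_closure_eq_top]
    trivial
  rw [← SetLike.mem_coe, Submodule.topologicalClosure_coe, Metric.mem_closure_iff] at hf
  obtain ⟨g, hg, hfg⟩ := hf (ε / 4) (by positivity)
  have hclose : ∀ (ρ : Measure X) [IsProbabilityMeasure ρ],
      ‖∫ x, f x ∂ρ - ∫ x, g x ∂ρ‖ ≤ ε / 4 := by
    intro ρ _
    rw [← integral_sub (integrable_cont ρ f) (integrable_cont ρ g)]
    have h1 : ∀ x, ‖f x - g x‖ ≤ ε / 4 := by
      intro x
      have h2 : ‖(f - g) x‖ ≤ ‖f - g‖ := ContinuousMap.norm_coe_le_norm _ _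
      rw [dist_eq_norm] at hfg
      rw [ContinuousMap.sub_apply] at h2
      exact h2.trans hfg.le
    have h3 := norm_integral_le_of_norm_le_const (μ := ρ) (Eventually.of_forall h1)
    simpa using h3
  filter_upwards [(Metric.tendsto_nhds.1 (hspan g hg)) (ε / 4) (by positivity)] with i hi
  rw [dist_eq_norm] at hi ⊢
  have h1 := hclose (ν i)
  have h2 := hclose μ
  have e : ∫ x, f x ∂(ν i) - ∫ x, f x ∂μ = (∫ x, f x ∂(ν i) - ∫ x, g x ∂(ν i)) +
      (∫ x, g x ∂(ν i) - ∫ x, g x ∂μ) - (∫ x, f x ∂μ - ∫ x, g x ∂μ) := by ring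
  rw [e]
  refine ((norm_sub_le _ _).trans (add_le_add (norm_add_le _ _) le_rfl)).trans_lt ?_
  linarith

end Pool.Agent.H769R3
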